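import Mathlib

/-!
Definitions for the result on `MP_a49cf6_nt`: exponential fields with cyclic kernel and complex
conjugation, Schanuel's inequality for a tuple, the five numbers and their critical sets.
-/

namespace Pool.Agent.Helper35.EM

open Set

/-- An exponential field with cyclic kernel: a homomorphism `E` from the additive group of `K` ONTO its
multiplicative group with kernel `2 i pi ℤ`, where `i ^ 2 = -1`. -/
structure ExpData (K : Type) [Field K] where
  /-- the exponential -/
  E : K → K
  /-- square root of `-1` -/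
  i : K
  /-- the number with `ker E = 2 i pi ℤ` -/
  pi : K
  E_add : ∀ x y, E (x + y) = E x * E y
  E_ne_zero : ∀ x, E x ≠ 0
  E_surj : ∀ y, y ≠ 0 → ∃ x, E x = y
  i_sq : i ^ 2 = -1
  E_ker : ∀ x, E x = 1 ↔ ∃ n : ℤ, x = n * (2 * i * pi)

/-- An exponential field with cyclic kernel and complex conjugation. -/
structure ExpField (K : Type) [Field K] extends ExpData K where
  /-- complex conjugation -/
  cj : K ≃+* K
  cj_cj : ∀ x, cj (cj x) = x
  cj_i : cj i = -i
  cj_pi : cj pi = pi
  cj_E : ∀ x, cj (E x) = E (cj x)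
  pi_pos : ∃ y, y ≠ 0 ∧ cj y = y ∧ pi = y ^ 2

section

variable {K : Type} [Field K] [Algebra ℚ K]

/-- Schanuel's inequality with defect `d` for the tuple `z`: `n ≤ trdeg ℚ (z, E z) + d`. -/
def SchanuelAt (D : ExpData K) {n : ℕ} (z : Fin n → K) (d : ℕ) : Prop :=
  (n : Cardinal) ≤ Algebra.trdeg ℚ
    (IntermediateField.adjoin ℚ (range z ∪ range fun j => D.E (z j))) + (d : Cardinal)

/-- Schanuel's inequality holds at all `ℚ`-linearly independent tuples whose span does not contain `S`,
it holds up to defect `1` at all `ℚ`-linearly independent tuples, and the theorem of Lindemann and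
Weierstrass and the algebraic independence of logarithms of algebraic numbers hold. -/
structure OneCritical (D : ExpData K) (S : Set K) : Prop where
  schanuel : ∀ (n : ℕ) (z : Fin n → K), LinearIndependent ℚ z →
    ¬ S ⊆ Submodule.span ℚ (range z) → SchanuelAt D z 0
  defect : ∀ (n : ℕ) (z : Fin n → K), LinearIndependent ℚ z → SchanuelAt D z 1
  lindemann : ∀ (n : ℕ) (a : Fin n → K), LinearIndependent ℚ a → (∀ j, IsAlgebraic ℚ (a j)) →
    AlgebraicIndependent ℚ fun j => D.E (a j)
  logs : ∀ (n : ℕ) (l : Fin n → K), LinearIndependent ℚ l → (∀ j, IsAlgebraic ℚ (D.E (l j))) →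
    AlgebraicIndependent ℚ l

end

/-- the five numbers of the problem: `pi + e`, `pi e`, `pi ^ e`, `e ^ e`, `pi ^ pi`, where
`e = E 1` and `l` is a logarithm of `pi` -/
def num {K : Type} [Field K] (D : ExpData K) (l : K) : Fin 5 → K :=
  ![D.pi + D.E 1, D.pi * D.E 1, D.E (D.E 1 * l), D.E (D.E 1), D.E (D.pi * l)]

/-- the critical sets of the five numbers -/
def crit {K : Type} [Field K] (D : ExpData K) (l : K) : Fin 5 → Set K :=
  ![{1, D.i * D.pi}, {1, D.i * D.pi}, {1, l, D.E 1 * l, D.i * D.pi}, {1, D.E 1},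
    {l, D.pi * l, D.i * D.pi}]

/-- the five real numbers of the problem -/
noncomputable def val : Fin 5 → ℝ :=
  ![Real.pi + Real.exp 1, Real.pi * Real.exp 1, Real.pi ^ Real.exp 1,
    Real.exp 1 ^ Real.exp 1, Real.pi ^ Real.pi]

/-- The exponential field `D` on a subfield `L` of `ℂ` is a model for the index `k` and the rational value
`r` with precision `ε`; `l` is the real logarithm of `pi`. -/
structure Good (ε : ℝ) (k : Fin 5) (r : ℚ) {L : IntermediateField ℚ ℂ} (D : ExpField L)
    (l : L) : Prop where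
  i_eq : (D.i : ℂ) = Complex.I
  cj_eq : ∀ x, (D.cj x : ℂ) = (starRingEnd ℂ) (x : ℂ)
  log_pi : D.E l = D.pi
  log_real : D.cj l = l
  e_near : ‖(D.E 1 : ℂ) - Real.exp 1‖ < ε
  pi_near : ‖(D.pi : ℂ) - Real.pi‖ < ε
  log_near : ‖(l : ℂ) - Real.log Real.pi‖ < ε
  num_near : ∀ j, ‖((num D.toExpData l j : L) : ℂ) - val j‖ < ε
  rational : num D.toExpData l k = r
  others : ∀ j, j ≠ k → Transcendental ℚ (num D.toExpData l j)
  critical : OneCritical D.toExpData (crit D.toExpData l k)

end Pool.Agent.Helper35.EM
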