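import Pool.Agent.Helper35.EM.Rank
import Pool.Agent.Helper35.EM.Statement

/-! Exponential fields with standard kernel, and the models obtained from a base. -/

namespace Pool.Agent.Helper35.EM

open Set Module

variable {K : Type} [Field K] [Algebra ℚ K]

theorem mem_cl_empty {x : ℂ} : x ∈ M.closure ∅ ↔ IsAlgebraic ℚ x := by
  rw [mem_cl, mem_clF, IntermediateField.adjoin_empty]
  exact IntermediateField.isAlgebraic_bot_iff_aux
where
  IntermediateField.isAlgebraic_bot_iff_aux {x : ℂ} :
      IsAlgebraic (⊥ : IntermediateField ℚ ℂ) x ↔ IsAlgebraic ℚ x := by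
    constructor
    · intro h
      have : Algebra.IsAlgebraic ℚ (⊥ : IntermediateField ℚ ℂ) := inferInstance
      exact h.restrictScalars ℚ
    · intro h
      exact h.tower_top (⊥ : IntermediateField ℚ ℂ)

theorem Base.toSt {P Q : Submodule ℚ (ℂ × ℂ)} {s F : Set ℂ} (h : Base P Q s) (hs : s ⊆ F) :
    St P F :=
  ⟨h.fin, fun p hp => cl_mono hs (h.fst_mem p hp), fun p hp => cl_mono hs (h.exp_mem p hp),
    h.inj1, h.inj2⟩

/-- every subspace of the base has defect at most one -/
theorem Base.defect {P Q : Submodule ℚ (ℂ × ℂ)} {s : Set ℂ} (h : Base P Q s) (hQ : Q ≠ ⊥)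
    (U : Submodule ℚ (ℂ × ℂ)) (hU : U ≤ P) : (finrank ℚ U : ℕ∞) ≤ M.eRk (co U) + 1 := by
  have hfinP := h.fin
  have hfinU : FiniteDimensional ℚ U := Submodule.finiteDimensional_of_le hU
  obtain ⟨q, hq, hq0⟩ := Submodule.exists_mem_ne_zero_of_ne_bot hQ
  by_cases hQU : Q ≤ U
  · -- a hyperplane of `U` not containing `q`
    have hqU := hQU hq
    obtain ⟨W, hW⟩ := Submodule.exists_isCompl (Submodule.span ℚ {(⟨q, hqU⟩ : U)})
    have hW1 : finrank ℚ (W.map U.subtype) = finrank ℚ W :=
      (LinearEquiv.finrank_eq (Submodule.equivMapOfInjective _ U.injective_subtype W)).symm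
    have hW2 : finrank ℚ W + 1 = finrank ℚ U := by
      have h1 := Submodule.finrank_add_eq_of_isCompl hW
      have h2 : finrank ℚ (Submodule.span ℚ {(⟨q, hqU⟩ : U)}) = 1 :=
        finrank_span_singleton (by
          intro h0
          exact hq0 (congrArg Subtype.val h0))
      omega
    have hW3 : ¬ Q ≤ W.map U.subtype := by
      intro hQW
      obtain ⟨w, hw, hwq⟩ := Submodule.mem_map.1 (hQW hq)
      have : w = ⟨q, hqU⟩ := Subtype.ext hwq
      have h3 : (⟨q, hqU⟩ : U) ∈ Submodule.span ℚ {(⟨q, hqU⟩ : U)} ⊓ W :=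
        ⟨Submodule.mem_span_singleton_self _, this ▸ hw⟩
      rw [hW.inf_eq_bot] at h3
      exact hq0 (congrArg Subtype.val ((Submodule.mem_bot ℚ).1 h3))
    have hWU : W.map U.subtype ≤ U := Submodule.map_subtype_le U W
    have h4 := h.rk (W.map U.subtype) (hWU.trans hU) hW3
    have h5 : M.eRk (co (W.map U.subtype)) ≤ M.eRk (co U) := M.eRk_mono (co_mono hWU)
    rw [hW1] at h4
    have h6 : (finrank ℚ U : ℕ∞) = (finrank ℚ W : ℕ∞) + 1 := by
      exact_mod_cast hW2.symm
    rw [h6]
    gcongr
    exact h4.trans h5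
  · exact (h.rk U hU hQU).trans le_self_add

/-- span of the pairs `(z j, lam (z j))` -/
theorem co_gr_subset {L : IntermediateField ℚ ℂ} (lam : L →ₗ[ℚ] ℂ) (E : L → L)
    (hE : ∀ x, (E x : ℂ) = Complex.exp (lam x)) {n : ℕ} (z : Fin n → L) :
    co ((Submodule.span ℚ (range z)).map (gr lam)) ⊆
      M.closure ((fun x : L => (x : ℂ)) '' (range z ∪ range fun j => E (z j))) := by
  have key : ∀ x ∈ Submodule.span ℚ (range z),
      (x : ℂ) ∈ M.closure ((fun x : L => (x : ℂ)) '' (range z ∪ range fun j => E (z j))) ∧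
      Complex.exp (lam x) ∈
        M.closure ((fun x : L => (x : ℂ)) '' (range z ∪ range fun j => E (z j))) := by
    intro x hx
    induction hx using Submodule.span_induction with
    | mem x hx =>
      obtain ⟨j, rfl⟩ := hx
      refine ⟨cl_self ⟨z j, Or.inl ⟨j, rfl⟩, rfl⟩, ?_⟩
      rw [← hE]
      exact cl_self ⟨E (z j), Or.inr ⟨j, rfl⟩, rfl⟩
    | zero =>
      constructor
      · simpa using cl_ratCast _ 0
      · rw [map_zero, Complex.exp_zero]
        simpa using cl_ratCast _ 1
    | add x y _ _ hx hy =>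
      refine ⟨?_, ?_⟩
      · have : ((x + y : L) : ℂ) = x + y := rfl
        rw [this]; exact cl_add hx.1 hy.1
      · rw [map_add]; exact cl_exp_add hx.2 hy.2
    | smul q x _ hx =>
      refine ⟨?_, ?_⟩
      · have : ((q • x : L) : ℂ) = q • (x : ℂ) := rfl
        rw [this]; exact cl_smul q hx.1
      · rw [map_smul]; exact cl_exp_smul q hx.2
  rintro a ⟨p, hp, ha⟩
  obtain ⟨x, hx, rfl⟩ := Submodule.mem_map.1 hp
  rcases ha with rfl | rfl
  · exact (key x hx).1
  · exact (key x hx).2

/-- From a base to the exponential field. -/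
theorem model {t : ℕ → ℂ} (ht : Free t) {P Q : Submodule ℚ (ℂ × ℂ)} {s : Set ℂ} {N : ℕ}
    (hs : s ⊆ t '' Iio N) (hB : Base P Q s) (b : ℂ)
    (hb : (2 * Complex.I * b, 2 * Real.pi * Complex.I) ∈ P)
    (hQ1 : ∃ p ∈ Q, p.1 ∉ M.closure ∅) (hQ2 : ∃ p ∈ Q, Complex.exp p.2 ∉ M.closure ∅) :
    ∃ (L : IntermediateField ℚ ℂ) (_ : IsAlgClosed L) (_ : Countable L) (D : ExpData L),
      (D.i : ℂ) = Complex.I ∧ (D.pi : ℂ) = b ∧
      (∀ p ∈ P, ∃ x : L, (x : ℂ) = p.1 ∧ (D.E x : ℂ) = Complex.exp p.2) ∧
      ∀ S : Set L, (∀ x ∈ S, ∃ p ∈ Q, p.1 = (x : ℂ)) → OneCritical D S := by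
  obtain ⟨E, lam, hE, hsurj, hker, hP, hrk⟩ := extension ht (hB.toSt hs) _ hb
  have hcount : Countable (clF (range t)) := by
    have h1 := countable_closure (countable_range t)
    rw [cl_eq] at h1
    exact h1.to_subtype
  have hbK : b ∈ clF (range t) := by
    have h1 : 2 * Complex.I * b ∈ M.closure (range t) :=
      cl_mono (hs.trans (image_subset_range t _)) (hB.fst_mem _ hb)
    have h2 : (2 * Complex.I : ℂ) ∈ M.closure (range t) := by
      have := cl_mul (cl_ratCast (range t) 2) (cl_I (range t))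
      simpa using this
    have h3 : (2 * Complex.I : ℂ) ≠ 0 := by simp
    rw [cl_mul_iff h2 h3] at h1
    exact mem_cl.1 h1
  let D : ExpData (clF (range t)) :=
    { E := E
      i := ⟨Complex.I, mem_cl.1 (cl_I _)⟩
      pi := ⟨b, hbK⟩
      E_add := by
        intro x y
        apply Subtype.ext
        have : ((E x * E y : clF (range t)) : ℂ) = E x * E y := rfl
        rw [this, hE, hE, hE, map_add, Complex.exp_add]
      E_ne_zero := by
        intro x h0
        have h1 : (E x : ℂ) = 0 := congrArg Subtype.val h0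
        rw [hE] at h1
        exact Complex.exp_ne_zero _ h1
      E_surj := hsurj
      i_sq := by
        apply Subtype.ext
        exact Complex.I_sq
      E_ker := by
        intro x
        rw [hker]
        constructor
        · rintro ⟨n, hn⟩
          refine ⟨n, ?_⟩
          apply Subtype.ext
          rw [hn]
          push_cast
          rfl
        · rintro ⟨n, hn⟩
          refine ⟨n, ?_⟩
          rw [hn]
          push_cast
          rfl }
  -- the rank inequalities
  have hmain : ∀ (n : ℕ) (z : Fin n → clF (range t)), LinearIndependent ℚ z →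
      (n : ℕ∞) + M.eRk (co ((Submodule.span ℚ (range z)).map (gr lam) ⊓ P)) ≤
      M.eRk ((fun x : clF (range t) => (x : ℂ)) '' (range z ∪ range fun j => E (z j))) +
      (finrank ℚ ((Submodule.span ℚ (range z)).map (gr lam) ⊓ P : Submodule ℚ (ℂ × ℂ)) : ℕ∞) := by
    intro n z hz
    have h1 := hrk (Submodule.span ℚ (range z)) (FiniteDimensional.span_of_finite ℚ (finite_range z))
    have h2 : finrank ℚ (Submodule.span ℚ (range z)) = n := by
      have := finrank_span_eq_card hz
      simpa using this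
    rw [h2] at h1
    refine h1.trans ?_
    gcongr
    rw [← M.eRk_closure_eq ((fun x : clF (range t) => (x : ℂ)) '' _)]
    exact M.eRk_mono (co_gr_subset lam E hE z)
  have hfinrk : ∀ V : Submodule ℚ (ℂ × ℂ), M.eRk (co (V ⊓ P)) ≠ ⊤ := fun V =>
    (hB.toSt hs).rk_ne_top ((finite_Iio N).image t) inf_le_right
  have hrk1 : ∀ (n : ℕ) (z : Fin n → clF (range t)), LinearIndependent ℚ z →
      ¬ Q ≤ (Submodule.span ℚ (range z)).map (gr lam) →
      (n : ℕ∞) ≤
      M.eRk ((fun x : clF (range t) => (x : ℂ)) '' (range z ∪ range fun j => E (z j))) := by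
    intro n z hz hQ
    have h1 := hmain n z hz
    have h2 : (finrank ℚ ((Submodule.span ℚ (range z)).map (gr lam) ⊓ P :
        Submodule ℚ (ℂ × ℂ)) : ℕ∞) ≤ _ :=
      hB.rk ((Submodule.span ℚ (range z)).map (gr lam) ⊓ P) inf_le_right
        (fun h => hQ (h.trans inf_le_left))
    have h3 := h1.trans (add_le_add_right h2 _)
    exact (ENat.add_le_add_iff_right (hfinrk _)).1 h3
  have hQ0 : Q ≠ ⊥ := by
    rintro rfl
    obtain ⟨p, hp, hp1⟩ := hQ1
    rw [(Submodule.mem_bot ℚ).1 hp] at hp1
    exact hp1 (by simpa using cl_ratCast ∅ 0)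
  have hrk2 : ∀ (n : ℕ) (z : Fin n → clF (range t)), LinearIndependent ℚ z →
      (n : ℕ∞) ≤
      M.eRk ((fun x : clF (range t) => (x : ℂ)) '' (range z ∪ range fun j => E (z j))) + 1 := by
    intro n z hz
    have h1 := hmain n z hz
    have h2 := hB.defect hQ0 ((Submodule.span ℚ (range z)).map (gr lam) ⊓ P) inf_le_right
    have h3 := h1.trans (add_le_add_right h2 _)
    rw [add_comm (M.eRk (co _)) 1, ← add_assoc] at h3
    exact (ENat.add_le_add_iff_right (hfinrk _)).1 h3
  refine ⟨clF (range t), inferInstance, hcount, D, rfl, rfl, ?_, ?_⟩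
  · intro p hp
    obtain ⟨x, hx1, hx2⟩ := hP p hp
    exact ⟨x, hx1, by rw [← hx2]; exact hE x⟩
  · intro S hS
    -- the critical space
    have hcrit : ∀ W : Submodule ℚ (clF (range t)), Q ≤ W.map (gr lam) →
        ∀ p ∈ Q, ∃ x ∈ W, (x : ℂ) = p.1 ∧ lam x = p.2 := by
      intro W hW p hp
      obtain ⟨x, hx, hxp⟩ := Submodule.mem_map.1 (hW hp)
      exact ⟨x, hx, congrArg Prod.fst hxp, congrArg Prod.snd hxp⟩
    -- coordinates of the span in the closure of the empty set
    have hspan1 : ∀ (n : ℕ) (a : Fin n → clF (range t)), (∀ j, IsAlgebraic ℚ (a j)) →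
        ∀ x ∈ Submodule.span ℚ (range a), (x : ℂ) ∈ M.closure ∅ := by
      intro n a ha x hx
      induction hx using Submodule.span_induction with
      | mem x hx =>
        obtain ⟨j, rfl⟩ := hx
        exact mem_cl_empty.2 ((ha j).algHom (clF (range t)).val)
      | zero => simpa using cl_ratCast ∅ 0
      | add x y _ _ hx hy => exact cl_add hx hy
      | smul q x _ hx => exact cl_smul q hx
    have hspan2 : ∀ (n : ℕ) (a : Fin n → clF (range t)), (∀ j, IsAlgebraic ℚ (E (a j))) →
        ∀ x ∈ Submodule.span ℚ (range a), Complex.exp (lam x) ∈ M.closure ∅ := by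
      intro n a ha x hx
      induction hx using Submodule.span_induction with
      | mem x hx =>
        obtain ⟨j, rfl⟩ := hx
        rw [← hE]
        exact mem_cl_empty.2 ((ha j).algHom (clF (range t)).val)
      | zero =>
        rw [map_zero, Complex.exp_zero]
        simpa using cl_ratCast ∅ 1
      | add x y _ _ hx hy => rw [map_add]; exact cl_exp_add hx hy
      | smul q x _ hx => rw [map_smul]; exact cl_exp_smul q hx
    refine ⟨?_, ?_, ?_, ?_⟩
    · intro n z hz hSz
      have h1 := hrk1 n z hz (fun hQW => hSz fun x hx => by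
        obtain ⟨p, hp, hpx⟩ := hS x hx
        obtain ⟨y, hy, hy1, -⟩ := hcrit _ hQW p hp
        have : y = x := Subtype.ext (hy1.trans hpx)
        rwa [this] at hy)
      have h2 := trdeg_of_rk _ h1
      unfold SchanuelAt
      simpa using h2
    · intro n z hz
      cases n with
      | zero => unfold SchanuelAt; simp
      | succ m =>
        have h1 := hrk2 (m + 1) z hz
        have h1' : (m : ℕ∞) ≤ M.eRk
            ((fun x : clF (range t) => (x : ℂ)) '' (range z ∪ range fun j => E (z j))) := by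
          have h3 : ((m + 1 : ℕ) : ℕ∞) = (m : ℕ∞) + 1 := by push_cast; rfl
          rw [h3] at h1
          exact (ENat.add_le_add_iff_right (by simp)).1 h1
        have h2 := trdeg_of_rk _ h1'
        unfold SchanuelAt
        push_cast
        gcongr
    · intro n a ha haa
      have h1 := hrk1 n a ha (fun hQW => by
        obtain ⟨p, hp, hp1⟩ := hQ1
        obtain ⟨y, hy, hy1, -⟩ := hcrit _ hQW p hp
        exact hp1 (hy1 ▸ hspan1 n a haa y hy))
      apply algInd_of_rk'
      refine h1.trans ?_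
      rw [← M.eRk_closure_eq (range _)]
      apply M.eRk_mono
      rintro _ ⟨x, hx | hx, rfl⟩
      · obtain ⟨j, rfl⟩ := hx
        exact cl_mono (empty_subset _) (mem_cl_empty.2 ((haa j).algHom (clF (range t)).val))
      · obtain ⟨j, rfl⟩ := hx
        exact cl_self ⟨j, rfl⟩
    · intro n a ha haa
      have h1 := hrk1 n a ha (fun hQW => by
        obtain ⟨p, hp, hp1⟩ := hQ2
        obtain ⟨y, hy, -, hy2⟩ := hcrit _ hQW p hp
        exact hp1 (hy2 ▸ hspan2 n a haa y hy))
      apply algInd_of_rk'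
      refine h1.trans ?_
      rw [← M.eRk_closure_eq (range _)]
      apply M.eRk_mono
      rintro _ ⟨x, hx | hx, rfl⟩
      · obtain ⟨j, rfl⟩ := hx
        exact cl_self ⟨j, rfl⟩
      · obtain ⟨j, rfl⟩ := hx
        exact cl_mono (empty_subset _) (mem_cl_empty.2 ((haa j).algHom (clF (range t)).val))

end Pool.Agent.Helper35.EM
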