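import Pool.Agent.Helper35.EM.Stm

/-! Bases for `pi + e`, `pi e` and `e ^ e`. -/

namespace Pool.Agent.Helper35.EM

open Complex Module

theorem rat_log {A : ℚ} {LA : ℂ} (hA : exp LA = A) (h0 : A ≠ 0) (h1 : A ≠ 1) (h2 : A ≠ -1)
    {y z : ℚ} (h : y • LA + z • (2 * (Real.pi : ℂ) * I) = 0) : y = 0 ∧ z = 0 := by
  have hy : y = 0 := by
    by_contra hy
    -- multiply by the denominators
    have e1 : ((y.num * z.den : ℤ) : ℂ) * LA + ((z.num * y.den : ℤ) : ℂ) * (2 * Real.pi * I) = 0 := by
      have h3 : (y : ℂ) * LA + (z : ℂ) * (2 * (Real.pi : ℂ) * I) = 0 := by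
        have := h
        rw [Algebra.smul_def, Algebra.smul_def, eq_ratCast, eq_ratCast] at this
        exact this
      have hyd : (y : ℂ) = (y.num : ℂ) / (y.den : ℂ) := by
        exact_mod_cast congrArg (fun q : ℚ => (q : ℂ)) (Rat.num_div_den y).symm
      have hzd : (z : ℂ) = (z.num : ℂ) / (z.den : ℂ) := by
        exact_mod_cast congrArg (fun q : ℚ => (q : ℂ)) (Rat.num_div_den z).symm
      rw [hyd, hzd] at h3
      have hy0 : (y.den : ℂ) ≠ 0 := by exact_mod_cast y.den_nz
      have hz0 : (z.den : ℂ) ≠ 0 := by exact_mod_cast z.den_nz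
      field_simp at h3
      push_cast
      linear_combination h3
    have e2 : exp (((y.num * z.den : ℤ) : ℂ) * LA) = 1 := by
      have : ((y.num * z.den : ℤ) : ℂ) * LA =
          ((-(z.num * y.den) : ℤ) : ℂ) * (2 * Real.pi * I) := by
        push_cast at e1 ⊢
        linear_combination e1
      rw [this]
      exact exp_int_mul_two_pi_mul_I _
    rw [exp_int_mul, hA] at e2
    have e3 : A ^ (y.num * z.den : ℤ) = 1 := by exact_mod_cast e2
    have hm : (y.num * z.den : ℤ) ≠ 0 := by
      apply mul_ne_zero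
      · exact Rat.num_ne_zero.2 hy
      · exact_mod_cast z.den_nz
    have e4 : |A| ^ (y.num * z.den : ℤ) = 1 := by
      rw [← abs_zpow, e3, abs_one]
    have e5 : |A| = 1 := by
      rcases lt_trichotomy |A| 1 with hlt | heq | hgt
      · have hpos : 0 < |A| := abs_pos.2 h0
        rcases lt_or_gt_of_ne hm with hm' | hm'
        · have := one_lt_zpow_of_neg₀ hpos hlt hm'
          linarith
        · have := zpow_lt_one₀ hpos hlt hm'
          linarith
      · exact heq
      · rcases lt_or_gt_of_ne hm with hm' | hm'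
        · have := zpow_lt_one_of_neg₀ hgt hm'
          linarith
        · have := one_lt_zpow₀ hgt hm'
          linarith
    rcases abs_eq (zero_le_one) |>.1 e5 with h5 | h5
    · exact h1 h5
    · exact h2 h5
  subst hy
  refine ⟨rfl, ?_⟩
  rw [zero_smul, zero_add, smul_eq_zero] at h
  rcases h with h | h
  · exact h
  · exfalso
    exact Complex.two_pi_I_ne_zero h

theorem finrank_pair_le (u v : ℂ × ℂ) : finrank ℚ (Submodule.span ℚ {u, v}) ≤ 2 := by
  classical
  have h1 := finrank_span_finset_le_card (R := ℚ) ({u, v} : Finset (ℂ × ℂ))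
  have e : ((({u, v} : Finset (ℂ × ℂ)) : Set (ℂ × ℂ))) = {u, v} := by simp
  rw [Set.finrank, e] at h1
  exact h1.trans Finset.card_le_two

/-- Base for `pi + e` and `pi e`: `a` plays `e`, `b` plays `pi`. -/
theorem b1 {a b La : ℂ} (ha : a ∉ M.closure ∅) (hb : b ∉ M.closure ∅) (hba : b ∈ M.closure {a})
    (hLa : exp La = a) {P : Submodule ℚ (ℂ × ℂ)}
    (hP : P = Submodule.span ℚ {(1, La), (2 * I * b, 2 * Real.pi * I)}) : Base P P {a} := by
  subst hP
  have hmem : ∀ p ∈ Submodule.span ℚ {((1 : ℂ), La), (2 * I * b, 2 * Real.pi * I)},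
      ∃ x y : ℚ, p.1 = x • (1 : ℂ) + y • (2 * I * b) ∧
        p.2 = x • La + y • (2 * Real.pi * I) ∧
        p = x • ((1 : ℂ), La) + y • (2 * I * b, 2 * Real.pi * I) := by
    intro p hp
    obtain ⟨x, y, rfl⟩ := Submodule.mem_span_pair.1 hp
    exact ⟨x, y, rfl, rfl, rfl⟩
  have h2I : ∀ s : Set ℂ, (2 * I : ℂ) ∈ M.closure s := fun s => by
    have := cl_mul (cl_ratCast s 2) (cl_I s)
    simpa using this
  have hone : ∀ s : Set ℂ, (1 : ℂ) ∈ M.closure s := fun s => by simpa using cl_ratCast s 1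
  -- nonzero coefficients give transcendental coordinates
  have hx : ∀ x y : ℚ, x ≠ 0 → exp (x • La + y • (2 * Real.pi * I)) ∉ M.closure ∅ := by
    intro x y hx h
    apply ha
    rw [← hLa]
    exact cl_exp_of_smul_add hx h (cl_exp_smul y (cl_exp_two_pi_I _))
  have hy : ∀ x y : ℚ, y ≠ 0 → x • (1 : ℂ) + y • (2 * I * b) ∉ M.closure ∅ := by
    intro x y hy h
    apply hb
    have h1 := (cl_add_iff (cl_smul x (hone ∅))).1 h
    have h2 := cl_smul y⁻¹ h1
    rw [smul_smul, inv_mul_cancel₀ hy, one_smul] at h2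
    exact (cl_mul_iff (h2I ∅) (by simp)).1 h2
  have hfinP : FiniteDimensional ℚ
      (Submodule.span ℚ {((1 : ℂ), La), (2 * I * b, 2 * Real.pi * I)}) :=
    FiniteDimensional.span_of_finite ℚ (Set.toFinite _)
  refine ⟨hfinP, le_rfl, ?_, ?_, ?_, ?_, ?_⟩
  · intro p hp
    obtain ⟨x, y, h1, -, -⟩ := hmem p hp
    rw [h1]
    exact cl_add (cl_smul x (hone _)) (cl_smul y (cl_mul (h2I _) hba))
  · intro p hp
    obtain ⟨x, y, -, h2, -⟩ := hmem p hp
    rw [h2]
    refine cl_exp_add (cl_exp_smul x ?_) (cl_exp_smul y (cl_exp_two_pi_I _))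
    rw [hLa]; exact cl_self rfl
  · intro p hp h0
    obtain ⟨x, y, h1, -, h3⟩ := hmem p hp
    rw [h1] at h0
    have hy0 : y = 0 := by
      by_contra hne
      apply hy x y hne
      rw [h0]; simpa using cl_ratCast ∅ 0
    subst hy0
    have hx0 : x = 0 := by simpa using h0
    rw [h3, hx0]; simp
  · intro p hp h0
    obtain ⟨x, y, -, h2, h3⟩ := hmem p hp
    rw [h2] at h0
    have hx0 : x = 0 := by
      by_contra hne
      apply hx x y hne
      rw [h0, exp_zero]; exact hone _
    subst hx0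
    have hy0 : y = 0 := by
      rw [zero_smul, zero_add, smul_eq_zero] at h0
      rcases h0 with h | h
      · exact h
      · exact absurd h Complex.two_pi_I_ne_zero
    rw [h3, hy0]; simp
  · intro U hU hUP
    have hd : finrank ℚ (Submodule.span ℚ {((1 : ℂ), La), (2 * I * b, 2 * Real.pi * I)}) ≤ 2 :=
      finrank_pair_le _ _
    have hlt : finrank ℚ U < finrank ℚ (Submodule.span ℚ {((1 : ℂ), La), (2 * I * b, 2 * Real.pi * I)}) :=
      Submodule.finrank_lt_finrank_of_lt (lt_of_le_not_ge hU hUP)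
    by_cases hU0 : U = ⊥
    · subst hU0
      simp
    · obtain ⟨p, hp, hp0⟩ := Submodule.exists_mem_ne_zero_of_ne_bot hU0
      have h1 : (1 : ℕ∞) ≤ M.eRk (co U) := by
        obtain ⟨x, y, h1, h2, h3⟩ := hmem p (hU hp)
        by_cases hx0 : x = 0
        · have hy0 : y ≠ 0 := by
            rintro rfl
            apply hp0
            rw [h3, hx0]; simp
          exact one_le_rk ⟨p, hp, Or.inl rfl⟩ (h1 ▸ hy x y hy0)
        · exact one_le_rk ⟨p, hp, Or.inr rfl⟩ (h2 ▸ hx x y hx0)
      refine le_trans ?_ h1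
      have : finrank ℚ U ≤ 1 := by omega
      exact_mod_cast this

/-- Base for `e ^ e`: `a` plays `e`, `c` plays `pi`. -/
theorem b2 {a c La LA : ℂ} {A : ℚ} (ha : a ∉ M.closure ∅) (hc : c ∉ M.closure {a})
    (hLa : exp La = a) (hLA : exp LA = A) (h0 : A ≠ 0) (h1 : A ≠ 1) (h2 : A ≠ -1)
    {P Q : Submodule ℚ (ℂ × ℂ)}
    (hP : P = Submodule.span ℚ {(1, La), (a, LA), (2 * I * c, 2 * Real.pi * I)})
    (hQ : Q = Submodule.span ℚ {(1, La), (a, LA)}) : Base P Q {a, c} := by
  subst hP hQ
  have hmem : ∀ p ∈ Submodule.span ℚ {((1 : ℂ), La), (a, LA), (2 * I * c, 2 * Real.pi * I)},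
      ∃ x y z : ℚ, p.1 = x • (1 : ℂ) + y • a + z • (2 * I * c) ∧
        p.2 = x • La + y • LA + z • (2 * Real.pi * I) ∧
        p = x • ((1 : ℂ), La) + y • (a, LA) + z • (2 * I * c, 2 * Real.pi * I) := by
    intro p hp
    obtain ⟨x, y, z, rfl⟩ := Submodule.mem_span_triple.1 hp
    exact ⟨x, y, z, rfl, rfl, rfl⟩
  have h2I : ∀ s : Set ℂ, (2 * I : ℂ) ∈ M.closure s := fun s => by
    have := cl_mul (cl_ratCast s 2) (cl_I s)
    simpa using this
  have hone : ∀ s : Set ℂ, (1 : ℂ) ∈ M.closure s := fun s => by simpa using cl_ratCast s 1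
  have hzero : ∀ s : Set ℂ, (0 : ℂ) ∈ M.closure s := fun s => by simpa using cl_ratCast s 0
  have hAcl : ∀ s : Set ℂ, exp LA ∈ M.closure s := fun s => by
    rw [hLA]; exact cl_ratCast s A
  have hx : ∀ x y z : ℚ, x ≠ 0 →
      exp (x • La + y • LA + z • (2 * Real.pi * I)) ∉ M.closure ∅ := by
    intro x y z hx h
    apply ha
    rw [← hLa]
    rw [add_assoc] at h
    exact cl_exp_of_smul_add hx h
      (cl_exp_add (cl_exp_smul y (hAcl _)) (cl_exp_smul z (cl_exp_two_pi_I _)))
  have hz : ∀ x y z : ℚ, z ≠ 0 → x • (1 : ℂ) + y • a + z • (2 * I * c) ∉ M.closure {a} := by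
    intro x y z hz h
    apply hc
    have h1 := (cl_add_iff (cl_add (cl_smul x (hone {a})) (cl_smul y (cl_self rfl)))).1 h
    have h2 := cl_smul z⁻¹ h1
    rw [smul_smul, inv_mul_cancel₀ hz, one_smul] at h2
    exact (cl_mul_iff (h2I _) (by simp)).1 h2
  have hy : ∀ x y : ℚ, y ≠ 0 → x • (1 : ℂ) + y • a ∉ M.closure ∅ := by
    intro x y hy h
    apply ha
    have h1 := (cl_add_iff (cl_smul x (hone ∅))).1 h
    have h2 := cl_smul y⁻¹ h1
    rwa [smul_smul, inv_mul_cancel₀ hy, one_smul] at h2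
  have hfinP : FiniteDimensional ℚ
      (Submodule.span ℚ {((1 : ℂ), La), (a, LA), (2 * I * c, 2 * Real.pi * I)}) :=
    FiniteDimensional.span_of_finite ℚ (Set.toFinite _)
  refine ⟨hfinP, ?_, ?_, ?_, ?_, ?_, ?_⟩
  · apply Submodule.span_mono
    intro p hp
    rcases hp with rfl | rfl
    · simp
    · simp
  · intro p hp
    obtain ⟨x, y, z, h1, -, -⟩ := hmem p hp
    rw [h1]
    exact cl_add (cl_add (cl_smul x (hone _)) (cl_smul y (cl_self (by simp))))
      (cl_smul z (cl_mul (h2I _) (cl_self (by simp))))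
  · intro p hp
    obtain ⟨x, y, z, -, h2, -⟩ := hmem p hp
    rw [h2]
    refine cl_exp_add (cl_exp_add (cl_exp_smul x ?_) (cl_exp_smul y (hAcl _)))
      (cl_exp_smul z (cl_exp_two_pi_I _))
    rw [hLa]; exact cl_self (by simp)
  · intro p hp h0
    obtain ⟨x, y, z, h1, -, h3⟩ := hmem p hp
    rw [h1] at h0
    have hz0 : z = 0 := by
      by_contra hne
      apply hz x y z hne
      rw [h0]; exact hzero _
    subst hz0
    rw [zero_smul, add_zero] at h0
    have hy0 : y = 0 := by
      by_contra hne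
      apply hy x y hne
      rw [h0]; exact hzero _
    subst hy0
    have hx0 : x = 0 := by simpa using h0
    rw [h3, hx0]; simp
  · intro p hp h0'
    obtain ⟨x, y, z, -, h2', h3⟩ := hmem p hp
    rw [h2'] at h0'
    have hx0 : x = 0 := by
      by_contra hne
      apply hx x y z hne
      rw [h0', exp_zero]; exact hone _
    subst hx0
    rw [zero_smul, zero_add] at h0'
    obtain ⟨hy0, hz0⟩ := rat_log hLA h0 h1 h2 h0'
    rw [h3, hy0, hz0]; simp
  · intro U hU hUQ
    set Q := Submodule.span ℚ {((1 : ℂ), La), (a, LA)} with hQdef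
    have hfinQ : FiniteDimensional ℚ Q := FiniteDimensional.span_of_finite ℚ (Set.toFinite _)
    have hfinU : FiniteDimensional ℚ U := Submodule.finiteDimensional_of_le hU
    have hdQ : finrank ℚ Q ≤ 2 := finrank_pair_le _ _
    have hW : finrank ℚ (U ⊓ Q : Submodule ℚ (ℂ × ℂ)) < finrank ℚ Q :=
      Submodule.finrank_lt_finrank_of_lt (lt_of_le_not_ge inf_le_right
        (fun h => hUQ (h.trans inf_le_left)))
    -- nonzero elements of `Q`
    have hQel : ∀ w ∈ U ⊓ Q, w ≠ 0 → ∃ d ∈ co U, d ∉ M.closure ∅ ∧ d ∈ M.closure {a} := by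
      intro w hw hw0
      obtain ⟨x, y, hxy⟩ := Submodule.mem_span_pair.1 hw.2
      by_cases hx0 : x = 0
      · have hy0 : y ≠ 0 := by
          rintro rfl
          apply hw0
          rw [← hxy, hx0]; simp
        refine ⟨w.1, ⟨w, hw.1, Or.inl rfl⟩, ?_, ?_⟩
        · have h3 := hy x y hy0
          rw [← hxy]; exact h3
        · rw [← hxy]
          exact cl_add (cl_smul x (hone _)) (cl_smul y (cl_self rfl))
      · refine ⟨exp w.2, ⟨w, hw.1, Or.inr rfl⟩, ?_, ?_⟩
        · have h3 := hx x y 0 hx0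
          rw [zero_smul, add_zero] at h3
          rw [← hxy]; exact h3
        · rw [← hxy]
          refine cl_exp_add (cl_exp_smul x ?_) (cl_exp_smul y (hAcl _))
          rw [hLa]; exact cl_self rfl
    have hWel : finrank ℚ (U ⊓ Q : Submodule ℚ (ℂ × ℂ)) ≠ 0 →
        ∃ d ∈ co U, d ∉ M.closure ∅ ∧ d ∈ M.closure {a} := by
      intro h
      have hne : U ⊓ Q ≠ ⊥ := by
        intro hb
        rw [hb] at h
        simp at h
      obtain ⟨w, hw, hw0⟩ := Submodule.exists_mem_ne_zero_of_ne_bot hne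
      exact hQel w hw hw0
    by_cases hUQ' : U ≤ Q
    · rw [inf_eq_left.2 hUQ'] at hW hWel
      by_cases h0 : finrank ℚ U = 0
      · rw [h0]; simp
      · obtain ⟨d, hd, hd1, -⟩ := hWel h0
        refine le_trans ?_ (one_le_rk hd hd1)
        have : finrank ℚ U ≤ 1 := by omega
        exact_mod_cast this
    · obtain ⟨v, hv, hvQ⟩ := SetLike.not_le_iff_exists.1 hUQ'
      have hv1 : v.1 ∉ M.closure {a} := by
        obtain ⟨x, y, z, h1, -, h3⟩ := hmem v (hU hv)
        rw [h1]
        apply hz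
        rintro rfl
        apply hvQ
        rw [h3, zero_smul, add_zero]
        exact Submodule.mem_span_pair.2 ⟨x, y, rfl⟩
      have hdU : finrank ℚ U ≤ finrank ℚ (U ⊓ Q : Submodule ℚ (ℂ × ℂ)) + 1 := by
        have e1 := Submodule.finrank_sup_add_finrank_inf_eq U Q
        have hsub : U ⊔ Q ≤ Q ⊔ Submodule.span ℚ {(2 * I * c, 2 * (Real.pi : ℂ) * I)} := by
          apply sup_le _ le_sup_left
          refine hU.trans ?_
          rw [hQdef, ← Submodule.span_union]
          apply Submodule.span_mono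
          intro p hp
          rcases hp with rfl | rfl | rfl
          · simp
          · simp
          · simp
        have e2 := Submodule.finrank_mono hsub
        have e3 := Submodule.finrank_add_le_finrank_add_finrank Q
          (Submodule.span ℚ {(2 * I * c, 2 * (Real.pi : ℂ) * I)})
        have e4 : finrank ℚ (Submodule.span ℚ {(2 * I * c, 2 * (Real.pi : ℂ) * I)}) ≤ 1 := by
          have := finrank_span_le_card (R := ℚ) ({(2 * I * c, 2 * (Real.pi : ℂ) * I)} : Set (ℂ × ℂ))
          simpa using this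
        omega
      by_cases h0 : finrank ℚ (U ⊓ Q : Submodule ℚ (ℂ × ℂ)) = 0
      · refine le_trans ?_ (one_le_rk ⟨v, hv, Or.inl rfl⟩
          (fun h => hv1 (cl_mono (Set.empty_subset _) h)))
        have : finrank ℚ U ≤ 1 := by omega
        exact_mod_cast this
      · obtain ⟨d, hd, hd1, hd2⟩ := hWel h0
        refine le_trans ?_ (two_le_rk hd ⟨v, hv, Or.inl rfl⟩ hd1 (fun h => hv1 ?_))
        · have : finrank ℚ U ≤ 2 := by omega
          exact_mod_cast this
        · refine cl_le ?_ h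
          rintro x rfl
          exact hd2

end Pool.Agent.Helper35.EM
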