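import Pool.Agent.Helper35.EM.Model

/-! Schanuel's inequality at the critical tuple decides the number, in every exponential field. -/

namespace Pool.Agent.Helper35.EM

open Set Module

section

variable {K : Type} [Field K] [Algebra ℚ K]

/-- algebraic over `ℚ(B)` -/
def Alg (B : Set K) (x : K) : Prop := x ∈ (AlgebraicIndependent.matroid ℚ K).closure B

theorem alg_iff {B : Set K} {x : K} : Alg B x ↔ IsAlgebraic (IntermediateField.adjoin ℚ B) x := by
  rw [Alg, AlgebraicIndependent.matroid_closure_eq, IntermediateField.isAlgebraic_adjoin_iff]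
  exact Subalgebra.mem_algebraicClosure ..

theorem Alg.self {B : Set K} {x : K} (h : x ∈ B) : Alg B x := by
  rw [alg_iff]
  exact isAlgebraic_algebraMap (⟨x, IntermediateField.subset_adjoin ℚ B h⟩ :
    IntermediateField.adjoin ℚ B)

theorem Alg.of {B : Set K} {x : K} (h : IsAlgebraic ℚ x) : Alg B x := by
  rw [alg_iff]; exact h.tower_top _

theorem Alg.add {B : Set K} {x y : K} (hx : Alg B x) (hy : Alg B y) : Alg B (x + y) := by
  rw [alg_iff] at *; exact IsAlgebraic.add hx hy

theorem Alg.sub {B : Set K} {x y : K} (hx : Alg B x) (hy : Alg B y) : Alg B (x - y) := by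
  rw [alg_iff] at *; exact IsAlgebraic.sub hx hy

theorem Alg.mul {B : Set K} {x y : K} (hx : Alg B x) (hy : Alg B y) : Alg B (x * y) := by
  rw [alg_iff] at *; exact IsAlgebraic.mul hx hy

theorem Alg.inv {B : Set K} {x : K} (hx : Alg B x) : Alg B x⁻¹ := by
  rw [alg_iff] at *; exact IsAlgebraic.inv hx

theorem Alg.one {B : Set K} : Alg B 1 := Alg.of isAlgebraic_one

theorem Alg.of_pow {B : Set K} {x : K} {n : ℕ} (hn : 0 < n) (hx : Alg B (x ^ n)) : Alg B x := by
  rw [alg_iff] at *; exact IsAlgebraic.of_pow hn hx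

/-- few generators, for a field over `K` -/
theorem trdeg_le_aux {A B : Set K} {n : ℕ} (hB : B.encard ≤ n) (h : ∀ x ∈ A, Alg B x)
    (L : Type) [Field L] [Algebra ℚ L] (φ : L →ₐ[ℚ] K)
    (hL : ∀ x, φ x ∈ IntermediateField.adjoin ℚ A) : Algebra.trdeg ℚ L ≤ n := by
  obtain ⟨s, hs⟩ := exists_isTranscendenceBasis ℚ L
  rw [← hs.cardinalMk_eq_trdeg]
  -- the image in `K`
  have hφ : Function.Injective φ := φ.injective
  have h1 : AlgebraicIndependent ℚ (fun x : s => φ x) :=
    (φ.algebraicIndependent_iff hφ).2 hs.1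
  have hinj : Function.Injective (fun x : s => φ x) := h1.injective
  have h2 : (AlgebraicIndependent.matroid ℚ K).Indep (range fun x : s => φ x) :=
    (algebraicIndependent_subtype_range hinj).2 h1
  have h3 : (range fun x : s => φ x) ⊆ (AlgebraicIndependent.matroid ℚ K).closure B := by
    rintro _ ⟨x, rfl⟩
    have h4 : φ x ∈ IntermediateField.adjoin ℚ A := hL x
    have h5 : IntermediateField.adjoin ℚ A ≤
        (algebraicClosure (IntermediateField.adjoin ℚ B) K).restrictScalars ℚ := by
      rw [IntermediateField.adjoin_le_iff]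
      intro y hy
      have := alg_iff.1 (h y hy)
      exact mem_algebraicClosure_iff.2 this
    exact alg_iff.2 (mem_algebraicClosure_iff.1 (h5 h4))
  have h6 : (range fun x : s => φ x).encard ≤ n := by
    refine (h2.encard_le_eRk_of_subset h3).trans ?_
    rw [Matroid.eRk_closure_eq]
    exact (Matroid.eRk_le_encard _ _).trans hB
  replace h6 : ENat.card s ≤ n := (Function.Injective.encard_range hinj).trans h6
  have h7 : Finite s := by
    rw [← ENat.card_lt_top]
    exact lt_of_le_of_lt h6 (ENat.natCast_lt_top n)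
  have h9 : Cardinal.mk s = (Nat.card s : Cardinal) := (@Nat.cast_card _ h7).symm
  have h8 : ENat.card s = Nat.card s := by
    rw [← Nat.cast_card_eq_aux h7]
  rw [h8] at h6
  rw [h9]
  exact_mod_cast h6
where
  Nat.cast_card_eq_aux {s : Type} (h : Finite s) : (Nat.card s : ℕ∞) = ENat.card s := by
    have := Fintype.ofFinite s
    rw [ENat.card_eq_coe_fintype_card, Nat.card_eq_fintype_card]

/-- few generators -/
theorem trdeg_le {A B : Set K} {n : ℕ} (hB : B.encard ≤ n) (h : ∀ x ∈ A, Alg B x) :
    Algebra.trdeg ℚ (IntermediateField.adjoin ℚ A) ≤ n :=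
  trdeg_le_aux hB h (IntermediateField.adjoin ℚ A)
    ((algebraMap (IntermediateField.adjoin ℚ A) K).toRatAlgHom) (fun x => x.2)

theorem ExpData.E_i_pi (D : ExpData K) (B : Set K) : Alg B (D.E (D.i * D.pi)) := by
  apply Alg.of_pow (n := 2) two_pos
  have : D.E (D.i * D.pi) ^ 2 = 1 := by
    rw [pow_two, ← D.E_add, D.E_ker]
    exact ⟨1, by push_cast; ring⟩
  rw [this]
  exact Alg.one

theorem ExpData.alg_i (D : ExpData K) (B : Set K) : Alg B D.i := by
  apply Alg.of_pow (n := 2) two_pos
  rw [D.i_sq]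
  exact Alg.of (isAlgebraic_one.neg)

theorem no_schanuel {D : ExpData K} {n : ℕ} {z : Fin (n + 1) → K} {B : Set K}
    (hB : B.encard ≤ n) (h : ∀ j, Alg B (z j)) (h' : ∀ j, Alg B (D.E (z j))) :
    ¬ SchanuelAt D z 0 := by
  intro hS
  unfold SchanuelAt at hS
  have h1 := trdeg_le (A := range z ∪ range fun j => D.E (z j)) hB (by
    rintro x (⟨j, rfl⟩ | ⟨j, rfl⟩)
    · exact h j
    · exact h' j)
  rw [Nat.cast_zero, add_zero] at hS
  have h2 := hS.trans h1
  have h3 : n + 1 ≤ n := by exact_mod_cast h2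
  omega

theorem crit_add (D : ExpData K) (h : SchanuelAt D ![1, D.i * D.pi] 0) :
    Transcendental ℚ (D.pi + D.E 1) := by
  intro hX
  have hpi : Alg {D.E 1} D.pi := by
    have := (Alg.of (B := {D.E 1}) hX).sub (Alg.self rfl)
    simpa using this
  refine no_schanuel (B := {D.E 1}) (by simp) ?_ ?_ h
  · intro j
    fin_cases j
    · exact Alg.one
    · exact (D.alg_i _).mul hpi
  · intro j
    fin_cases j
    · exact Alg.self rfl
    · exact D.E_i_pi _

theorem crit_mul (D : ExpData K) (h : SchanuelAt D ![1, D.i * D.pi] 0) :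
    Transcendental ℚ (D.pi * D.E 1) := by
  intro hX
  have hpi : Alg {D.E 1} D.pi := by
    have := (Alg.of (B := {D.E 1}) hX).mul (Alg.self (B := {D.E 1}) rfl).inv
    rwa [mul_assoc, mul_inv_cancel₀ (D.E_ne_zero 1), mul_one] at this
  refine no_schanuel (B := {D.E 1}) (by simp) ?_ ?_ h
  · intro j
    fin_cases j
    · exact Alg.one
    · exact (D.alg_i _).mul hpi
  · intro j
    fin_cases j
    · exact Alg.self rfl
    · exact D.E_i_pi _

theorem crit_ee (D : ExpData K) (h : SchanuelAt D ![1, D.E 1] 0) :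
    Transcendental ℚ (D.E (D.E 1)) := by
  intro hX
  refine no_schanuel (B := {D.E 1}) (by simp) ?_ ?_ h
  · intro j
    fin_cases j
    · exact Alg.one
    · exact Alg.self rfl
  · intro j
    fin_cases j
    · exact Alg.self rfl
    · exact Alg.of hX

theorem crit_pipi (D : ExpData K) (l : K) (hl : D.E l = D.pi)
    (h : SchanuelAt D ![l, D.pi * l, D.i * D.pi] 0) :
    Transcendental ℚ (D.E (D.pi * l)) := by
  intro hX
  have h1 : Alg {D.pi, l} D.pi := Alg.self (by simp)
  have h2 : Alg {D.pi, l} l := Alg.self (by simp)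
  refine no_schanuel (n := 2) (B := {D.pi, l}) (by
    have := Set.encard_insert_le {l} D.pi
    rw [Set.encard_singleton] at this
    exact this.trans (by norm_num)) ?_ ?_ h
  · intro j
    fin_cases j
    · exact h2
    · exact h1.mul h2
    · exact (D.alg_i _).mul h1
  · intro j
    fin_cases j
    · change Alg _ (D.E l)
      rw [hl]; exact h1
    · exact Alg.of hX
    · exact D.E_i_pi _

theorem crit_pie (D : ExpData K) (l : K) (hl : D.E l = D.pi)
    (h : SchanuelAt D ![1, l, D.E 1 * l, D.i * D.pi] 0) :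
    Transcendental ℚ (D.E (D.E 1 * l)) := by
  intro hX
  have h1 : Alg {D.E 1, D.pi, l} D.pi := Alg.self (by simp)
  have h2 : Alg {D.E 1, D.pi, l} l := Alg.self (by simp)
  have h3 : Alg {D.E 1, D.pi, l} (D.E 1) := Alg.self (by simp)
  refine no_schanuel (n := 3) (B := {D.E 1, D.pi, l}) (by
    have a := Set.encard_insert_le {D.pi, l} (D.E 1)
    have b := Set.encard_insert_le {l} D.pi
    rw [Set.encard_singleton] at b
    refine a.trans ?_
    calc ({D.pi, l} : Set K).encard + 1 ≤ (1 + 1) + 1 := by gcongr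
      _ ≤ _ := by norm_num) ?_ ?_ h
  · intro j
    fin_cases j
    · exact Alg.one
    · exact h2
    · exact h3.mul h2
    · exact (D.alg_i _).mul h1
  · intro j
    fin_cases j
    · exact h3
    · change Alg _ (D.E l)
      rw [hl]; exact h1
    · exact Alg.of hX
    · exact D.E_i_pi _

end

end Pool.Agent.Helper35.EM
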