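import Pool.Agent.Helper35.EM.Model
import Pool.Agent.Helper35.EM.Crit
import Pool.Agent.Helper35.EM.B12

/-! The five models. -/

namespace Pool.Agent.Helper35.EM

open Complex

theorem cl_two_I (s : Set ℂ) : (2 * I : ℂ) ∈ M.closure s := by
  have := cl_mul (cl_ratCast s 2) (cl_I s)
  simpa using this

theorem ne_zero_of_tr {s : Set ℂ} {a : ℂ} (h : a ∉ M.closure s) : a ≠ 0 := by
  rintro rfl
  exact h (by simpa using cl_ratCast s 0)

theorem tr_two_I_mul {s : Set ℂ} {a : ℂ} (h : a ∉ M.closure s) : 2 * I * a ∉ M.closure s :=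
  fun h' => h ((cl_mul_iff (cl_two_I s) (by simp)).1 h')

theorem half_mem {Q : Submodule ℚ (ℂ × ℂ)} {b w : ℂ} (h : (2 * I * b, w) ∈ Q) :
    ∃ p ∈ Q, p.1 = I * b := by
  refine ⟨(1 / 2 : ℚ) • (2 * I * b, w), Q.smul_mem _ h, ?_⟩
  change (1 / 2 : ℚ) • (2 * I * b) = I * b
  rw [Algebra.smul_def]
  simp only [eq_ratCast]
  push_cast
  ring

theorem free_zero {t : ℕ → ℂ} (ht : Free t) : t 0 ∉ M.closure ∅ := by
  have := ht 0
  rwa [show t '' Set.Iio 0 = ∅ by simp] at this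

theorem free_one {t : ℕ → ℂ} (ht : Free t) : t 1 ∉ M.closure {t 0} := by
  have := ht 1
  rwa [show t '' Set.Iio 1 = {t 0} by
    rw [show (Set.Iio 1 : Set ℕ) = {0} by ext k; simp]
    simp] at this

theorem free_two {t : ℕ → ℂ} (ht : Free t) : t 2 ∉ M.closure {t 0, t 1} := by
  have := ht 2
  rwa [show t '' Set.Iio 2 = {t 0, t 1} by
    rw [show (Set.Iio 2 : Set ℕ) = {0, 1} by
      ext k
      simp only [Set.mem_Iio, Set.mem_insert_iff, Set.mem_singleton_iff]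
      omega]
    rw [Set.image_pair]] at this

/-- The models of `pi + e` and `pi e`. -/
theorem case_one {a b : ℂ} {t : ℕ → ℂ} (ht : Free t) (hta : a = t 0) (hb : b ∉ M.closure ∅)
    (hba : b ∈ M.closure {a}) :
    ∃ (L : IntermediateField ℚ ℂ) (_ : IsAlgClosed L) (_ : Countable L) (D : ExpData L),
      (D.pi : ℂ) = b ∧ (D.E 1 : ℂ) = a ∧ OneCritical D {1, D.i * D.pi} := by
  have ha : a ∉ M.closure ∅ := hta ▸ free_zero ht
  have hLa : exp (log a) = a := exp_log (ne_zero_of_tr ha)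
  have hB := b1 ha hb hba hLa rfl
  have m1 : ((1 : ℂ), log a) ∈
      Submodule.span ℚ {((1 : ℂ), log a), (2 * I * b, 2 * Real.pi * I)} :=
    Submodule.subset_span (by simp)
  have m2 : ((2 * I * b : ℂ), 2 * (Real.pi : ℂ) * I) ∈
      Submodule.span ℚ {((1 : ℂ), log a), (2 * I * b, 2 * Real.pi * I)} :=
    Submodule.subset_span (by simp)
  obtain ⟨L, h1, h2, D, hi, hpi, hE, hS⟩ := model ht (s := {a}) (N := 1)
    (by rintro x rfl; exact ⟨0, by simp, hta.symm⟩) hB b m2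
    ⟨_, m2, tr_two_I_mul hb⟩ ⟨_, m1, by rw [hLa]; exact ha⟩
  have hE1 : (D.E 1 : ℂ) = a := by
    obtain ⟨x, hx1, hx2⟩ := hE _ m1
    have : x = 1 := Subtype.ext hx1
    rw [← this, hx2]; exact hLa
  refine ⟨L, h1, h2, D, hpi, hE1, hS _ ?_⟩
  rintro x (rfl | rfl)
  · exact ⟨_, m1, rfl⟩
  · obtain ⟨p, hp, hp1⟩ := half_mem m2
    refine ⟨p, hp, ?_⟩
    rw [hp1, ← hi, ← hpi]; rfl

/-- The model of `e ^ e`. -/
theorem case_two {t : ℕ → ℂ} (ht : Free t) {A : ℚ} (h0 : A ≠ 0) (h1 : A ≠ 1) (h2 : A ≠ -1) :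
    ∃ (L : IntermediateField ℚ ℂ) (_ : IsAlgClosed L) (_ : Countable L) (D : ExpData L),
      (D.E (D.E 1) : ℂ) = A ∧ OneCritical D {1, D.E 1} := by
  have ha := free_zero ht
  have hc := free_one ht
  have hLa : exp (log (t 0)) = t 0 := exp_log (ne_zero_of_tr ha)
  have hLA : exp (log (A : ℂ)) = A := exp_log (by exact_mod_cast h0)
  have hB := b2 ha hc hLa hLA h0 h1 h2 rfl rfl
  have m1 : ((1 : ℂ), log (t 0)) ∈ Submodule.span ℚ {((1 : ℂ), log (t 0)), (t 0, log (A : ℂ))} :=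
    Submodule.subset_span (by simp)
  have m2 : (t 0, log (A : ℂ)) ∈ Submodule.span ℚ {((1 : ℂ), log (t 0)), (t 0, log (A : ℂ))} :=
    Submodule.subset_span (by simp)
  have m3 : ((2 * I * t 1 : ℂ), 2 * (Real.pi : ℂ) * I) ∈
      Submodule.span ℚ {((1 : ℂ), log (t 0)), (t 0, log (A : ℂ)),
        (2 * I * t 1, 2 * Real.pi * I)} :=
    Submodule.subset_span (by simp)
  obtain ⟨L, g1, g2, D, hi, hpi, hE, hS⟩ := model ht (s := {t 0, t 1}) (N := 2)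
    (by
      rintro x (rfl | rfl)
      · exact ⟨0, by simp, rfl⟩
      · exact ⟨1, by simp, rfl⟩) hB (t 1) m3
    ⟨_, m2, ha⟩ ⟨_, m1, by rw [hLa]; exact ha⟩
  have hE1 : (D.E 1 : ℂ) = t 0 := by
    obtain ⟨x, hx1, hx2⟩ := hE _ (hB.le m1)
    have : x = 1 := Subtype.ext hx1
    rw [← this, hx2]; exact hLa
  have hE2 : (D.E (D.E 1) : ℂ) = A := by
    obtain ⟨x, hx1, hx2⟩ := hE _ (hB.le m2)
    have : x = D.E 1 := Subtype.ext (hx1.trans hE1.symm)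
    rw [← this, hx2]; exact hLA
  refine ⟨L, g1, g2, D, hE2, hS _ ?_⟩
  rintro x (rfl | rfl)
  · exact ⟨_, m1, rfl⟩
  · exact ⟨_, m2, hE1.symm⟩

/-- The model of `pi ^ pi`. -/
theorem case_three (B3 : S_B3) {t : ℕ → ℂ} (ht : Free t) {C : ℚ} (h0 : C ≠ 0) (h1 : C ≠ 1)
    (h2 : C ≠ -1) :
    ∃ (L : IntermediateField ℚ ℂ) (_ : IsAlgClosed L) (_ : Countable L) (D : ExpData L) (l : L),
      D.E l = D.pi ∧ (D.E (D.pi * l) : ℂ) = C ∧ OneCritical D {l, D.pi * l, D.i * D.pi} := by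
  have ha := free_zero ht
  have hc := free_one ht
  have hLa : exp (log (t 0)) = t 0 := exp_log (ne_zero_of_tr ha)
  have hLC : exp (log (C : ℂ)) = C := exp_log (by exact_mod_cast h0)
  have hB := B3 (t 0) (t 1) _ _ C ha hc hLa hLC h0 h1 h2 _ rfl
  set P := Submodule.span ℚ {(t 1, log (t 0)), (t 0 * t 1, log (C : ℂ)),
    (2 * I * t 0, 2 * (Real.pi : ℂ) * I)} with hP
  have m1 : (t 1, log (t 0)) ∈ P := Submodule.subset_span (by simp)
  have m2 : (t 0 * t 1, log (C : ℂ)) ∈ P := Submodule.subset_span (by simp)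
  have m3 : ((2 * I * t 0 : ℂ), 2 * (Real.pi : ℂ) * I) ∈ P := Submodule.subset_span (by simp)
  obtain ⟨L, g1, g2, D, hi, hpi, hE, hS⟩ := model ht (s := {t 0, t 1}) (N := 2)
    (by
      rintro x (rfl | rfl)
      · exact ⟨0, by simp, rfl⟩
      · exact ⟨1, by simp, rfl⟩) hB (t 0) m3
    ⟨_, m3, tr_two_I_mul ha⟩ ⟨_, m1, by rw [hLa]; exact ha⟩
  obtain ⟨l, hl1, hl2⟩ := hE _ m1
  have hEl : D.E l = D.pi := by
    apply Subtype.ext
    rw [hl2, hpi]; exact hLa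
  have hE2 : (D.E (D.pi * l) : ℂ) = C := by
    obtain ⟨x, hx1, hx2⟩ := hE _ m2
    have : x = D.pi * l := by
      apply Subtype.ext
      rw [hx1]
      change _ = (D.pi : ℂ) * (l : ℂ)
      rw [hpi, hl1]
    rw [← this, hx2]; exact hLC
  refine ⟨L, g1, g2, D, l, hEl, hE2, hS _ ?_⟩
  rintro x (rfl | rfl | rfl)
  · exact ⟨_, m1, hl1.symm⟩
  · refine ⟨_, m2, ?_⟩
    change _ = (D.pi : ℂ) * (l : ℂ)
    rw [hpi, hl1]
  · obtain ⟨p, hp, hp1⟩ := half_mem m3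
    refine ⟨p, hp, ?_⟩
    rw [hp1, ← hi, ← hpi]; rfl

/-- The model of `pi ^ e`. -/
theorem case_four (B4 : S_B4) {t : ℕ → ℂ} (ht : Free t) {B : ℚ} (h0 : B ≠ 0) (h1 : B ≠ 1)
    (h2 : B ≠ -1) :
    ∃ (L : IntermediateField ℚ ℂ) (_ : IsAlgClosed L) (_ : Countable L) (D : ExpData L) (l : L),
      D.E l = D.pi ∧ (D.E (D.E 1 * l) : ℂ) = B ∧
      OneCritical D {1, l, D.E 1 * l, D.i * D.pi} := by
  have ha := free_zero ht
  have hc := free_one ht
  have hd := free_two ht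
  have hLa : exp (log (t 0)) = t 0 := exp_log (ne_zero_of_tr ha)
  have hLb : exp (log (t 1)) = t 1 := exp_log (ne_zero_of_tr hc)
  have hLB : exp (log (B : ℂ)) = B := exp_log (by exact_mod_cast h0)
  have hB := B4 (t 0) (t 1) (t 2) _ _ _ B ha hc hd hLa hLb hLB h0 h1 h2 _ rfl
  set P := Submodule.span ℚ {(1, log (t 0)), (t 2, log (t 1)), (t 0 * t 2, log (B : ℂ)),
    (2 * I * t 1, 2 * (Real.pi : ℂ) * I)} with hP
  have m1 : (1, log (t 0)) ∈ P := Submodule.subset_span (by simp)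
  have m2 : (t 2, log (t 1)) ∈ P := Submodule.subset_span (by simp)
  have m3 : (t 0 * t 2, log (B : ℂ)) ∈ P := Submodule.subset_span (by simp)
  have m4 : ((2 * I * t 1 : ℂ), 2 * (Real.pi : ℂ) * I) ∈ P := Submodule.subset_span (by simp)
  have hc0 : t 1 ∉ M.closure ∅ := fun h => hc (cl_mono (Set.empty_subset _) h)
  obtain ⟨L, g1, g2, D, hi, hpi, hE, hS⟩ := model ht (s := {t 0, t 1, t 2}) (N := 3)
    (by
      rintro x (rfl | rfl | rfl)
      · exact ⟨0, by simp, rfl⟩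
      · exact ⟨1, by simp, rfl⟩
      · exact ⟨2, by simp, rfl⟩) hB (t 1) m4
    ⟨_, m4, tr_two_I_mul hc0⟩ ⟨_, m1, by rw [hLa]; exact ha⟩
  have hE1 : (D.E 1 : ℂ) = t 0 := by
    obtain ⟨x, hx1, hx2⟩ := hE _ m1
    have : x = 1 := Subtype.ext hx1
    rw [← this, hx2]; exact hLa
  obtain ⟨l, hl1, hl2⟩ := hE _ m2
  have hEl : D.E l = D.pi := by
    apply Subtype.ext
    rw [hl2, hpi]; exact hLb
  have hE2 : (D.E (D.E 1 * l) : ℂ) = B := by
    obtain ⟨x, hx1, hx2⟩ := hE _ m3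
    have : x = D.E 1 * l := by
      apply Subtype.ext
      rw [hx1]
      change _ = (D.E 1 : ℂ) * (l : ℂ)
      rw [hE1, hl1]
    rw [← this, hx2]; exact hLB
  refine ⟨L, g1, g2, D, l, hEl, hE2, hS _ ?_⟩
  rintro x (rfl | rfl | rfl | rfl)
  · exact ⟨_, m1, rfl⟩
  · exact ⟨_, m2, hl1.symm⟩
  · refine ⟨_, m3, ?_⟩
    change _ = (D.E 1 : ℂ) * (l : ℂ)
    rw [hE1, hl1]
  · obtain ⟨p, hp, hp1⟩ := half_mem m4
    refine ⟨p, hp, ?_⟩
    rw [hp1, ← hi, ← hpi]; rfl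

end Pool.Agent.Helper35.EM
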