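import Pool.Agent.Helper35.EM.ConjStep

/-! Algebraically independent positive reals near given ones. -/

namespace Pool.Agent.Helper35.EM

open Set

theorem exists_near (A : Set ℂ) (hA : A.Countable) (y ε : ℝ) (hy : 0 < y) (hε : 0 < ε) :
    ∃ x : ℝ, 0 < x ∧ |x - y| < ε ∧ (x : ℂ) ∉ M.closure A := by
  have h1 : ((fun x : ℝ => (x : ℂ)) ⁻¹' M.closure A).Countable :=
    (countable_closure hA).preimage_of_injOn (Complex.ofReal_injective.injOn)
  have h2 : Dense ((fun x : ℝ => (x : ℂ)) ⁻¹' M.closure A)ᶜ := h1.dense_compl ℝ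
  obtain ⟨x, hx, hx1, hx2⟩ := h2.exists_between (show max 0 (y - ε) < y from
    max_lt hy (by linarith))
  refine ⟨x, lt_of_le_of_lt (le_max_left _ _) hx1, ?_, hx⟩
  have := lt_of_le_of_lt (le_max_right 0 (y - ε)) hx1
  rw [abs_lt]
  constructor <;> linarith

theorem exists_freeR (y : ℕ → ℝ) (hy : ∀ n, 0 < y n) (ε : ℝ) (hε : 0 < ε) :
    ∃ t : ℕ → ℝ, FreeR (fun n => (t n : ℂ)) ∧ ∀ n, |t n - y n| < ε := by
  have h : ∀ (l : List ℂ) (n : ℕ), ∃ x : ℝ, 0 < x ∧ |x - y n| < ε ∧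
      (x : ℂ) ∉ M.closure {a | a ∈ l} := fun l n =>
    exists_near _ (l.finite_toSet.countable) (y n) ε (hy n) hε
  choose g hg1 hg2 hg3 using h
  let f : ℕ → List ℂ := fun n => Nat.rec [] (fun n l => (g l n : ℂ) :: l) n
  have hfs : ∀ n, f (n + 1) = (g (f n) n : ℂ) :: f n := fun n => rfl
  have hset : ∀ n, (fun k => ((g (f k) k : ℝ) : ℂ)) '' Iio n = {a | a ∈ f n} := by
    intro n
    induction n with
    | zero =>
      ext a
      simp [f]
    | succ n ih =>
      have e : (Iio (n + 1) : Set ℕ) = insert n (Iio n) := by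
        ext k
        simp only [mem_Iio, mem_insert_iff]
        omega
      rw [e, image_insert_eq, ih, hfs]
      ext a
      simp
  refine ⟨fun n => g (f n) n, ⟨?_, ?_⟩, ?_⟩
  · intro n
    rw [hset n]
    exact hg3 (f n) n
  · intro n
    exact ⟨_, hg1 (f n) n, rfl⟩
  · intro n
    exact hg2 (f n) n

end Pool.Agent.Helper35.EM
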