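import Pool.Agent.Helper35.EM.ConjModel
import Pool.Agent.Helper35.EM.ConjFree
import Pool.Agent.Helper35.EM.Cases

/-! The five models with conjugation. -/

namespace Pool.Agent.Helper35.EM

open Complex Module ComplexConjugate

theorem CS_span {G : Set (ℂ × ℂ)}
    (hG : ∀ v ∈ G, (conj v.1, conj v.2) = v ∨ (conj v.1, conj v.2) = -v) :
    CS (Submodule.span ℚ G) := by
  have hconjq : ∀ (q : ℚ) (z : ℂ), conj (q • z) = q • conj z := by
    intro q z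
    rw [Algebra.smul_def, Algebra.smul_def, map_mul, eq_ratCast, map_ratCast]
  intro p hp
  induction hp using Submodule.span_induction with
  | mem v hv =>
    rcases hG v hv with h | h
    · rw [h]; exact Submodule.subset_span hv
    · rw [h]; exact Submodule.neg_mem _ (Submodule.subset_span hv)
  | zero =>
    have e : (conj (0 : ℂ × ℂ).1, conj (0 : ℂ × ℂ).2) = (0 : ℂ × ℂ) := by
      ext1
      · exact map_zero conj
      · exact map_zero conj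
    rw [e]; exact Submodule.zero_mem _
  | add x y _ _ hx hy =>
    have e : (conj (x + y).1, conj (x + y).2) = (conj x.1, conj x.2) + (conj y.1, conj y.2) := by
      ext1
      · exact map_add conj x.1 y.1
      · exact map_add conj x.2 y.2
    rw [e]; exact Submodule.add_mem _ hx hy
  | smul q x _ hx =>
    have e : (conj (q • x).1, conj (q • x).2) = q • (conj x.1, conj x.2) := by
      ext1
      · exact hconjq q x.1
      · exact hconjq q x.2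
    rw [e]; exact Submodule.smul_mem _ _ hx

theorem Base.extend {P0 P' Q : Submodule ℚ (ℂ × ℂ)} {s F' : Set ℂ} (hB : Base P0 Q s)
    (hF' : F'.Finite) (hst : St P' F') (hle : P0 ≤ P') (hineq : Ineq P0 P') : Base P' Q F' := by
  refine ⟨hst.fin, hB.le.trans hle, hst.fst_mem, hst.exp_mem, hst.inj1, hst.inj2, ?_⟩
  intro U hU hUQ
  have h1 := hineq U hU
  have h2 := hB.rk (U ⊓ P0) inf_le_right (fun h => hUQ (h.trans inf_le_left))
  have h3 := h1.trans (add_le_add_right h2 _)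
  have hfin : M.eRk (co (U ⊓ P0)) ≠ ⊤ := hst.rk_ne_top hF' (inf_le_right.trans hle)
  exact (ENat.add_le_add_iff_right hfin).1 h3

/-- the real log -/
theorem exp_rlog {x : ℝ} (hx : 0 < x) : exp ((Real.log x : ℝ) : ℂ) = (x : ℂ) := by
  rw [← ofReal_exp, Real.exp_log hx]

theorem cs_real (x y : ℝ) : (conj ((x : ℂ), (y : ℂ)).1, conj ((x : ℂ), (y : ℂ)).2) =
    ((x : ℂ), (y : ℂ)) := by
  ext1
  · exact conj_ofReal x
  · exact conj_ofReal y

theorem cs_pi (b : ℝ) : (conj (2 * I * (b : ℂ), 2 * (Real.pi : ℂ) * I).1,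
    conj (2 * I * (b : ℂ), 2 * (Real.pi : ℂ) * I).2) =
    -(2 * I * (b : ℂ), 2 * (Real.pi : ℂ) * I) := by
  have h2 : conj (2 : ℂ) = 2 := map_ofNat _ 2
  ext1
  · change conj (2 * I * (b : ℂ)) = -(2 * I * (b : ℂ))
    rw [map_mul, map_mul, h2, conj_I, conj_ofReal]; ring
  · change conj (2 * (Real.pi : ℂ) * I) = -(2 * (Real.pi : ℂ) * I)
    rw [map_mul, map_mul, h2, conj_I, conj_ofReal]; ring

/-- `K` is a field of complex numbers, `i` and the conjugation are the usual ones, and `E 1`, `pi` are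
within `ε` of `e`, `π`. -/
structure Near {L : IntermediateField ℚ ℂ} (D : ExpField L) (ε : ℝ) : Prop where
  i_eq : (D.i : ℂ) = I
  cj_eq : ∀ x, (D.cj x : ℂ) = conj (x : ℂ)
  e_near : ‖(D.E 1 : ℂ) - Real.exp 1‖ < ε
  pi_near : ‖(D.pi : ℂ) - Real.pi‖ < ε

/-- The models of `pi + e` and `pi e`. -/
theorem caseC_one {a b ε : ℝ} {t : ℕ → ℝ} (ht : FreeR fun n => (t n : ℂ)) (hta : a = t 0)
    (hb0 : 0 < b) (hb : (b : ℂ) ∉ M.closure ∅) (hba : (b : ℂ) ∈ M.closure {(a : ℂ)})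
    (hae : |a - Real.exp 1| < ε) (hbe : |b - Real.pi| < ε) :
    ∃ (L : IntermediateField ℚ ℂ) (_ : IsAlgClosed L) (_ : Countable L) (D : ExpField L),
      Near D ε ∧ (D.pi : ℂ) = b ∧ (D.E 1 : ℂ) = a ∧
      OneCritical D.toExpData {1, D.i * D.pi} := by
  have ha : (a : ℂ) ∉ M.closure ∅ := hta ▸ free_zero ht.free
  have ha0 : 0 < a := by
    obtain ⟨x, hx, hx'⟩ := ht.pos 0
    rw [hta]
    have : t 0 = x := Complex.ofReal_injective hx'
    rw [this]; exact hx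
  have hLa := exp_rlog ha0
  have hB := b1 ha hb hba hLa rfl
  set G : Set (ℂ × ℂ) := {((1 : ℂ), ((Real.log a : ℝ) : ℂ)), (2 * I * b, 2 * (Real.pi : ℂ) * I)}
    with hG
  have m1 : ((1 : ℂ), ((Real.log a : ℝ) : ℂ)) ∈ Submodule.span ℚ G :=
    Submodule.subset_span (by simp [hG])
  have m2 : ((2 * I * b : ℂ), 2 * (Real.pi : ℂ) * I) ∈ Submodule.span ℚ G :=
    Submodule.subset_span (by simp [hG])
  have hc : CS (Submodule.span ℚ G) := by
    apply CS_span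
    rintro v (rfl | rfl)
    · left
      have := cs_real 1 (Real.log a)
      rwa [ofReal_one] at this
    · right; exact cs_pi b
  obtain ⟨L, h1, h2, D, hi, hcj, hpi, hE, hS⟩ := modelC ht (s := {(a : ℂ)}) (N := 1)
    (by
      rintro x rfl
      exact cl_self ⟨0, by simp, by simp [hta]⟩) hB hc b ⟨b, hb0, rfl⟩ m2
    ⟨_, m2, tr_two_I_mul hb⟩ ⟨_, m1, by rw [hLa]; exact ha⟩
  have hE1 : (D.E 1 : ℂ) = a := by
    obtain ⟨x, hx1, hx2⟩ := hE _ m1
    have : x = 1 := Subtype.ext hx1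
    rw [← this, hx2]; exact hLa
  refine ⟨L, h1, h2, D, ⟨hi, hcj, ?_, ?_⟩, hpi, hE1, hS _ ?_⟩
  · rw [hE1, ← ofReal_sub, norm_real, Real.norm_eq_abs]; exact hae
  · rw [hpi, ← ofReal_sub, norm_real, Real.norm_eq_abs]; exact hbe
  · rintro x (rfl | rfl)
    · exact ⟨_, m1, rfl⟩
    · obtain ⟨p, hp, hp1⟩ := half_mem m2
      refine ⟨p, hp, ?_⟩
      rw [hp1, ← hi, ← hpi]; rfl

theorem pos_of {t : ℕ → ℝ} (ht : FreeR fun n => (t n : ℂ)) (n : ℕ) : 0 < t n := by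
  obtain ⟨x, hx, hx'⟩ := ht.pos n
  have : t n = x := Complex.ofReal_injective hx'
  rw [this]; exact hx

theorem near_of {x y ε : ℝ} (h : |x - y| < ε) : ‖(x : ℂ) - (y : ℂ)‖ < ε := by
  rw [← ofReal_sub, norm_real, Real.norm_eq_abs]; exact h

/-- The model of `e ^ e`. -/
theorem caseC_two {ε : ℝ} {t : ℕ → ℝ} (ht : FreeR fun n => (t n : ℂ))
    (hae : |t 0 - Real.exp 1| < ε) (hbe : |t 1 - Real.pi| < ε) {A : ℚ} (h0 : 0 < A)
    (h1 : A ≠ 1) :
    ∃ (L : IntermediateField ℚ ℂ) (_ : IsAlgClosed L) (_ : Countable L) (D : ExpField L),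
      Near D ε ∧ (D.E (D.E 1) : ℂ) = A ∧ OneCritical D.toExpData {1, D.E 1} := by
  have ha : (t 0 : ℂ) ∉ M.closure ∅ := free_zero ht.free
  have hc : (t 1 : ℂ) ∉ M.closure {(t 0 : ℂ)} := free_one ht.free
  have ha0 := pos_of ht 0
  have hLa := exp_rlog ha0
  have hA0 : (0 : ℝ) < (A : ℝ) := by exact_mod_cast h0
  have hLA : exp ((Real.log (A : ℝ) : ℝ) : ℂ) = (A : ℂ) := by
    rw [exp_rlog hA0]; simp
  have hB := b2 ha hc hLa hLA h0.ne' h1 (by linarith [h0] : A ≠ -1) rfl rfl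
  set G : Set (ℂ × ℂ) := {((1 : ℂ), ((Real.log (t 0) : ℝ) : ℂ)),
    ((t 0 : ℂ), ((Real.log (A : ℝ) : ℝ) : ℂ)), (2 * I * (t 1 : ℂ), 2 * (Real.pi : ℂ) * I)} with hG
  have m1 : ((1 : ℂ), ((Real.log (t 0) : ℝ) : ℂ)) ∈ Submodule.span ℚ
      {((1 : ℂ), ((Real.log (t 0) : ℝ) : ℂ)), ((t 0 : ℂ), ((Real.log (A : ℝ) : ℝ) : ℂ))} :=
    Submodule.subset_span (by simp)
  have m2 : ((t 0 : ℂ), ((Real.log (A : ℝ) : ℝ) : ℂ)) ∈ Submodule.span ℚ
      {((1 : ℂ), ((Real.log (t 0) : ℝ) : ℂ)), ((t 0 : ℂ), ((Real.log (A : ℝ) : ℝ) : ℂ))} :=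
    Submodule.subset_span (by simp)
  have m3 : ((2 * I * (t 1 : ℂ) : ℂ), 2 * (Real.pi : ℂ) * I) ∈ Submodule.span ℚ G :=
    Submodule.subset_span (by simp [hG])
  have hcs : CS (Submodule.span ℚ G) := by
    apply CS_span
    rintro v (rfl | rfl | rfl)
    · left
      have := cs_real 1 (Real.log (t 0))
      rwa [ofReal_one] at this
    · left; exact cs_real _ _
    · right; exact cs_pi _
  obtain ⟨L, g1, g2, D, hi, hcj, hpi, hE, hS⟩ := modelC ht (s := {(t 0 : ℂ), (t 1 : ℂ)}) (N := 2)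
    (by
      rintro x (rfl | rfl)
      · exact cl_self ⟨0, by simp, rfl⟩
      · exact cl_self ⟨1, by simp, rfl⟩) hB hcs (t 1) ⟨t 1, pos_of ht 1, rfl⟩ m3
    ⟨_, m2, ha⟩ ⟨_, m1, by rw [hLa]; exact ha⟩
  have hE1 : (D.E 1 : ℂ) = t 0 := by
    obtain ⟨x, hx1, hx2⟩ := hE _ (hB.le m1)
    have : x = 1 := Subtype.ext hx1
    rw [← this, hx2]; exact hLa
  have hE2 : (D.E (D.E 1) : ℂ) = A := by
    obtain ⟨x, hx1, hx2⟩ := hE _ (hB.le m2)
    have : x = D.E 1 := Subtype.ext (hx1.trans hE1.symm)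
    rw [← this, hx2]; exact hLA
  refine ⟨L, g1, g2, D, ⟨hi, hcj, ?_, ?_⟩, hE2, hS _ ?_⟩
  · rw [hE1]; exact near_of hae
  · rw [hpi]; exact near_of hbe
  · rintro x (rfl | rfl)
    · exact ⟨_, m1, rfl⟩
    · exact ⟨_, m2, hE1.symm⟩

/-- The model of `pi ^ pi`. -/
theorem caseC_three (B3 : S_B3) {ε : ℝ} {t : ℕ → ℝ} (ht : FreeR fun n => (t n : ℂ))
    (hae : |t 0 - Real.pi| < ε) (hbe : |t 1 - Real.log Real.pi| < ε)
    (hce : |t 2 - Real.exp 1| < ε) {C : ℚ} (h0 : 0 < C) (h1 : C ≠ 1) :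
    ∃ (L : IntermediateField ℚ ℂ) (_ : IsAlgClosed L) (_ : Countable L) (D : ExpField L) (l : L),
      Near D ε ∧ ‖(l : ℂ) - Real.log Real.pi‖ < ε ∧ D.cj l = l ∧
      D.E l = D.pi ∧ (D.E (D.pi * l) : ℂ) = C ∧
      OneCritical D.toExpData {l, D.pi * l, D.i * D.pi} := by
  have ha : (t 0 : ℂ) ∉ M.closure ∅ := free_zero ht.free
  have hc : (t 1 : ℂ) ∉ M.closure {(t 0 : ℂ)} := free_one ht.free
  have hd : (t 2 : ℂ) ∉ M.closure {(t 0 : ℂ), (t 1 : ℂ)} := free_two ht.free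
  have ha0 := pos_of ht 0
  have hLa := exp_rlog ha0
  have hLs := exp_rlog (pos_of ht 2)
  have hC0 : (0 : ℝ) < (C : ℝ) := by exact_mod_cast h0
  have hLC : exp ((Real.log (C : ℝ) : ℝ) : ℂ) = (C : ℂ) := by
    rw [exp_rlog hC0]; simp
  have hB0 := B3 (t 0) (t 1) _ _ C ha hc hLa hLC h0.ne' h1 (by linarith [h0] : C ≠ -1) _ rfl
  set P := Submodule.span ℚ {((t 1 : ℂ), ((Real.log (t 0) : ℝ) : ℂ)),
    ((t 0 : ℂ) * t 1, ((Real.log (C : ℝ) : ℝ) : ℂ)),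
    (2 * I * (t 0 : ℂ), 2 * (Real.pi : ℂ) * I)} with hP
  have m1 : ((t 1 : ℂ), ((Real.log (t 0) : ℝ) : ℂ)) ∈ P := Submodule.subset_span (by simp)
  have m2 : ((t 0 : ℂ) * t 1, ((Real.log (C : ℝ) : ℝ) : ℂ)) ∈ P :=
    Submodule.subset_span (by simp)
  have m3 : ((2 * I * (t 0 : ℂ) : ℂ), 2 * (Real.pi : ℂ) * I) ∈ P :=
    Submodule.subset_span (by simp)
  have hcs0 : CS P := by
    apply CS_span
    rintro v (rfl | rfl | rfl)
    · left; exact cs_real _ _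
    · left
      have := cs_real (t 0 * t 1) (Real.log (C : ℝ))
      rwa [ofReal_mul] at this
    · right; exact cs_pi _
  -- add the pair `(1, log s)`
  have hF : ({(t 0 : ℂ), (t 1 : ℂ)} : Set ℂ) ⊆ {(t 0 : ℂ), (t 1 : ℂ), (t 2 : ℂ)} := by
    rintro x (rfl | rfl) <;> simp
  have h1P : ¬ ∃ z, ((1 : ℂ), z) ∈ P := by
    rintro ⟨z, hz⟩
    obtain ⟨x, y, w, hxyw⟩ := Submodule.mem_span_triple.1 hz
    have e : x • (t 1 : ℂ) + y • ((t 0 : ℂ) * t 1) + w • (2 * I * (t 0 : ℂ)) = 1 :=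
      congrArg Prod.fst hxyw
    have e' : ((x : ℂ) + y * t 0) * t 1 = 1 - w * (2 * I * t 0) := by
      rw [Algebra.smul_def, Algebra.smul_def, Algebra.smul_def] at e
      simp only [eq_ratCast] at e
      linear_combination e
    have hcoef : ((x : ℂ) + y * t 0) ∈ M.closure {(t 0 : ℂ)} :=
      cl_add (cl_ratCast _ x) (cl_mul (cl_ratCast _ y) (cl_self rfl))
    have hrhs : (1 - w * (2 * I * t 0) : ℂ) ∈ M.closure {(t 0 : ℂ)} := by
      refine cl_sub ?_ (cl_mul (cl_ratCast _ w) (cl_mul (cl_two_I _) (cl_self rfl)))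
      simpa using cl_ratCast {(t 0 : ℂ)} 1
    by_cases hz0 : ((x : ℂ) + y * t 0) = 0
    · rw [hz0, zero_mul] at e'
      by_cases hw : w = 0
      · rw [hw] at e'; simp at e'
      · apply ha
        have hw' : (w : ℂ) ≠ 0 := by exact_mod_cast hw
        have : (t 0 : ℂ) = (1 : ℚ) / ((w : ℂ) * (2 * I)) := by
          rw [eq_div_iff (mul_ne_zero hw' (by simp))]
          push_cast
          linear_combination e'
        rw [this]
        exact cl_div (cl_ratCast _ 1) (cl_mul (cl_ratCast _ w) (cl_two_I _))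
    · apply hc
      rw [← e'] at hrhs
      exact (cl_mul_iff hcoef hz0).1 hrhs
  have hs1 : exp ((Real.log (t 2) : ℝ) : ℂ) ∈
      M.closure {(t 0 : ℂ), (t 1 : ℂ), (t 2 : ℂ)} := by
    rw [hLs]; exact cl_self (by simp)
  have hs2 : exp ((Real.log (t 2) : ℝ) : ℂ) ∉ M.closure {(t 0 : ℂ), (t 1 : ℂ)} := by
    rw [hLs]; exact hd
  obtain ⟨k1, k2⟩ := forthG hF (hB0.toSt le_rfl) (x := (1 : ℂ))
    (by simpa using cl_ratCast {(t 0 : ℂ), (t 1 : ℂ), (t 2 : ℂ)} 1) h1P hs1 hs2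
  have hB := hB0.extend (Set.toFinite _) k1 le_sup_left k2
  have hcs : CS (P ⊔ Submodule.span ℚ {((1 : ℂ), ((Real.log (t 2) : ℝ) : ℂ))}) := by
    apply hcs0.sup
    left
    have := cs_real 1 (Real.log (t 2))
    rwa [ofReal_one] at this
  obtain ⟨L, g1, g2, D, hi, hcj, hpi, hE, hS⟩ := modelC ht
    (s := {(t 0 : ℂ), (t 1 : ℂ), (t 2 : ℂ)}) (N := 3)
    (by
      rintro x (rfl | rfl | rfl)
      · exact cl_self ⟨0, by simp, rfl⟩
      · exact cl_self ⟨1, by simp, rfl⟩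
      · exact cl_self ⟨2, by simp, rfl⟩) hB hcs (t 0) ⟨t 0, ha0, rfl⟩
    (Submodule.mem_sup_left m3)
    ⟨_, m3, tr_two_I_mul ha⟩ ⟨_, m1, by rw [hLa]; exact ha⟩
  have hE1 : (D.E 1 : ℂ) = t 2 := by
    obtain ⟨x, hx1, hx2⟩ := hE _ (Submodule.mem_sup_right (Submodule.mem_span_singleton_self _))
    have : x = 1 := Subtype.ext hx1
    rw [← this, hx2]; exact hLs
  obtain ⟨l, hl1, hl2⟩ := hE _ (Submodule.mem_sup_left m1)
  have hEl : D.E l = D.pi := by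
    apply Subtype.ext
    rw [hl2, hpi]; exact hLa
  have hE2 : (D.E (D.pi * l) : ℂ) = C := by
    obtain ⟨x, hx1, hx2⟩ := hE _ (Submodule.mem_sup_left m2)
    have : x = D.pi * l := by
      apply Subtype.ext
      rw [hx1]
      change _ = (D.pi : ℂ) * (l : ℂ)
      rw [hpi, hl1]
    rw [← this, hx2]; exact hLC
  refine ⟨L, g1, g2, D, l, ⟨hi, hcj, ?_, ?_⟩, ?_, ?_, hEl, hE2, hS _ ?_⟩
  · rw [hE1]; exact near_of hce
  · rw [hpi]; exact near_of hae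
  · rw [hl1]; exact near_of hbe
  · apply Subtype.ext
    rw [hcj, hl1]; exact conj_ofReal _
  · rintro x (rfl | rfl | rfl)
    · exact ⟨_, m1, hl1.symm⟩
    · refine ⟨_, m2, ?_⟩
      change _ = (D.pi : ℂ) * (l : ℂ)
      rw [hpi, hl1]
    · obtain ⟨p, hp, hp1⟩ := half_mem m3
      refine ⟨p, hp, ?_⟩
      rw [hp1, ← hi, ← hpi]; rfl

/-- The model of `pi ^ e`. -/
theorem caseC_four (B4 : S_B4) {ε : ℝ} {t : ℕ → ℝ} (ht : FreeR fun n => (t n : ℂ))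
    (hae : |t 0 - Real.exp 1| < ε) (hbe : |t 1 - Real.pi| < ε)
    (hce : |t 2 - Real.log Real.pi| < ε) {B : ℚ} (h0 : 0 < B) (h1 : B ≠ 1) :
    ∃ (L : IntermediateField ℚ ℂ) (_ : IsAlgClosed L) (_ : Countable L) (D : ExpField L) (l : L),
      Near D ε ∧ ‖(l : ℂ) - Real.log Real.pi‖ < ε ∧ D.cj l = l ∧
      D.E l = D.pi ∧ (D.E (D.E 1 * l) : ℂ) = B ∧
      OneCritical D.toExpData {1, l, D.E 1 * l, D.i * D.pi} := by
  have ha : (t 0 : ℂ) ∉ M.closure ∅ := free_zero ht.free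
  have hc : (t 1 : ℂ) ∉ M.closure {(t 0 : ℂ)} := free_one ht.free
  have hd : (t 2 : ℂ) ∉ M.closure {(t 0 : ℂ), (t 1 : ℂ)} := free_two ht.free
  have hLa := exp_rlog (pos_of ht 0)
  have hLb := exp_rlog (pos_of ht 1)
  have hB0' : (0 : ℝ) < (B : ℝ) := by exact_mod_cast h0
  have hLB : exp ((Real.log (B : ℝ) : ℝ) : ℂ) = (B : ℂ) := by
    rw [exp_rlog hB0']; simp
  have hB := B4 (t 0) (t 1) (t 2) _ _ _ B ha hc hd hLa hLb hLB h0.ne' h1
    (by linarith [h0] : B ≠ -1) _ rfl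
  set P := Submodule.span ℚ {((1 : ℂ), ((Real.log (t 0) : ℝ) : ℂ)),
    ((t 2 : ℂ), ((Real.log (t 1) : ℝ) : ℂ)),
    ((t 0 : ℂ) * t 2, ((Real.log (B : ℝ) : ℝ) : ℂ)),
    (2 * I * (t 1 : ℂ), 2 * (Real.pi : ℂ) * I)} with hP
  have m1 : ((1 : ℂ), ((Real.log (t 0) : ℝ) : ℂ)) ∈ P := Submodule.subset_span (by simp)
  have m2 : ((t 2 : ℂ), ((Real.log (t 1) : ℝ) : ℂ)) ∈ P := Submodule.subset_span (by simp)
  have m3 : ((t 0 : ℂ) * t 2, ((Real.log (B : ℝ) : ℝ) : ℂ)) ∈ P :=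
    Submodule.subset_span (by simp)
  have m4 : ((2 * I * (t 1 : ℂ) : ℂ), 2 * (Real.pi : ℂ) * I) ∈ P :=
    Submodule.subset_span (by simp)
  have hc0 : (t 1 : ℂ) ∉ M.closure ∅ := fun h => hc (cl_mono (Set.empty_subset _) h)
  have hcs : CS P := by
    apply CS_span
    rintro v (rfl | rfl | rfl | rfl)
    · left
      have := cs_real 1 (Real.log (t 0))
      rwa [ofReal_one] at this
    · left; exact cs_real _ _
    · left
      have := cs_real (t 0 * t 2) (Real.log (B : ℝ))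
      rwa [ofReal_mul] at this
    · right; exact cs_pi _
  obtain ⟨L, g1, g2, D, hi, hcj, hpi, hE, hS⟩ := modelC ht
    (s := {(t 0 : ℂ), (t 1 : ℂ), (t 2 : ℂ)}) (N := 3)
    (by
      rintro x (rfl | rfl | rfl)
      · exact cl_self ⟨0, by simp, rfl⟩
      · exact cl_self ⟨1, by simp, rfl⟩
      · exact cl_self ⟨2, by simp, rfl⟩) hB hcs (t 1) ⟨t 1, pos_of ht 1, rfl⟩ m4
    ⟨_, m4, tr_two_I_mul hc0⟩ ⟨_, m1, by rw [hLa]; exact ha⟩
  have hE1 : (D.E 1 : ℂ) = t 0 := by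
    obtain ⟨x, hx1, hx2⟩ := hE _ m1
    have : x = 1 := Subtype.ext hx1
    rw [← this, hx2]; exact hLa
  obtain ⟨l, hl1, hl2⟩ := hE _ m2
  have hEl : D.E l = D.pi := by
    apply Subtype.ext
    rw [hl2, hpi]; exact hLb
  have hE2 : (D.E (D.E 1 * l) : ℂ) = B := by
    obtain ⟨x, hx1, hx2⟩ := hE _ m3
    have : x = D.E 1 * l := by
      apply Subtype.ext
      rw [hx1]
      change _ = (D.E 1 : ℂ) * (l : ℂ)
      rw [hE1, hl1]
    rw [← this, hx2]; exact hLB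
  refine ⟨L, g1, g2, D, l, ⟨hi, hcj, ?_, ?_⟩, ?_, ?_, hEl, hE2, hS _ ?_⟩
  · rw [hE1]; exact near_of hae
  · rw [hpi]; exact near_of hbe
  · rw [hl1]; exact near_of hce
  · apply Subtype.ext
    rw [hcj, hl1]; exact conj_ofReal _
  · rintro x (rfl | rfl | rfl | rfl)
    · exact ⟨_, m1, rfl⟩
    · exact ⟨_, m2, hl1.symm⟩
    · refine ⟨_, m3, ?_⟩
      change _ = (D.E 1 : ℂ) * (l : ℂ)
      rw [hE1, hl1]
    · obtain ⟨p, hp, hp1⟩ := half_mem m4
      refine ⟨p, hp, ?_⟩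
      rw [hp1, ← hi, ← hpi]; rfl

end Pool.Agent.Helper35.EM
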