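import Pool.Agent.Helper35.EM.Step

/-! The chain of stages and its union. -/

namespace Pool.Agent.Helper35.EM

open Set Module

theorem mem_range_closure {t : ℕ → ℂ} {x : ℂ} (hx : x ∈ M.closure (range t)) :
    ∃ N, x ∈ M.closure (t '' Iio N) := by
  obtain ⟨I, hI, hfin, -, hxI⟩ := Matroid.exists_mem_finite_closure_of_mem_closure hx
  have : ∃ N, I ⊆ t '' Iio N := by
    have hI' : ∀ x ∈ I, ∃ n, t n = x := hI
    choose! g hg using hI'
    obtain ⟨N, hN⟩ := (hfin.image g).bddAbove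
    exact ⟨N + 1, fun x hx => ⟨g x, Nat.lt_succ_of_le (hN ⟨x, hx, rfl⟩), hg x hx⟩⟩
  obtain ⟨N, hN⟩ := this
  exact ⟨N, cl_mono hN hxI⟩

theorem countable_closure {s : Set ℂ} (hs : s.Countable) : (M.closure s).Countable := by
  have h1 : Countable (Algebra.adjoin ℚ s) := by
    rw [← Cardinal.mk_le_aleph0_iff]
    refine (Algebra.cardinalMk_adjoin_le ℚ s).trans ?_
    have h2 : Cardinal.mk s ≤ Cardinal.aleph0 := hs.le_aleph0
    simp [h2]
  rw [AlgebraicIndependent.matroid_closure_eq]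
  exact Algebraic.countable (Algebra.adjoin ℚ s) ℂ

/-- a stage -/
def Stg (t : ℕ → ℂ) : Type := {q : Submodule ℚ (ℂ × ℂ) × ℕ // St q.1 (t '' Iio q.2)}

theorem chain {t : ℕ → ℂ} (ht : Free t) {P0 : Submodule ℚ (ℂ × ℂ)} {N0 : ℕ}
    (h0 : St P0 (t '' Iio N0)) :
    ∃ (P : ℕ → Submodule ℚ (ℂ × ℂ)) (N : ℕ → ℕ), P 0 = P0 ∧ Monotone P ∧
      (∀ n, St (P n) (t '' Iio (N n))) ∧ (∀ n, Ineq P0 (P n)) ∧
      ∀ x ∈ M.closure (range t), ∃ n, (∃ z, (x, z) ∈ P n) ∧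
        (x ≠ 0 → ∃ u, (u, Complex.log x) ∈ P n) := by
  -- an enumeration
  have hcount : (M.closure (range t)).Countable := countable_closure (countable_range t)
  have hne : (M.closure (range t)).Nonempty := ⟨_, cl_ratCast (range t) 0⟩
  obtain ⟨ex, hex⟩ := hcount.exists_eq_range hne
  have hexm : ∀ n, ex n ∈ M.closure (range t) := fun n => by rw [hex]; exact mem_range_self n
  have hstep : ∀ (n : ℕ) (q : Stg t), ∃ q' : Stg t, q.1.1 ≤ q'.1.1 ∧ Ineq q.1.1 q'.1.1 ∧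
      (∃ z, (ex n, z) ∈ q'.1.1) ∧ (ex n ≠ 0 → ∃ u, (u, Complex.log (ex n)) ∈ q'.1.1) := by
    rintro n ⟨⟨P, N⟩, hq⟩
    obtain ⟨N', hN'⟩ := mem_range_closure (hexm n)
    obtain ⟨P', N1, h1, h2, h3, h4, h5⟩ := both ht hq hN'
    exact ⟨⟨⟨P', N1⟩, h2⟩, h1, h3, h4, h5⟩
  choose nx hnx1 hnx2 hnx3 hnx4 using hstep
  let f : ℕ → Stg t := fun n => Nat.rec ⟨(P0, N0), h0⟩ (fun n q => nx n q) n
  have hf0 : f 0 = ⟨(P0, N0), h0⟩ := rfl
  have hfs : ∀ n, f (n + 1) = nx n (f n) := fun n => rfl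
  have hmono : Monotone fun n => (f n).1.1 := monotone_nat_of_le_succ fun n => by
    rw [hfs]; exact hnx1 n (f n)
  refine ⟨fun n => (f n).1.1, fun n => (f n).1.2, rfl, hmono, fun n => (f n).2, ?_, ?_⟩
  · intro n
    induction n with
    | zero => exact Ineq.refl P0
    | succ n ih =>
      have h00 : P0 ≤ (f n).1.1 := hmono (Nat.zero_le n)
      refine Ineq.trans ((finite_Iio _).image t) (f n).2 h00 ih ?_
      simp only [hfs]
      exact hnx2 n (f n)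
  · intro x hx
    rw [hex] at hx
    obtain ⟨n, rfl⟩ := hx
    refine ⟨n + 1, ?_, ?_⟩
    · simp only [hfs]; exact hnx3 n (f n)
    · simp only [hfs]; exact hnx4 n (f n)

end Pool.Agent.Helper35.EM
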