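import Pool.Agent.Helper35.EM.Rank

/-! Conjugation-stable stages. -/

namespace Pool.Agent.Helper35.EM

open Set Module ComplexConjugate

/-- positive real numbers inside `ℂ` -/
def Pos (a : ℂ) : Prop := ∃ x : ℝ, 0 < x ∧ a = x

theorem Pos.conj {a : ℂ} (h : Pos a) : conj a = a := by
  obtain ⟨x, -, rfl⟩ := h; exact Complex.conj_ofReal x

/-- the closure of a set of real numbers is stable under conjugation -/
theorem conj_mem {s : Set ℂ} (hs : ∀ x ∈ s, conj x = x) {z : ℂ} (hz : z ∈ M.closure s) :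
    conj z ∈ M.closure s := by
  rw [mem_cl, mem_clF] at *
  have hfix : ∀ x ∈ IntermediateField.adjoin ℚ s, conj x = x := by
    intro x hx
    induction hx using IntermediateField.adjoin_induction with
    | mem x hx => exact hs x hx
    | algebraMap x => simp
    | add x y _ _ hx hy => rw [map_add, hx, hy]
    | inv x _ hx => rw [map_inv₀, hx]
    | mul x y _ _ hx hy => rw [map_mul, hx, hy]
  let f : ℂ →ₐ[IntermediateField.adjoin ℚ s] ℂ :=
    { (starRingEnd ℂ) with
      commutes' := fun x => hfix x x.2 }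
  exact hz.algHom f

theorem re_mem {s : Set ℂ} (hs : ∀ x ∈ s, conj x = x) {z : ℂ} (hz : z ∈ M.closure s) :
    (z.re : ℂ) ∈ M.closure s := by
  have h1 := cl_smul (1 / 2) (cl_add hz (conj_mem hs hz))
  have : (1 / 2 : ℚ) • (z + conj z) = (z.re : ℂ) := by
    rw [Complex.add_conj, Algebra.smul_def]
    simp only [eq_ratCast]
    push_cast
    ring
  rwa [this] at h1

theorem im_mem {s : Set ℂ} (hs : ∀ x ∈ s, conj x = x) {z : ℂ} (hz : z ∈ M.closure s) :
    (z.im : ℂ) ∈ M.closure s := by
  have h1 : z - (z.re : ℂ) ∈ M.closure s := cl_sub hz (re_mem hs hz)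
  have h2 : Complex.I * (z.im : ℂ) ∈ M.closure s := by
    have : z - (z.re : ℂ) = Complex.I * (z.im : ℂ) := by
      conv_lhs => rw [← Complex.re_add_im z]
      simp only [Complex.add_re, Complex.ofReal_re, Complex.mul_re, Complex.I_re, mul_zero,
        Complex.ofReal_im, Complex.I_im, mul_one, sub_self, add_zero]
      ring
    rwa [← this]
  exact (cl_mul_iff (cl_I s) Complex.I_ne_zero).1 h2

theorem norm_mem {s : Set ℂ} (hs : ∀ x ∈ s, conj x = x) {z : ℂ} (hz : z ∈ M.closure s) :
    ((‖z‖ : ℝ) : ℂ) ∈ M.closure s := by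
  apply cl_of_pow (n := 2) two_ne_zero
  have h1 := cl_mul hz (conj_mem hs hz)
  rwa [Complex.mul_conj, Complex.normSq_eq_norm_sq, Complex.ofReal_pow] at h1

/-- conjugation-stable space of pairs -/
def CS (P : Submodule ℚ (ℂ × ℂ)) : Prop := ∀ p ∈ P, (conj p.1, conj p.2) ∈ P

theorem CS.sup {P : Submodule ℚ (ℂ × ℂ)} (h : CS P) {v : ℂ × ℂ}
    (hv : (conj v.1, conj v.2) = v ∨ (conj v.1, conj v.2) = -v) :
    CS (P ⊔ Submodule.span ℚ {v}) := by
  intro p hp
  obtain ⟨p', hp', w, hw, rfl⟩ := Submodule.mem_sup.1 hp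
  obtain ⟨q, rfl⟩ := Submodule.mem_span_singleton.1 hw
  have hconjq : ∀ z : ℂ, conj (q • z) = q • conj z := by
    intro z
    rw [Algebra.smul_def, Algebra.smul_def, map_mul, eq_ratCast, map_ratCast]
  have e : (conj (p' + q • v).1, conj (p' + q • v).2) =
      (conj p'.1, conj p'.2) + q • (conj v.1, conj v.2) := by
    ext1
    · change conj (p'.1 + q • v.1) = conj p'.1 + q • conj v.1
      rw [map_add, hconjq]
    · change conj (p'.2 + q • v.2) = conj p'.2 + q • conj v.2
      rw [map_add, hconjq]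
  rw [e]
  apply Submodule.add_mem_sup (h p' hp')
  rcases hv with hv | hv
  · rw [hv]; exact Submodule.smul_mem _ _ (Submodule.mem_span_singleton_self v)
  · rw [hv]
    exact Submodule.smul_mem _ _ (Submodule.neg_mem _ (Submodule.mem_span_singleton_self v))

/-- extension by a pair with a transcendental second value -/
theorem forthG {P : Submodule ℚ (ℂ × ℂ)} {F F' : Set ℂ} (hF : F ⊆ F') (h : St P F) {x w : ℂ}
    (hx : x ∈ M.closure F') (hxP : ¬ ∃ z, (x, z) ∈ P) (hw : Complex.exp w ∈ M.closure F')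
    (hw' : Complex.exp w ∉ M.closure F) :
    St (P ⊔ Submodule.span ℚ {(x, w)}) F' ∧ Ineq P (P ⊔ Submodule.span ℚ {(x, w)}) := by
  have key : ∀ p ∈ P, ∀ q : ℚ, q ≠ 0 → Complex.exp (p.2 + q • w) ∉ M.closure F := by
    intro p hp q hq hh
    rw [add_comm] at hh
    exact hw' (cl_exp_of_smul_add hq hh (h.exp_mem p hp))
  refine step hF h (x, w) hx hw ?_ ?_ ?_
  · intro p hp q hq h0
    apply hxP
    refine ⟨-(q⁻¹ • p.2), ?_⟩
    have hm : -(q⁻¹ • p) ∈ P := P.neg_mem (P.smul_mem _ hp)
    have hxe : x = -(q⁻¹ • p.1) := by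
      have : q • x = -p.1 := by
        have := h0
        simp only at this
        exact eq_neg_of_add_eq_zero_right this
      calc x = q⁻¹ • (q • x) := by rw [smul_smul, inv_mul_cancel₀ hq, one_smul]
        _ = -(q⁻¹ • p.1) := by rw [this, smul_neg]
    have : (x, -(q⁻¹ • p.2)) = -(q⁻¹ • p) := by
      ext1
      · exact hxe
      · rfl
    rw [this]; exact hm
  · intro p hp q hq h0
    apply key p hp q hq
    have h0' : p.2 + q • w = 0 := h0
    rw [h0', Complex.exp_zero]
    simpa using cl_ratCast F 1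
  · intro p hp q hq
    exact Or.inr (key p hp q hq)

/-- extension by a pair with a transcendental first value -/
theorem backG {P : Submodule ℚ (ℂ × ℂ)} {F F' : Set ℂ} (hF : F ⊆ F') (h : St P F) {g w : ℂ}
    (hg : g ∈ M.closure F') (hg' : g ∉ M.closure F) (hxP : ¬ ∃ u, (u, w) ∈ P)
    (hw : Complex.exp w ∈ M.closure F') :
    St (P ⊔ Submodule.span ℚ {(g, w)}) F' ∧ Ineq P (P ⊔ Submodule.span ℚ {(g, w)}) := by
  have key : ∀ p ∈ P, ∀ q : ℚ, q ≠ 0 → p.1 + q • g ∉ M.closure F := by
    intro p hp q hq hh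
    have h1 : q • g ∈ M.closure F := (cl_add_iff (h.fst_mem p hp)).1 hh
    have h2 := cl_smul q⁻¹ h1
    rw [smul_smul, inv_mul_cancel₀ hq, one_smul] at h2
    exact hg' h2
  refine step hF h (g, w) hg hw ?_ ?_ ?_
  · intro p hp q hq h0
    apply key p hp q hq
    have h0' : p.1 + q • g = 0 := h0
    rw [h0']
    simpa using cl_ratCast F 0
  · intro p hp q hq h0
    apply hxP
    refine ⟨-(q⁻¹ • p.1), ?_⟩
    have hm : -(q⁻¹ • p) ∈ P := P.neg_mem (P.smul_mem _ hp)
    have hxe : w = -(q⁻¹ • p.2) := by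
      have : q • w = -p.2 := by
        have := h0
        simp only at this
        exact eq_neg_of_add_eq_zero_right this
      calc w = q⁻¹ • (q • w) := by rw [smul_smul, inv_mul_cancel₀ hq, one_smul]
        _ = -(q⁻¹ • p.2) := by rw [this, smul_neg]
    have : (-(q⁻¹ • p.1), w) = -(q⁻¹ • p) := by
      ext1
      · rfl
      · exact hxe
    rw [this]; exact hm
  · intro p hp q hq
    exact Or.inl (key p hp q hq)

/-- a generic element of the unit circle -/
theorem exists_unit {F F' : Set ℂ} {s : ℝ} (hs : (s : ℂ) ∉ M.closure F) (_hF : F ⊆ F')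
    (hs' : (s : ℂ) ∈ M.closure F') :
    ∃ θ : ℝ, Complex.exp (θ * Complex.I) ∉ M.closure F ∧
      Complex.exp (θ * Complex.I) ∈ M.closure F' := by
  have h1 : (1 : ℂ) - Complex.I * s ≠ 0 := by
    intro h
    have := congrArg Complex.re h
    simp at this
  have h2 : (1 : ℂ) + Complex.I * s ≠ 0 := by
    intro h
    have := congrArg Complex.re h
    simp at this
  set u : ℂ := (1 + Complex.I * s) / (1 - Complex.I * s) with hu
  have hn : ‖u‖ = 1 := by
    rw [hu, norm_div]
    have : (1 : ℂ) - Complex.I * s = conj (1 + Complex.I * s) := by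
      simp [sub_eq_add_neg]
    rw [this, Complex.norm_conj]
    exact div_self (norm_ne_zero_iff.2 h2)
  have hexp : Complex.exp (u.arg * Complex.I) = u := by
    have := Complex.norm_mul_exp_arg_mul_I u
    rwa [hn, Complex.ofReal_one, one_mul] at this
  refine ⟨u.arg, ?_, ?_⟩
  · rw [hexp]
    intro hmem
    apply hs
    have h3 : u + 1 ≠ 0 := by
      intro h
      have h4 : u = -1 := by linear_combination h
      rw [hu, div_eq_iff h1] at h4
      have := congrArg Complex.re h4
      simp at this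
      linarith
    have h5 : (s : ℂ) = (u - 1) / (Complex.I * (u + 1)) := by
      rw [eq_div_iff (mul_ne_zero Complex.I_ne_zero h3)]
      have h6 : u * (1 - Complex.I * s) = 1 + Complex.I * s := by
        rw [hu, div_mul_cancel₀ _ h1]
      linear_combination -h6
    rw [h5]
    have hone : (1 : ℂ) ∈ M.closure F := by simpa using cl_ratCast F 1
    exact cl_div (cl_sub hmem hone) (cl_mul (cl_I F) (cl_add hmem hone))
  · rw [hexp, hu]
    have hone : (1 : ℂ) ∈ M.closure F' := by simpa using cl_ratCast F' 1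
    exact cl_div (cl_add hone (cl_mul (cl_I _) hs')) (cl_sub hone (cl_mul (cl_I _) hs'))

end Pool.Agent.Helper35.EM
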