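import Pool.Agent.Helper35.EM.ConjStep
import Pool.Agent.Helper35.EM.Model

/-! Exponential fields with conjugation from conjugation-stable bases. -/

namespace Pool.Agent.Helper35.EM

open Set Module ComplexConjugate

theorem extensionC {t : ℕ → ℂ} (ht : FreeR t) {P0 : Submodule ℚ (ℂ × ℂ)} {N0 : ℕ}
    (h0 : St P0 (t '' Iio N0)) (hc0 : CS P0) (τ : ℂ)
    (hτ : (τ, 2 * Real.pi * Complex.I) ∈ P0) :
    ∃ (E : clF (range t) → clF (range t)) (lam : clF (range t) →ₗ[ℚ] ℂ),
      (∀ x, (E x : ℂ) = Complex.exp (lam x)) ∧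
      (∀ y, y ≠ 0 → ∃ x, E x = y) ∧
      (∀ x, E x = 1 ↔ ∃ n : ℤ, (x : ℂ) = n * τ) ∧
      (∀ p ∈ P0, ∃ x : clF (range t), (x : ℂ) = p.1 ∧ lam x = p.2) ∧
      (∀ V : Submodule ℚ (clF (range t)), FiniteDimensional ℚ V →
        (finrank ℚ V : ℕ∞) + M.eRk (co (V.map (gr lam) ⊓ P0)) ≤
        M.eRk (co (V.map (gr lam))) +
          (finrank ℚ (V.map (gr lam) ⊓ P0 : Submodule ℚ (ℂ × ℂ)) : ℕ∞)) ∧
      (∀ x y : clF (range t), (y : ℂ) = conj (x : ℂ) → lam y = conj (lam x)) := by
  obtain ⟨P, N, hP0, hmono, hst, hineq, hcs, hex⟩ := chainC ht h0 hc0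
  -- uniqueness
  have huniq : ∀ (x z z' : ℂ) (n m : ℕ), (x, z) ∈ P n → (x, z') ∈ P m → z = z' := by
    intro x z z' n m h1 h2
    have h1' := hmono (le_max_left n m) h1
    have h2' := hmono (le_max_right n m) h2
    have h3 := (P (max n m)).sub_mem h1' h2'
    have h4 := (hst (max n m)).inj1 _ h3 (by simp)
    have h5 := congrArg Prod.snd h4
    simpa [sub_eq_zero] using h5
  have huniq2 : ∀ (x x' z : ℂ) (n m : ℕ), (x, z) ∈ P n → (x', z) ∈ P m → x = x' := by
    intro x x' z n m h1 h2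
    have h1' := hmono (le_max_left n m) h1
    have h2' := hmono (le_max_right n m) h2
    have h3 := (P (max n m)).sub_mem h1' h2'
    have h4 := (hst (max n m)).inj2 _ h3 (by simp)
    have h5 := congrArg Prod.fst h4
    simpa [sub_eq_zero] using h5
  have hex1 : ∀ x : clF (range t), ∃ z : ℂ, ∃ n, ((x : ℂ), z) ∈ P n := by
    intro x
    obtain ⟨n, ⟨z, hz⟩, -⟩ := hex x (mem_cl.2 x.2)
    exact ⟨z, n, hz⟩
  choose l0 hl0 using hex1
  have hmemK : ∀ n, ∀ p ∈ P n, p.1 ∈ clF (range t) := by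
    intro n p hp
    exact mem_cl.1 (cl_mono (image_subset_range t _) ((hst n).fst_mem p hp))
  have hmemE : ∀ n, ∀ p ∈ P n, Complex.exp p.2 ∈ clF (range t) := by
    intro n p hp
    exact mem_cl.1 (cl_mono (image_subset_range t _) ((hst n).exp_mem p hp))
  let lam : clF (range t) →ₗ[ℚ] ℂ :=
    { toFun := l0
      map_add' := by
        intro x y
        obtain ⟨n, hn⟩ := hl0 x
        obtain ⟨m, hm⟩ := hl0 y
        obtain ⟨k, hk⟩ := hl0 (x + y)
        have h1 := hmono (le_max_left n m) hn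
        have h2 := hmono (le_max_right n m) hm
        have h3 := (P (max n m)).add_mem h1 h2
        exact huniq _ _ _ k (max n m) hk h3
      map_smul' := by
        intro q x
        obtain ⟨n, hn⟩ := hl0 x
        obtain ⟨k, hk⟩ := hl0 (q • x)
        have h3 := (P n).smul_mem q hn
        exact huniq _ _ _ k n hk h3 }
  have hlam : ∀ x : clF (range t), ∃ n, ((x : ℂ), lam x) ∈ P n := hl0
  have hlam2 : ∀ (x : clF (range t)) (z : ℂ) (n : ℕ), ((x : ℂ), z) ∈ P n → lam x = z := by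
    intro x z n h
    obtain ⟨m, hm⟩ := hlam x
    exact huniq _ _ _ m n hm h
  refine ⟨fun x => ⟨Complex.exp (lam x), ?_⟩, lam, fun x => rfl, ?_, ?_, ?_, ?_, ?_⟩
  · obtain ⟨n, hn⟩ := hlam x
    exact hmemE n _ hn
  · intro y hy
    have hy' : (y : ℂ) ≠ 0 := fun h => hy (Subtype.ext h)
    obtain ⟨n, -, h2⟩ := hex y (mem_cl.2 y.2)
    obtain ⟨u, hu⟩ := h2 hy'
    refine ⟨⟨u, hmemK n _ hu⟩, ?_⟩
    apply Subtype.ext
    change Complex.exp (lam ⟨u, _⟩) = y
    rw [hlam2 ⟨u, hmemK n _ hu⟩ _ n hu, Complex.exp_log hy']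
  · intro x
    have hτn : ∀ n : ℤ, ((n : ℂ) * τ, (n : ℂ) * (2 * Real.pi * Complex.I)) ∈ P 0 := by
      intro n
      have := (P 0).smul_mem (n : ℚ) (hP0 ▸ hτ)
      have e : (n : ℚ) • (τ, 2 * (Real.pi : ℂ) * Complex.I) =
          ((n : ℂ) * τ, (n : ℂ) * (2 * Real.pi * Complex.I)) := by
        ext1
        · change (n : ℚ) • τ = _
          rw [Algebra.smul_def]; simp
        · change (n : ℚ) • (2 * (Real.pi : ℂ) * Complex.I) = _
          rw [Algebra.smul_def]; simp
      rwa [e] at this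
    constructor
    · intro h
      have h1 : Complex.exp (lam x) = 1 := congrArg Subtype.val h
      obtain ⟨n, hn⟩ := Complex.exp_eq_one_iff.1 h1
      refine ⟨n, ?_⟩
      obtain ⟨m, hm⟩ := hlam x
      rw [hn] at hm
      exact huniq2 _ _ _ m 0 hm (hτn n)
    · rintro ⟨n, hn⟩
      apply Subtype.ext
      change Complex.exp (lam x) = 1
      rw [hlam2 x _ 0 (hn ▸ hτn n)]
      exact Complex.exp_int_mul_two_pi_mul_I n
  · intro p hp
    rw [← hP0] at hp
    refine ⟨⟨p.1, hmemK 0 p hp⟩, rfl, ?_⟩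
    exact hlam2 _ _ 0 hp
  · intro V hV
    have : FiniteDimensional ℚ (V.map (gr lam)) := inferInstance
    -- contained in a stage
    have hstage : ∃ n, V.map (gr lam) ≤ P n := by
      obtain ⟨S, hS⟩ := (Module.Finite.iff_fg.1 this : (V.map (gr lam)).FG)
      have hSm : ∀ s ∈ (S : Set (ℂ × ℂ)), ∃ n, s ∈ P n := by
        intro s hs
        have : s ∈ V.map (gr lam) := by rw [← hS]; exact Submodule.subset_span hs
        obtain ⟨x, -, rfl⟩ := Submodule.mem_map.1 this
        exact hlam x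
      choose! g hg using hSm
      obtain ⟨n, hn⟩ := (S.finite_toSet.image g).bddAbove
      refine ⟨n, ?_⟩
      rw [← hS]
      apply Submodule.span_le.2
      intro s hs
      exact hmono (hn ⟨s, hs, rfl⟩) (hg s hs)
    obtain ⟨n, hn⟩ := hstage
    have h := hineq n _ hn
    have e : finrank ℚ (V.map (gr lam)) = finrank ℚ V :=
      (LinearEquiv.finrank_eq (Submodule.equivMapOfInjective (gr lam) (gr_inj lam) V)).symm
    rwa [e] at h
  · intro x y hxy
    obtain ⟨n, hn⟩ := hlam x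
    have := hcs n _ hn
    apply hlam2 y _ n
    rw [hxy]; exact this

/-- The rank inequality gives `OneCritical`. -/
theorem core {L : IntermediateField ℚ ℂ} {P Q : Submodule ℚ (ℂ × ℂ)} {s F : Set ℂ}
    (hB : Base P Q s) (hF : F.Finite) (hst : St P F) (D : ExpData L) (lam : L →ₗ[ℚ] ℂ)
    (hE : ∀ x, (D.E x : ℂ) = Complex.exp (lam x))
    (hrk : ∀ V : Submodule ℚ L, FiniteDimensional ℚ V →
        (finrank ℚ V : ℕ∞) + M.eRk (co (V.map (gr lam) ⊓ P)) ≤
        M.eRk (co (V.map (gr lam))) +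
          (finrank ℚ (V.map (gr lam) ⊓ P : Submodule ℚ (ℂ × ℂ)) : ℕ∞))
    (hQ1 : ∃ p ∈ Q, p.1 ∉ M.closure ∅) (hQ2 : ∃ p ∈ Q, Complex.exp p.2 ∉ M.closure ∅)
    (S : Set L) (hS : ∀ x ∈ S, ∃ p ∈ Q, p.1 = (x : ℂ)) : OneCritical D S := by
  -- the rank inequalities
  have hmain : ∀ (n : ℕ) (z : Fin n → L), LinearIndependent ℚ z →
      (n : ℕ∞) + M.eRk (co ((Submodule.span ℚ (range z)).map (gr lam) ⊓ P)) ≤
      M.eRk ((fun x : L => (x : ℂ)) '' (range z ∪ range fun j => D.E (z j))) +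
      (finrank ℚ ((Submodule.span ℚ (range z)).map (gr lam) ⊓ P : Submodule ℚ (ℂ × ℂ)) : ℕ∞) := by
    intro n z hz
    have h1 := hrk (Submodule.span ℚ (range z)) (FiniteDimensional.span_of_finite ℚ (finite_range z))
    have h2 : finrank ℚ (Submodule.span ℚ (range z)) = n := by
      have := finrank_span_eq_card hz
      simpa using this
    rw [h2] at h1
    refine h1.trans ?_
    gcongr
    rw [← M.eRk_closure_eq ((fun x : L => (x : ℂ)) '' _)]
    exact M.eRk_mono (co_gr_subset lam D.E hE z)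
  have hfinrk : ∀ V : Submodule ℚ (ℂ × ℂ), M.eRk (co (V ⊓ P)) ≠ ⊤ := fun V =>
    hst.rk_ne_top hF inf_le_right
  have hrk1 : ∀ (n : ℕ) (z : Fin n → L), LinearIndependent ℚ z →
      ¬ Q ≤ (Submodule.span ℚ (range z)).map (gr lam) →
      (n : ℕ∞) ≤
      M.eRk ((fun x : L => (x : ℂ)) '' (range z ∪ range fun j => D.E (z j))) := by
    intro n z hz hQ
    have h1 := hmain n z hz
    have h2 : (finrank ℚ ((Submodule.span ℚ (range z)).map (gr lam) ⊓ P :
        Submodule ℚ (ℂ × ℂ)) : ℕ∞) ≤ _ :=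
      hB.rk ((Submodule.span ℚ (range z)).map (gr lam) ⊓ P) inf_le_right
        (fun h => hQ (h.trans inf_le_left))
    have h3 := h1.trans (add_le_add_right h2 _)
    exact (ENat.add_le_add_iff_right (hfinrk _)).1 h3
  have hQ0 : Q ≠ ⊥ := by
    rintro rfl
    obtain ⟨p, hp, hp1⟩ := hQ1
    rw [(Submodule.mem_bot ℚ).1 hp] at hp1
    exact hp1 (by simpa using cl_ratCast ∅ 0)
  have hrk2 : ∀ (n : ℕ) (z : Fin n → L), LinearIndependent ℚ z →
      (n : ℕ∞) ≤
      M.eRk ((fun x : L => (x : ℂ)) '' (range z ∪ range fun j => D.E (z j))) + 1 := by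
    intro n z hz
    have h1 := hmain n z hz
    have h2 := hB.defect hQ0 ((Submodule.span ℚ (range z)).map (gr lam) ⊓ P) inf_le_right
    have h3 := h1.trans (add_le_add_right h2 _)
    rw [add_comm (M.eRk (co _)) 1, ← add_assoc] at h3
    exact (ENat.add_le_add_iff_right (hfinrk _)).1 h3
  -- the critical space
  have hcrit : ∀ W : Submodule ℚ L, Q ≤ W.map (gr lam) →
      ∀ p ∈ Q, ∃ x ∈ W, (x : ℂ) = p.1 ∧ lam x = p.2 := by
    intro W hW p hp
    obtain ⟨x, hx, hxp⟩ := Submodule.mem_map.1 (hW hp)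
    exact ⟨x, hx, congrArg Prod.fst hxp, congrArg Prod.snd hxp⟩
  -- coordinates of the span in the closure of the empty set
  have hspan1 : ∀ (n : ℕ) (a : Fin n → L), (∀ j, IsAlgebraic ℚ (a j)) →
      ∀ x ∈ Submodule.span ℚ (range a), (x : ℂ) ∈ M.closure ∅ := by
    intro n a ha x hx
    induction hx using Submodule.span_induction with
    | mem x hx =>
      obtain ⟨j, rfl⟩ := hx
      exact mem_cl_empty.2 ((ha j).algHom L.val)
    | zero => simpa using cl_ratCast ∅ 0
    | add x y _ _ hx hy => exact cl_add hx hy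
    | smul q x _ hx => exact cl_smul q hx
  have hspan2 : ∀ (n : ℕ) (a : Fin n → L), (∀ j, IsAlgebraic ℚ (D.E (a j))) →
      ∀ x ∈ Submodule.span ℚ (range a), Complex.exp (lam x) ∈ M.closure ∅ := by
    intro n a ha x hx
    induction hx using Submodule.span_induction with
    | mem x hx =>
      obtain ⟨j, rfl⟩ := hx
      rw [← hE]
      exact mem_cl_empty.2 ((ha j).algHom L.val)
    | zero =>
      rw [map_zero, Complex.exp_zero]
      simpa using cl_ratCast ∅ 1
    | add x y _ _ hx hy => rw [map_add]; exact cl_exp_add hx hy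
    | smul q x _ hx => rw [map_smul]; exact cl_exp_smul q hx
  refine ⟨?_, ?_, ?_, ?_⟩
  · intro n z hz hSz
    have h1 := hrk1 n z hz (fun hQW => hSz fun x hx => by
      obtain ⟨p, hp, hpx⟩ := hS x hx
      obtain ⟨y, hy, hy1, -⟩ := hcrit _ hQW p hp
      have : y = x := Subtype.ext (hy1.trans hpx)
      rwa [this] at hy)
    have h2 := trdeg_of_rk _ h1
    unfold SchanuelAt
    simpa using h2
  · intro n z hz
    cases n with
    | zero => unfold SchanuelAt; simp
    | succ m =>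
      have h1 := hrk2 (m + 1) z hz
      have h1' : (m : ℕ∞) ≤ M.eRk
          ((fun x : L => (x : ℂ)) '' (range z ∪ range fun j => D.E (z j))) := by
        have h3 : ((m + 1 : ℕ) : ℕ∞) = (m : ℕ∞) + 1 := by push_cast; rfl
        rw [h3] at h1
        exact (ENat.add_le_add_iff_right (by simp)).1 h1
      have h2 := trdeg_of_rk _ h1'
      unfold SchanuelAt
      push_cast
      gcongr
  · intro n a ha haa
    have h1 := hrk1 n a ha (fun hQW => by
      obtain ⟨p, hp, hp1⟩ := hQ1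
      obtain ⟨y, hy, hy1, -⟩ := hcrit _ hQW p hp
      exact hp1 (hy1 ▸ hspan1 n a haa y hy))
    apply algInd_of_rk'
    refine h1.trans ?_
    rw [← M.eRk_closure_eq (range _)]
    apply M.eRk_mono
    rintro _ ⟨x, hx | hx, rfl⟩
    · obtain ⟨j, rfl⟩ := hx
      exact cl_mono (empty_subset _) (mem_cl_empty.2 ((haa j).algHom L.val))
    · obtain ⟨j, rfl⟩ := hx
      exact cl_self ⟨j, rfl⟩
  · intro n a ha haa
    have h1 := hrk1 n a ha (fun hQW => by
      obtain ⟨p, hp, hp1⟩ := hQ2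
      obtain ⟨y, hy, -, hy2⟩ := hcrit _ hQW p hp
      exact hp1 (hy2 ▸ hspan2 n a haa y hy))
    apply algInd_of_rk'
    refine h1.trans ?_
    rw [← M.eRk_closure_eq (range _)]
    apply M.eRk_mono
    rintro _ ⟨x, hx | hx, rfl⟩
    · obtain ⟨j, rfl⟩ := hx
      exact cl_self ⟨j, rfl⟩
    · obtain ⟨j, rfl⟩ := hx
      exact cl_mono (empty_subset _) (mem_cl_empty.2 ((haa j).algHom L.val))

theorem modelC {t : ℕ → ℂ} (ht : FreeR t) {P Q : Submodule ℚ (ℂ × ℂ)} {s : Set ℂ} {N : ℕ}
    (hs : s ⊆ M.closure (t '' Iio N)) (hB : Base P Q s) (hc : CS P) (b : ℂ) (hbp : Pos b)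
    (hb : (2 * Complex.I * b, 2 * Real.pi * Complex.I) ∈ P)
    (hQ1 : ∃ p ∈ Q, p.1 ∉ M.closure ∅) (hQ2 : ∃ p ∈ Q, Complex.exp p.2 ∉ M.closure ∅) :
    ∃ (L : IntermediateField ℚ ℂ) (_ : IsAlgClosed L) (_ : Countable L) (D : ExpField L),
      (D.i : ℂ) = Complex.I ∧ (∀ x, (D.cj x : ℂ) = conj (x : ℂ)) ∧ (D.pi : ℂ) = b ∧
      (∀ p ∈ P, ∃ x : L, (x : ℂ) = p.1 ∧ (D.E x : ℂ) = Complex.exp p.2) ∧
      ∀ S : Set L, (∀ x ∈ S, ∃ p ∈ Q, p.1 = (x : ℂ)) → OneCritical D.toExpData S := by
  have hst : St P (t '' Iio N) := ⟨hB.fin, fun p hp => cl_le hs (hB.fst_mem p hp),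
    fun p hp => cl_le hs (hB.exp_mem p hp), hB.inj1, hB.inj2⟩
  obtain ⟨E, lam, hE, hsurj, hker, hP, hrk, hconj⟩ := extensionC ht hst hc _ hb
  have hcount : Countable (clF (range t)) := by
    have h1 := countable_closure (countable_range t)
    rw [cl_eq] at h1
    exact h1.to_subtype
  have hbK : b ∈ M.closure (range t) := by
    have h1 : 2 * Complex.I * b ∈ M.closure (range t) :=
      cl_mono (image_subset_range t _) (hst.fst_mem _ hb)
    have h2 : (2 * Complex.I : ℂ) ∈ M.closure (range t) := by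
      have := cl_mul (cl_ratCast (range t) 2) (cl_I (range t))
      simpa using this
    have h3 : (2 * Complex.I : ℂ) ≠ 0 := by simp
    rwa [cl_mul_iff h2 h3] at h1
  have hreal : ∀ y ∈ range t, conj y = y := by
    rintro _ ⟨n, rfl⟩; exact (ht.pos n).conj
  have hconjK : ∀ x : clF (range t), conj (x : ℂ) ∈ clF (range t) := fun x =>
    mem_cl.1 (EM.conj_mem hreal (mem_cl.2 x.2))
  let cj : clF (range t) ≃+* clF (range t) :=
    { toFun := fun x => ⟨conj (x : ℂ), hconjK x⟩
      invFun := fun x => ⟨conj (x : ℂ), hconjK x⟩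
      left_inv := fun x => Subtype.ext (Complex.conj_conj _)
      right_inv := fun x => Subtype.ext (Complex.conj_conj _)
      map_add' := fun x y => Subtype.ext (map_add conj (x : ℂ) (y : ℂ))
      map_mul' := fun x y => Subtype.ext (map_mul conj (x : ℂ) (y : ℂ)) }
  obtain ⟨r, hr, hbr⟩ := hbp
  have hsq : ((Real.sqrt r : ℝ) : ℂ) ^ 2 = b := by
    rw [hbr, ← Complex.ofReal_pow, Real.sq_sqrt hr.le]
  have hsqK : ((Real.sqrt r : ℝ) : ℂ) ∈ clF (range t) := by
    apply mem_cl.1
    apply cl_of_pow (n := 2) two_ne_zero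
    rw [hsq]; exact hbK
  let D : ExpField (clF (range t)) :=
    { E := E
      i := ⟨Complex.I, mem_cl.1 (cl_I _)⟩
      pi := ⟨b, mem_cl.1 hbK⟩
      E_add := by
        intro x y
        apply Subtype.ext
        have : ((E x * E y : clF (range t)) : ℂ) = E x * E y := rfl
        rw [this, hE, hE, hE, map_add, Complex.exp_add]
      E_ne_zero := by
        intro x h0
        have h1 : (E x : ℂ) = 0 := congrArg Subtype.val h0
        rw [hE] at h1
        exact Complex.exp_ne_zero _ h1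
      E_surj := hsurj
      i_sq := by
        apply Subtype.ext
        exact Complex.I_sq
      E_ker := by
        intro x
        rw [hker]
        constructor
        · rintro ⟨n, hn⟩
          refine ⟨n, ?_⟩
          apply Subtype.ext
          rw [hn]
          push_cast
          rfl
        · rintro ⟨n, hn⟩
          refine ⟨n, ?_⟩
          rw [hn]
          push_cast
          rfl
      cj := cj
      cj_cj := fun x => Subtype.ext (Complex.conj_conj _)
      cj_i := Subtype.ext Complex.conj_I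
      cj_pi := by
        apply Subtype.ext
        change conj b = b
        rw [hbr]; exact Complex.conj_ofReal r
      cj_E := by
        intro x
        apply Subtype.ext
        change conj (E x : ℂ) = (E (cj x) : ℂ)
        rw [hE, hE, hconj x (cj x) rfl, Complex.exp_conj]
      pi_pos := by
        refine ⟨⟨_, hsqK⟩, ?_, ?_, ?_⟩
        · intro h
          have h1 : ((Real.sqrt r : ℝ) : ℂ) = 0 := congrArg Subtype.val h
          rw [Complex.ofReal_eq_zero, Real.sqrt_eq_zero hr.le] at h1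
          exact hr.ne' h1
        · apply Subtype.ext
          exact Complex.conj_ofReal _
        · apply Subtype.ext
          exact hsq.symm }
  refine ⟨clF (range t), inferInstance, hcount, D, rfl, fun x => rfl, rfl, ?_, ?_⟩
  · intro p hp
    obtain ⟨x, hx1, hx2⟩ := hP p hp
    exact ⟨x, hx1, by rw [← hx2]; exact hE x⟩
  · intro S hS
    exact core hB ((finite_Iio N).image t) hst D.toExpData lam hE hrk hQ1 hQ2 S hS

end Pool.Agent.Helper35.EM
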