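import Pool.Agent.Helper35.EM.Conj

/-! Steps and chain preserving conjugation. -/

namespace Pool.Agent.Helper35.EM

open Set Module ComplexConjugate

/-- a free sequence of positive reals -/
structure FreeR (t : ℕ → ℂ) : Prop where
  free : Free t
  pos : ∀ n, Pos (t n)

theorem FreeR.conj_mem {t : ℕ → ℂ} (ht : FreeR t) {A : Set ℕ} {z : ℂ}
    (hz : z ∈ M.closure (t '' A)) : conj z ∈ M.closure (t '' A) :=
  EM.conj_mem (by rintro _ ⟨n, -, rfl⟩; exact (ht.pos n).conj) hz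

/-- the induction statement -/
structure Ext (t : ℕ → ℂ) (P P' : Submodule ℚ (ℂ × ℂ)) (N1 : ℕ) : Prop where
  le : P ≤ P'
  st : St P' (t '' Iio N1)
  ineq : Ineq P P'
  cs : CS P'

theorem Ext.trans {t : ℕ → ℂ} {P P' P'' : Submodule ℚ (ℂ × ℂ)} {N1 N2 : ℕ}
    (h1 : Ext t P P' N1) (h2 : Ext t P' P'' N2) : Ext t P P'' N2 :=
  ⟨h1.le.trans h2.le, h2.st, Ineq.trans ((finite_Iio N1).image t) h1.st h1.le h1.ineq h2.ineq,
    h2.cs⟩

theorem Ext.refl {t : ℕ → ℂ} {P : Submodule ℚ (ℂ × ℂ)} {N : ℕ} (h : St P (t '' Iio N))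
    (hc : CS P) : Ext t P P N :=
  ⟨le_rfl, h, Ineq.refl P, hc⟩

/-- forth for `x` real or imaginary -/
theorem forthC {t : ℕ → ℂ} (ht : FreeR t) {P : Submodule ℚ (ℂ × ℂ)} {N : ℕ}
    (h : St P (t '' Iio N)) (hc : CS P) {x : ℂ} {N' : ℕ} (hx : x ∈ M.closure (t '' Iio N'))
    (hcx : conj x = x ∨ conj x = -x) :
    ∃ (P' : Submodule ℚ (ℂ × ℂ)) (N1 : ℕ), Ext t P P' N1 ∧ ∃ z, (x, z) ∈ P' := by
  by_cases hxP : ∃ z, (x, z) ∈ P
  · exact ⟨P, N, Ext.refl h hc, hxP⟩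
  · set L := max N N' with hL
    have h' := h.mono (image_mono t (le_max_left N N'))
    have hx' := cl_mono (image_mono t (le_max_right N N')) hx
    have hsub := image_mono t (Nat.le_succ L)
    have hx'' := cl_mono hsub hx'
    obtain ⟨s, hs0, hs⟩ := ht.pos L
    have hsF : (s : ℂ) ∉ M.closure (t '' Iio L) := hs ▸ ht.free L
    have hsF' : (s : ℂ) ∈ M.closure (t '' Iio (L + 1)) := by
      rw [← hs]; exact cl_self ⟨L, Nat.lt_succ_self L, rfl⟩
    rcases hcx with hcx | hcx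
    · have hexp : Complex.exp ((Real.log s : ℝ) : ℂ) = s := by
        rw [← Complex.ofReal_exp, Real.exp_log hs0]
      obtain ⟨g1, g2⟩ := forthG hsub h' (w := ((Real.log s : ℝ) : ℂ)) hx'' hxP
        (by rw [hexp]; exact hsF') (by rw [hexp]; exact hsF)
      refine ⟨_, L + 1, ⟨le_sup_left, g1, g2, hc.sup (Or.inl ?_)⟩, _,
        Submodule.mem_sup_right (Submodule.mem_span_singleton_self _)⟩
      ext1
      · exact hcx
      · exact Complex.conj_ofReal _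
    · obtain ⟨θ, hθ1, hθ2⟩ := exists_unit hsF hsub hsF'
      obtain ⟨g1, g2⟩ := forthG hsub h' (w := (θ : ℂ) * Complex.I) hx'' hxP hθ2 hθ1
      refine ⟨_, L + 1, ⟨le_sup_left, g1, g2, hc.sup (Or.inr ?_)⟩, _,
        Submodule.mem_sup_right (Submodule.mem_span_singleton_self _)⟩
      ext1
      · exact hcx
      · change conj ((θ : ℂ) * Complex.I) = -((θ : ℂ) * Complex.I)
        rw [map_mul, Complex.conj_ofReal, Complex.conj_I, mul_neg]

/-- back for `w` real or imaginary -/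
theorem backC {t : ℕ → ℂ} (ht : FreeR t) {P : Submodule ℚ (ℂ × ℂ)} {N : ℕ}
    (h : St P (t '' Iio N)) (hc : CS P) {w : ℂ} {N' : ℕ}
    (hx : Complex.exp w ∈ M.closure (t '' Iio N')) (hcw : conj w = w ∨ conj w = -w) :
    ∃ (P' : Submodule ℚ (ℂ × ℂ)) (N1 : ℕ), Ext t P P' N1 ∧ ∃ u, (u, w) ∈ P' := by
  by_cases hxP : ∃ u, (u, w) ∈ P
  · exact ⟨P, N, Ext.refl h hc, hxP⟩
  · set L := max N N' with hL
    have h' := h.mono (image_mono t (le_max_left N N'))
    have hx' := cl_mono (image_mono t (le_max_right N N')) hx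
    have hsub := image_mono t (Nat.le_succ L)
    have hx'' := cl_mono hsub hx'
    have hsF : t L ∉ M.closure (t '' Iio L) := ht.free L
    have hsF' : t L ∈ M.closure (t '' Iio (L + 1)) := cl_self ⟨L, Nat.lt_succ_self L, rfl⟩
    rcases hcw with hcw | hcw
    · obtain ⟨g1, g2⟩ := backG hsub h' hsF' hsF hxP hx''
      refine ⟨_, L + 1, ⟨le_sup_left, g1, g2, hc.sup (Or.inl ?_)⟩, _,
        Submodule.mem_sup_right (Submodule.mem_span_singleton_self _)⟩
      ext1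
      · exact (ht.pos L).conj
      · exact hcw
    · have e1 : Complex.I * t L ∈ M.closure (t '' Iio (L + 1)) := cl_mul (cl_I _) hsF'
      have e2 : Complex.I * t L ∉ M.closure (t '' Iio L) :=
        fun hh => hsF ((cl_mul_iff (cl_I _) Complex.I_ne_zero).1 hh)
      obtain ⟨g1, g2⟩ := backG hsub h' e1 e2 hxP hx''
      refine ⟨_, L + 1, ⟨le_sup_left, g1, g2, hc.sup (Or.inr ?_)⟩, _,
        Submodule.mem_sup_right (Submodule.mem_span_singleton_self _)⟩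
      ext1
      · change conj (Complex.I * t L) = -(Complex.I * t L)
        rw [map_mul, Complex.conj_I, (ht.pos L).conj, neg_mul]
      · exact hcw

theorem bothC {t : ℕ → ℂ} (ht : FreeR t) {P : Submodule ℚ (ℂ × ℂ)} {N : ℕ}
    (h : St P (t '' Iio N)) (hc : CS P) {x : ℂ} {N' : ℕ} (hx : x ∈ M.closure (t '' Iio N')) :
    ∃ (P' : Submodule ℚ (ℂ × ℂ)) (N1 : ℕ), Ext t P P' N1 ∧
      (∃ z, (x, z) ∈ P') ∧ (x ≠ 0 → ∃ u, (u, Complex.log x) ∈ P') := by
  have hreal : ∀ y ∈ t '' Iio N', conj y = y := by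
    rintro _ ⟨n, -, rfl⟩; exact (ht.pos n).conj
  -- real part
  obtain ⟨P1, N1, e1, z1, hz1⟩ := forthC ht h hc (re_mem hreal hx) (Or.inl (Complex.conj_ofReal _))
  -- imaginary part
  obtain ⟨P2, N2, e2, z2, hz2⟩ := forthC ht e1.st e1.cs (x := (x.im : ℂ) * Complex.I)
    (cl_mul (im_mem hreal hx) (cl_I _))
    (Or.inr (by rw [map_mul, Complex.conj_ofReal, Complex.conj_I, mul_neg]))
  have hxz : (x, z1 + z2) ∈ P2 := by
    have := P2.add_mem (e2.le hz1) hz2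
    have e : ((x.re : ℂ), z1) + ((x.im : ℂ) * Complex.I, z2) = (x, z1 + z2) := by
      ext1
      · exact Complex.re_add_im x
      · rfl
    rwa [e] at this
  by_cases hx0 : x = 0
  · exact ⟨P2, N2, e1.trans e2, ⟨_, hxz⟩, fun hh => absurd hx0 hh⟩
  · have hn0 : 0 < ‖x‖ := norm_pos_iff.2 hx0
    have hnm := norm_mem hreal hx
    have hexp1 : Complex.exp ((Real.log ‖x‖ : ℝ) : ℂ) = ((‖x‖ : ℝ) : ℂ) := by
      rw [← Complex.ofReal_exp, Real.exp_log hn0]
    obtain ⟨P3, N3, e3, u1, hu1⟩ := backC ht e2.st e2.cs (w := ((Real.log ‖x‖ : ℝ) : ℂ))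
      (N' := N') (by rw [hexp1]; exact hnm) (Or.inl (Complex.conj_ofReal _))
    have hexp2 : Complex.exp ((x.arg : ℂ) * Complex.I) ∈ M.closure (t '' Iio N') := by
      have h1 := Complex.norm_mul_exp_arg_mul_I x
      have h2 : Complex.exp ((x.arg : ℂ) * Complex.I) = x / ((‖x‖ : ℝ) : ℂ) := by
        rw [eq_div_iff (by exact_mod_cast hn0.ne'), mul_comm]
        exact h1
      rw [h2]
      exact cl_div hx hnm
    obtain ⟨P4, N4, e4, u2, hu2⟩ := backC ht e3.st e3.cs (w := (x.arg : ℂ) * Complex.I)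
      (N' := N') hexp2
      (Or.inr (by rw [map_mul, Complex.conj_ofReal, Complex.conj_I, mul_neg]))
    refine ⟨P4, N4, ((e1.trans e2).trans e3).trans e4, ⟨_, e4.le (e3.le hxz)⟩, fun _ => ?_⟩
    refine ⟨u1 + u2, ?_⟩
    have := P4.add_mem (e4.le hu1) hu2
    have e : (u1, ((Real.log ‖x‖ : ℝ) : ℂ)) + (u2, (x.arg : ℂ) * Complex.I) =
        (u1 + u2, Complex.log x) := rfl
    rwa [e] at this

/-- a conjugation-stable stage -/
def StgC (t : ℕ → ℂ) : Type :=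
  {q : Submodule ℚ (ℂ × ℂ) × ℕ // St q.1 (t '' Iio q.2) ∧ CS q.1}

theorem chainC {t : ℕ → ℂ} (ht : FreeR t) {P0 : Submodule ℚ (ℂ × ℂ)} {N0 : ℕ}
    (h0 : St P0 (t '' Iio N0)) (hc0 : CS P0) :
    ∃ (P : ℕ → Submodule ℚ (ℂ × ℂ)) (N : ℕ → ℕ), P 0 = P0 ∧ Monotone P ∧
      (∀ n, St (P n) (t '' Iio (N n))) ∧ (∀ n, Ineq P0 (P n)) ∧ (∀ n, CS (P n)) ∧
      ∀ x ∈ M.closure (range t), ∃ n, (∃ z, (x, z) ∈ P n) ∧
        (x ≠ 0 → ∃ u, (u, Complex.log x) ∈ P n) := by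
  have hcount : (M.closure (range t)).Countable := countable_closure (countable_range t)
  have hne : (M.closure (range t)).Nonempty := ⟨_, cl_ratCast (range t) 0⟩
  obtain ⟨ex, hex⟩ := hcount.exists_eq_range hne
  have hexm : ∀ n, ex n ∈ M.closure (range t) := fun n => by rw [hex]; exact mem_range_self n
  have hstep : ∀ (n : ℕ) (q : StgC t), ∃ q' : StgC t, q.1.1 ≤ q'.1.1 ∧ Ineq q.1.1 q'.1.1 ∧
      (∃ z, (ex n, z) ∈ q'.1.1) ∧ (ex n ≠ 0 → ∃ u, (u, Complex.log (ex n)) ∈ q'.1.1) := by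
    rintro n ⟨⟨P, N⟩, hq, hqc⟩
    obtain ⟨N', hN'⟩ := mem_range_closure (hexm n)
    obtain ⟨P', N1, e, h4, h5⟩ := bothC ht hq hqc hN'
    exact ⟨⟨⟨P', N1⟩, e.st, e.cs⟩, e.le, e.ineq, h4, h5⟩
  choose nx hnx1 hnx2 hnx3 hnx4 using hstep
  let f : ℕ → StgC t := fun n => Nat.rec ⟨(P0, N0), h0, hc0⟩ (fun n q => nx n q) n
  have hfs : ∀ n, f (n + 1) = nx n (f n) := fun n => rfl
  have hmono : Monotone fun n => (f n).1.1 := monotone_nat_of_le_succ fun n => by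
    rw [hfs]; exact hnx1 n (f n)
  refine ⟨fun n => (f n).1.1, fun n => (f n).1.2, rfl, hmono, fun n => (f n).2.1, ?_,
    fun n => (f n).2.2, ?_⟩
  · intro n
    induction n with
    | zero => exact Ineq.refl P0
    | succ n ih =>
      have h00 : P0 ≤ (f n).1.1 := hmono (Nat.zero_le n)
      refine Ineq.trans ((finite_Iio _).image t) (f n).2.1 h00 ih ?_
      simp only [hfs]
      exact hnx2 n (f n)
  · intro x hx
    rw [hex] at hx
    obtain ⟨n, rfl⟩ := hx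
    refine ⟨n + 1, ?_, ?_⟩
    · simp only [hfs]; exact hnx3 n (f n)
    · simp only [hfs]; exact hnx4 n (f n)

end Pool.Agent.Helper35.EM
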