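import Mathlib

/-!
Spaces of pairs `(x, z)` of complex numbers, `x` a point of an exponential field under construction and
`z` a complex logarithm of the value `E x = exp z`.
-/

namespace Pool.Agent.Helper35.EM

open Set

/-- The matroid of algebraic independence over `ℚ` on `ℂ`. -/
noncomputable abbrev M : Matroid ℂ := AlgebraicIndependent.matroid ℚ ℂ

/-- The coordinates `x` and `exp z` of the pairs `(x, z)` in `V`. -/
def co (V : Submodule ℚ (ℂ × ℂ)) : Set ℂ := {a | ∃ p ∈ V, a = p.1 ∨ a = Complex.exp p.2}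

/-- A finite dimensional space `P` of pairs with coordinates algebraic over `ℚ(s)`, injective projections,
and `dim U ≤ rk (co U)` for all subspaces `U` of `P` not containing `Q`. -/
structure Base (P Q : Submodule ℚ (ℂ × ℂ)) (s : Set ℂ) : Prop where
  fin : FiniteDimensional ℚ P
  le : Q ≤ P
  fst_mem : ∀ p ∈ P, p.1 ∈ M.closure s
  exp_mem : ∀ p ∈ P, Complex.exp p.2 ∈ M.closure s
  inj1 : ∀ p ∈ P, p.1 = 0 → p = 0
  inj2 : ∀ p ∈ P, p.2 = 0 → p = 0
  rk : ∀ U ≤ P, ¬ Q ≤ U → (Module.finrank ℚ U : ℕ∞) ≤ M.eRk (co U)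

/-! ### The closure is an algebraically closed field -/

/-- The algebraic closure of `ℚ(s)` in `ℂ`. -/
noncomputable def clF (s : Set ℂ) : IntermediateField ℚ ℂ :=
  (algebraicClosure (IntermediateField.adjoin ℚ s) ℂ).restrictScalars ℚ

theorem mem_clF {s : Set ℂ} {z : ℂ} :
    z ∈ clF s ↔ IsAlgebraic (IntermediateField.adjoin ℚ s) z := by
  rw [clF, IntermediateField.mem_restrictScalars, mem_algebraicClosure_iff]

theorem mem_cl {s : Set ℂ} {z : ℂ} : z ∈ M.closure s ↔ z ∈ clF s := by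
  rw [AlgebraicIndependent.matroid_closure_eq, mem_clF, IntermediateField.isAlgebraic_adjoin_iff]
  exact Subalgebra.mem_algebraicClosure ..

theorem cl_eq (s : Set ℂ) : M.closure s = (clF s : Set ℂ) := by
  ext z; exact mem_cl

instance (s : Set ℂ) : IsAlgClosed (clF s) := by
  have : IsAlgClosed (algebraicClosure (IntermediateField.adjoin ℚ s) ℂ) :=
    (algebraicClosure.isAlgClosure (IntermediateField.adjoin ℚ s) ℂ).isAlgClosed
  exact this

theorem cl_add {s : Set ℂ} {x y : ℂ} (hx : x ∈ M.closure s) (hy : y ∈ M.closure s) :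
    x + y ∈ M.closure s := by
  rw [mem_cl] at *; exact add_mem hx hy

theorem cl_sub {s : Set ℂ} {x y : ℂ} (hx : x ∈ M.closure s) (hy : y ∈ M.closure s) :
    x - y ∈ M.closure s := by
  rw [mem_cl] at *; exact sub_mem hx hy

theorem cl_neg {s : Set ℂ} {x : ℂ} (hx : x ∈ M.closure s) : -x ∈ M.closure s := by
  rw [mem_cl] at *; exact neg_mem hx

theorem cl_mul {s : Set ℂ} {x y : ℂ} (hx : x ∈ M.closure s) (hy : y ∈ M.closure s) :
    x * y ∈ M.closure s := by
  rw [mem_cl] at *; exact mul_mem hx hy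

theorem cl_inv {s : Set ℂ} {x : ℂ} (hx : x ∈ M.closure s) : x⁻¹ ∈ M.closure s := by
  rw [mem_cl] at *; exact inv_mem hx

theorem cl_div {s : Set ℂ} {x y : ℂ} (hx : x ∈ M.closure s) (hy : y ∈ M.closure s) :
    x / y ∈ M.closure s := by
  rw [mem_cl] at *; exact div_mem hx hy

theorem cl_ratCast (s : Set ℂ) (q : ℚ) : (q : ℂ) ∈ M.closure s := by
  rw [mem_cl]; exact (clF s).algebraMap_mem q

theorem cl_smul {s : Set ℂ} {x : ℂ} (q : ℚ) (hx : x ∈ M.closure s) : q • x ∈ M.closure s := by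
  rw [mem_cl] at *; exact (clF s).smul_mem hx

theorem cl_zpow {s : Set ℂ} {x : ℂ} (n : ℤ) (hx : x ∈ M.closure s) : x ^ n ∈ M.closure s := by
  rw [mem_cl] at *; exact zpow_mem hx n

theorem cl_pow {s : Set ℂ} {x : ℂ} (n : ℕ) (hx : x ∈ M.closure s) : x ^ n ∈ M.closure s := by
  rw [mem_cl] at *; exact pow_mem hx n

/-- roots -/
theorem cl_of_pow {s : Set ℂ} {x : ℂ} {n : ℕ} (hn : n ≠ 0) (hx : x ^ n ∈ M.closure s) :
    x ∈ M.closure s := by
  rw [mem_cl, mem_clF] at *
  exact IsAlgebraic.of_pow (Nat.pos_of_ne_zero hn) hx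

theorem cl_I (s : Set ℂ) : Complex.I ∈ M.closure s := by
  apply cl_of_pow (n := 2) two_ne_zero
  rw [Complex.I_sq]
  have := cl_ratCast s (-1)
  simpa using this

theorem cl_self {s : Set ℂ} {x : ℂ} (hx : x ∈ s) : x ∈ M.closure s := by
  rw [mem_cl, mem_clF]
  exact isAlgebraic_algebraMap (⟨x, IntermediateField.subset_adjoin ℚ s hx⟩ :
    IntermediateField.adjoin ℚ s)

theorem cl_mono {s t : Set ℂ} (h : s ⊆ t) : M.closure s ⊆ M.closure t :=
  M.closure_subset_closure h

/-- idempotence in the form used -/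
theorem cl_le {s t : Set ℂ} (h : ∀ x ∈ s, x ∈ M.closure t) : M.closure s ⊆ M.closure t :=
  Matroid.closure_subset_closure_of_subset_closure h

theorem cl_mul_iff {s : Set ℂ} {x y : ℂ} (hx : x ∈ M.closure s) (h0 : x ≠ 0) :
    x * y ∈ M.closure s ↔ y ∈ M.closure s :=
  ⟨fun h => by simpa [h0] using cl_mul (cl_inv hx) h, fun h => cl_mul hx h⟩

theorem cl_add_iff {s : Set ℂ} {x y : ℂ} (hx : x ∈ M.closure s) :
    x + y ∈ M.closure s ↔ y ∈ M.closure s :=
  ⟨fun h => by simpa using cl_sub h hx, fun h => cl_add hx h⟩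

/-- exchange -/
theorem cl_exch {s : Set ℂ} {x y : ℂ} (h : x ∈ M.closure (insert y s)) (h' : x ∉ M.closure s) :
    y ∈ M.closure (insert x s) :=
  (M.closure_exchange ⟨h, h'⟩).1

/-- exponentials of rational multiples -/
theorem cl_exp_smul {s : Set ℂ} {z : ℂ} (q : ℚ) (h : Complex.exp z ∈ M.closure s) :
    Complex.exp (q • z) ∈ M.closure s := by
  apply cl_of_pow (n := q.den) q.den_nz
  rw [← Complex.exp_nat_mul]
  have : (q.den : ℂ) * (q • z) = q.num * z := by
    rw [Algebra.smul_def, ← mul_assoc]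
    congr 1
    have : (q.den : ℚ) * q = q.num := by
      rw [mul_comm]; exact Rat.mul_den_eq_num q
    rw [eq_ratCast]
    exact_mod_cast congrArg (fun x : ℚ => (x : ℂ)) this
  rw [this, Complex.exp_int_mul]
  exact cl_zpow _ h

theorem cl_exp_add {s : Set ℂ} {z w : ℂ} (h : Complex.exp z ∈ M.closure s)
    (h' : Complex.exp w ∈ M.closure s) : Complex.exp (z + w) ∈ M.closure s := by
  rw [Complex.exp_add]; exact cl_mul h h'

/-- If `exp (q z + w)` is in the closure, `q ≠ 0` and `exp w` is in it, then so is `exp z`. -/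
theorem cl_exp_of_smul_add {s : Set ℂ} {z w : ℂ} {q : ℚ} (hq : q ≠ 0)
    (h : Complex.exp (q • z + w) ∈ M.closure s) (h' : Complex.exp w ∈ M.closure s) :
    Complex.exp z ∈ M.closure s := by
  have h1 : Complex.exp (q • z) ∈ M.closure s := by
    have := cl_div h h'
    rwa [Complex.exp_add, mul_div_cancel_right₀ _ (Complex.exp_ne_zero _)] at this
  have := cl_exp_smul q⁻¹ h1
  rwa [smul_smul, inv_mul_cancel₀ hq, one_smul] at this

theorem cl_exp_two_pi_I (s : Set ℂ) : Complex.exp (2 * Real.pi * Complex.I) ∈ M.closure s := by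
  rw [Complex.exp_two_pi_mul_I]
  have := cl_ratCast s 1
  simpa using this

/-! ### Rank certificates -/

theorem one_le_rk {V : Set ℂ} {x : ℂ} (hx : x ∈ V) (h : x ∉ M.closure ∅) :
    (1 : ℕ∞) ≤ M.eRk V := by
  have h1 : M.eRk (insert x ∅) = M.eRk ∅ + 1 :=
    Matroid.eRk_insert_eq_add_one ⟨mem_univ _, h⟩
  rw [M.eRk_empty, zero_add] at h1
  rw [← h1]
  exact M.eRk_mono (by simpa using hx)

theorem two_le_rk {V : Set ℂ} {x y : ℂ} (hx : x ∈ V) (hy : y ∈ V) (h : x ∉ M.closure ∅)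
    (h' : y ∉ M.closure {x}) : (2 : ℕ∞) ≤ M.eRk V := by
  have h1 : M.eRk (insert x ∅) = M.eRk ∅ + 1 :=
    Matroid.eRk_insert_eq_add_one ⟨mem_univ _, h⟩
  have h2 : M.eRk (insert y {x}) = M.eRk {x} + 1 :=
    Matroid.eRk_insert_eq_add_one ⟨mem_univ _, h'⟩
  rw [M.eRk_empty, zero_add] at h1
  rw [show (insert x ∅ : Set ℂ) = {x} by simp] at h1
  rw [h1] at h2
  calc (2 : ℕ∞) = 1 + 1 := by norm_num
    _ = M.eRk (insert y {x}) := h2.symm
    _ ≤ _ := M.eRk_mono (by
      intro z hz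
      rcases hz with rfl | hz
      · exact hy
      · rcases hz with rfl
        exact hx)

theorem three_le_rk {V : Set ℂ} {x y z : ℂ} (hx : x ∈ V) (hy : y ∈ V) (hz : z ∈ V)
    (h : x ∉ M.closure ∅) (h' : y ∉ M.closure {x}) (h'' : z ∉ M.closure {x, y}) :
    (3 : ℕ∞) ≤ M.eRk V := by
  have h1 : M.eRk (insert x ∅) = M.eRk ∅ + 1 :=
    Matroid.eRk_insert_eq_add_one ⟨mem_univ _, h⟩
  have h2 : M.eRk (insert y {x}) = M.eRk {x} + 1 :=
    Matroid.eRk_insert_eq_add_one ⟨mem_univ _, h'⟩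
  have h3 : M.eRk (insert z {x, y}) = M.eRk {x, y} + 1 :=
    Matroid.eRk_insert_eq_add_one ⟨mem_univ _, h''⟩
  rw [M.eRk_empty, zero_add] at h1
  rw [show (insert x ∅ : Set ℂ) = {x} by simp] at h1
  rw [h1] at h2
  rw [show ({x, y} : Set ℂ) = {y, x} from Set.pair_comm x y, h2] at h3
  calc (3 : ℕ∞) = 1 + 1 + 1 := by norm_num
    _ = M.eRk (insert z {y, x}) := h3.symm
    _ ≤ _ := M.eRk_mono (by
      intro w hw
      rcases hw with rfl | hw
      · exact hz
      · rcases hw with rfl | hw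
        · exact hy
        · rcases hw with rfl
          exact hx)

end Pool.Agent.Helper35.EM
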