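import Pool.Agent.Helper35.EM.Chain

/-! The exponential field. -/

namespace Pool.Agent.Helper35.EM

open Set Module

/-- The graph of `lam`. -/
noncomputable def gr {L : IntermediateField ℚ ℂ} (lam : L →ₗ[ℚ] ℂ) : L →ₗ[ℚ] ℂ × ℂ :=
  LinearMap.prod L.val.toLinearMap lam

@[simp] theorem gr_apply {L : IntermediateField ℚ ℂ} (lam : L →ₗ[ℚ] ℂ) (x : L) :
    gr lam x = ((x : ℂ), lam x) := rfl

theorem gr_inj {L : IntermediateField ℚ ℂ} (lam : L →ₗ[ℚ] ℂ) : Function.Injective (gr lam) := by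
  intro x y h
  have := congrArg Prod.fst h
  exact Subtype.ext this

theorem extension {t : ℕ → ℂ} (ht : Free t) {P0 : Submodule ℚ (ℂ × ℂ)} {N0 : ℕ}
    (h0 : St P0 (t '' Iio N0)) (τ : ℂ) (hτ : (τ, 2 * Real.pi * Complex.I) ∈ P0) :
    ∃ (E : clF (range t) → clF (range t)) (lam : clF (range t) →ₗ[ℚ] ℂ),
      (∀ x, (E x : ℂ) = Complex.exp (lam x)) ∧
      (∀ y, y ≠ 0 → ∃ x, E x = y) ∧
      (∀ x, E x = 1 ↔ ∃ n : ℤ, (x : ℂ) = n * τ) ∧
      (∀ p ∈ P0, ∃ x : clF (range t), (x : ℂ) = p.1 ∧ lam x = p.2) ∧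
      (∀ V : Submodule ℚ (clF (range t)), FiniteDimensional ℚ V →
        (finrank ℚ V : ℕ∞) + M.eRk (co (V.map (gr lam) ⊓ P0)) ≤
        M.eRk (co (V.map (gr lam))) +
          (finrank ℚ (V.map (gr lam) ⊓ P0 : Submodule ℚ (ℂ × ℂ)) : ℕ∞)) := by
  obtain ⟨P, N, hP0, hmono, hst, hineq, hex⟩ := chain ht h0
  -- uniqueness
  have huniq : ∀ (x z z' : ℂ) (n m : ℕ), (x, z) ∈ P n → (x, z') ∈ P m → z = z' := by
    intro x z z' n m h1 h2
    have h1' := hmono (le_max_left n m) h1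
    have h2' := hmono (le_max_right n m) h2
    have h3 := (P (max n m)).sub_mem h1' h2'
    have h4 := (hst (max n m)).inj1 _ h3 (by simp)
    have h5 := congrArg Prod.snd h4
    simpa [sub_eq_zero] using h5
  have huniq2 : ∀ (x x' z : ℂ) (n m : ℕ), (x, z) ∈ P n → (x', z) ∈ P m → x = x' := by
    intro x x' z n m h1 h2
    have h1' := hmono (le_max_left n m) h1
    have h2' := hmono (le_max_right n m) h2
    have h3 := (P (max n m)).sub_mem h1' h2'
    have h4 := (hst (max n m)).inj2 _ h3 (by simp)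
    have h5 := congrArg Prod.fst h4
    simpa [sub_eq_zero] using h5
  have hex1 : ∀ x : clF (range t), ∃ z : ℂ, ∃ n, ((x : ℂ), z) ∈ P n := by
    intro x
    obtain ⟨n, ⟨z, hz⟩, -⟩ := hex x (mem_cl.2 x.2)
    exact ⟨z, n, hz⟩
  choose l0 hl0 using hex1
  have hmemK : ∀ n, ∀ p ∈ P n, p.1 ∈ clF (range t) := by
    intro n p hp
    exact mem_cl.1 (cl_mono (image_subset_range t _) ((hst n).fst_mem p hp))
  have hmemE : ∀ n, ∀ p ∈ P n, Complex.exp p.2 ∈ clF (range t) := by
    intro n p hp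
    exact mem_cl.1 (cl_mono (image_subset_range t _) ((hst n).exp_mem p hp))
  let lam : clF (range t) →ₗ[ℚ] ℂ :=
    { toFun := l0
      map_add' := by
        intro x y
        obtain ⟨n, hn⟩ := hl0 x
        obtain ⟨m, hm⟩ := hl0 y
        obtain ⟨k, hk⟩ := hl0 (x + y)
        have h1 := hmono (le_max_left n m) hn
        have h2 := hmono (le_max_right n m) hm
        have h3 := (P (max n m)).add_mem h1 h2
        exact huniq _ _ _ k (max n m) hk h3
      map_smul' := by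
        intro q x
        obtain ⟨n, hn⟩ := hl0 x
        obtain ⟨k, hk⟩ := hl0 (q • x)
        have h3 := (P n).smul_mem q hn
        exact huniq _ _ _ k n hk h3 }
  have hlam : ∀ x : clF (range t), ∃ n, ((x : ℂ), lam x) ∈ P n := hl0
  have hlam2 : ∀ (x : clF (range t)) (z : ℂ) (n : ℕ), ((x : ℂ), z) ∈ P n → lam x = z := by
    intro x z n h
    obtain ⟨m, hm⟩ := hlam x
    exact huniq _ _ _ m n hm h
  refine ⟨fun x => ⟨Complex.exp (lam x), ?_⟩, lam, fun x => rfl, ?_, ?_, ?_, ?_⟩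
  · obtain ⟨n, hn⟩ := hlam x
    exact hmemE n _ hn
  · intro y hy
    have hy' : (y : ℂ) ≠ 0 := fun h => hy (Subtype.ext h)
    obtain ⟨n, -, h2⟩ := hex y (mem_cl.2 y.2)
    obtain ⟨u, hu⟩ := h2 hy'
    refine ⟨⟨u, hmemK n _ hu⟩, ?_⟩
    apply Subtype.ext
    change Complex.exp (lam ⟨u, _⟩) = y
    rw [hlam2 ⟨u, hmemK n _ hu⟩ _ n hu, Complex.exp_log hy']
  · intro x
    have hτn : ∀ n : ℤ, ((n : ℂ) * τ, (n : ℂ) * (2 * Real.pi * Complex.I)) ∈ P 0 := by
      intro n
      have := (P 0).smul_mem (n : ℚ) (hP0 ▸ hτ)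
      have e : (n : ℚ) • (τ, 2 * (Real.pi : ℂ) * Complex.I) =
          ((n : ℂ) * τ, (n : ℂ) * (2 * Real.pi * Complex.I)) := by
        ext1
        · change (n : ℚ) • τ = _
          rw [Algebra.smul_def]; simp
        · change (n : ℚ) • (2 * (Real.pi : ℂ) * Complex.I) = _
          rw [Algebra.smul_def]; simp
      rwa [e] at this
    constructor
    · intro h
      have h1 : Complex.exp (lam x) = 1 := congrArg Subtype.val h
      obtain ⟨n, hn⟩ := Complex.exp_eq_one_iff.1 h1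
      refine ⟨n, ?_⟩
      obtain ⟨m, hm⟩ := hlam x
      rw [hn] at hm
      exact huniq2 _ _ _ m 0 hm (hτn n)
    · rintro ⟨n, hn⟩
      apply Subtype.ext
      change Complex.exp (lam x) = 1
      rw [hlam2 x _ 0 (hn ▸ hτn n)]
      exact Complex.exp_int_mul_two_pi_mul_I n
  · intro p hp
    rw [← hP0] at hp
    refine ⟨⟨p.1, hmemK 0 p hp⟩, rfl, ?_⟩
    exact hlam2 _ _ 0 hp
  · intro V hV
    have : FiniteDimensional ℚ (V.map (gr lam)) := inferInstance
    -- contained in a stage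
    have hstage : ∃ n, V.map (gr lam) ≤ P n := by
      obtain ⟨S, hS⟩ := (Module.Finite.iff_fg.1 this : (V.map (gr lam)).FG)
      have hSm : ∀ s ∈ (S : Set (ℂ × ℂ)), ∃ n, s ∈ P n := by
        intro s hs
        have : s ∈ V.map (gr lam) := by rw [← hS]; exact Submodule.subset_span hs
        obtain ⟨x, -, rfl⟩ := Submodule.mem_map.1 this
        exact hlam x
      choose! g hg using hSm
      obtain ⟨n, hn⟩ := (S.finite_toSet.image g).bddAbove
      refine ⟨n, ?_⟩
      rw [← hS]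
      apply Submodule.span_le.2
      intro s hs
      exact hmono (hn ⟨s, hs, rfl⟩) (hg s hs)
    obtain ⟨n, hn⟩ := hstage
    have h := hineq n _ hn
    have e : finrank ℚ (V.map (gr lam)) = finrank ℚ V :=
      LinearMap.finrank_map_eq_of_injective_aux (gr_inj lam) V
    rwa [e] at h
where
  LinearMap.finrank_map_eq_of_injective_aux {L : IntermediateField ℚ ℂ} {f : L →ₗ[ℚ] ℂ × ℂ}
      (hf : Function.Injective f) (V : Submodule ℚ L) :
      finrank ℚ (V.map f) = finrank ℚ V :=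
    (LinearEquiv.finrank_eq (Submodule.equivMapOfInjective f hf V)).symm

end Pool.Agent.Helper35.EM
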