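import Pool.Agent.Helper35.EM.FiveB
import Pool.Agent.Helper56.EM.B3
import Pool.Agent.Helper56.EM.B4

/-! Closeness and transcendence. -/

namespace Pool.Agent.Helper35.EM

open Complex Module ComplexConjugate

theorem finish {e p l u v w ε : ℝ} {k : Fin 5} (h : HasModel e p l u v w k) {r : ℚ}
    (he : |e - Real.exp 1| < ε) (hp : |p - Real.pi| < ε) (hl : |l - Real.log Real.pi| < ε)
    (hnum : ∀ j, |(![p + e, p * e, v, u, w] : Fin 5 → ℝ) j - val j| < ε)
    (hk : (![p + e, p * e, v, u, w] : Fin 5 → ℝ) k = r)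
    (htr : ∀ j, j ≠ k → (![p + e, p * e, v, u, w] : Fin 5 → ℝ) j ∉ RA ∅) :
    ∃ (L : IntermediateField ℚ ℂ) (_ : IsAlgClosed L) (_ : Countable L) (D : ExpField L) (l : L),
      Good ε k r D l := by
  obtain ⟨L, g1, g2, D, l', hi, hcj, hpi, hE1, hl1, hEl, hE2, hE3, hE4, hS⟩ := h.ex
  have hn : ∀ j, ((num D.toExpData l' j : L) : ℂ) = (((![p + e, p * e, v, u, w] : Fin 5 → ℝ) j : ℝ) : ℂ) := by
    intro j
    fin_cases j
    · change (D.pi : ℂ) + (D.E 1 : ℂ) = ((p + e : ℝ) : ℂ)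
      rw [hpi, hE1, ofReal_add]
    · change (D.pi : ℂ) * (D.E 1 : ℂ) = ((p * e : ℝ) : ℂ)
      rw [hpi, hE1, ofReal_mul]
    · exact hE3
    · exact hE2
    · exact hE4
  refine ⟨L, g1, g2, D, l', hi, hcj, hEl, ?_, ?_, ?_, ?_, ?_, ?_, ?_, hS⟩
  · apply Subtype.ext
    rw [hcj, hl1]; exact conj_ofReal _
  · rw [hE1]; exact near_of he
  · rw [hpi]; exact near_of hp
  · rw [hl1]; exact near_of hl
  · intro j
    rw [hn]; exact near_of (hnum j)
  · apply Subtype.ext
    rw [hn, hk]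
    have : ((r : L) : ℂ) = (r : ℂ) := map_ratCast L.val r
    rw [this]
    exact ofReal_ratCast r
  · intro j hj hA
    apply htr j hj
    rw [mem_RA, ← hn]
    exact mem_cl_empty.2 (hA.algHom L.val)

/-- closeness of sum and product -/
theorem close_all {e p u v w ε : ℝ} (hε : 0 < ε) (hε1 : ε ≤ 1)
    (he : |e - Real.exp 1| < ε / 8) (hp : |p - Real.pi| < ε / 8)
    (hv : |v - Real.pi ^ Real.exp 1| < ε / 8) (hu : |u - Real.exp 1 ^ Real.exp 1| < ε / 8)
    (hw : |w - Real.pi ^ Real.pi| < ε / 8) (j : Fin 5) :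
    |(![p + e, p * e, v, u, w] : Fin 5 → ℝ) j - val j| < ε := by
  have h3 : Real.exp 1 < 3 := lt_trans Real.exp_one_lt_d9 (by norm_num)
  have h4 : Real.pi < 4 := lt_of_lt_of_le Real.pi_lt_d2 (by norm_num)
  have h0 : 0 < Real.exp 1 := Real.exp_pos 1
  have h0' : 0 < Real.pi := Real.pi_pos
  fin_cases j
  · change |p + e - (Real.pi + Real.exp 1)| < ε
    rw [abs_lt] at *
    constructor <;> linarith [he.1, he.2, hp.1, hp.2]
  · change |p * e - Real.pi * Real.exp 1| < ε
    have h5 : p * e - Real.pi * Real.exp 1 =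
        (p - Real.pi) * e + Real.pi * (e - Real.exp 1) := by ring
    rw [h5]
    have h6 : |e| ≤ 4 := by
      rw [abs_le]
      rw [abs_lt] at he
      constructor <;> linarith [he.1, he.2]
    calc |(p - Real.pi) * e + Real.pi * (e - Real.exp 1)|
        ≤ |(p - Real.pi) * e| + |Real.pi * (e - Real.exp 1)| := abs_add_le _ _
      _ = |p - Real.pi| * |e| + Real.pi * |e - Real.exp 1| := by
          rw [abs_mul, abs_mul, abs_of_pos h0']
      _ ≤ |p - Real.pi| * 4 + 4 * |e - Real.exp 1| := by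
          gcongr
      _ < ε := by linarith
  · change |v - Real.pi ^ Real.exp 1| < ε
    linarith
  · change |u - Real.exp 1 ^ Real.exp 1| < ε
    linarith
  · change |w - Real.pi ^ Real.pi| < ε
    linarith

end Pool.Agent.Helper35.EM
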