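import Pool.Agent.Helper35.EM.Full

/-! The five controlled models. -/

namespace Pool.Agent.Helper35.EM

open Complex Module ComplexConjugate

/-- the real numbers algebraic over `ℚ(F)` -/
noncomputable def RA (F : Set ℂ) : Subfield ℝ := (clF F).toSubfield.comap Complex.ofRealHom

theorem mem_RA {F : Set ℂ} {x : ℝ} : x ∈ RA F ↔ (x : ℂ) ∈ M.closure F := by
  rw [mem_cl]; rfl

theorem RA_rat {F : Set ℂ} (q : ℚ) : (q : ℝ) ∈ RA F := SubfieldClass.ratCast_mem _ q

theorem RA_mono {F G : Set ℂ} (h : F ⊆ G) : RA F ≤ RA G := fun _ hx =>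
  mem_RA.2 (cl_mono h (mem_RA.1 hx))

theorem lin_RA {F : Set ℂ} {l c d : ℝ} (hl : l ∉ RA F) (hc : c ∈ RA F) (hd : d ∈ RA F)
    (h : c * l = d) : c = 0 := by
  by_contra hc0
  apply hl
  have : l = d / c := by
    rw [eq_div_iff hc0, mul_comm]; exact h
  rw [this]
  exact div_mem hd hc

theorem not_rat {F : Set ℂ} {x : ℝ} (hx : x ∉ RA F) (q : ℚ) : x ≠ q := by
  rintro rfl
  exact hx (RA_rat q)

/-- the sets of the first generators -/
abbrev FF (t : ℕ → ℝ) (n : ℕ) : Set ℂ := (fun k => (t k : ℂ)) '' Set.Iio n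

theorem FF_mem {t : ℕ → ℝ} {k n : ℕ} (h : k < n) : t k ∈ RA (FF t n) :=
  mem_RA.2 (cl_self ⟨k, h, rfl⟩)

theorem FF_not {t : ℕ → ℝ} (ht : FreeR fun n => (t n : ℂ)) {k n : ℕ} (h : n ≤ k) :
    t k ∉ RA (FF t n) := fun hh =>
  ht.free k (cl_mono (image_mono (fun k => (t k : ℂ)) h) (mem_RA.1 hh))

theorem FF_not_empty {t : ℕ → ℝ} (ht : FreeR fun n => (t n : ℂ)) (k : ℕ) :
    t k ∉ RA ∅ := fun hh =>
  ht.free k (cl_mono (Set.empty_subset _) (mem_RA.1 hh))

theorem mem_span2 {x a b : ℝ} (h : x ∈ Submodule.span ℚ {a, b}) :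
    ∃ α β : ℚ, x = α * a + β * b := by
  obtain ⟨α, β, h⟩ := Submodule.mem_span_pair.1 h
  exact ⟨α, β, by rw [← h, Rat.smul_def, Rat.smul_def]⟩

theorem mem_span3 {x a b c : ℝ} (h : x ∈ Submodule.span ℚ {a, b, c}) :
    ∃ α β γ : ℚ, x = α * a + β * b + γ * c := by
  obtain ⟨α, β, γ, h⟩ := Submodule.mem_span_triple.1 h
  exact ⟨α, β, γ, by rw [← h, Rat.smul_def, Rat.smul_def, Rat.smul_def]⟩

theorem mem_span4 {x a b c d : ℝ} (h : x ∈ Submodule.span ℚ {a, b, c, d}) :
    ∃ α β γ δ : ℚ, x = α * a + β * b + γ * c + δ * d := by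
  obtain ⟨α, y, hy, h⟩ := Submodule.mem_span_insert.1 h
  obtain ⟨β, γ, δ, h'⟩ := mem_span3 hy
  exact ⟨α, β, γ, δ, by rw [h, h', Rat.smul_def]; ring⟩

/-- `log p` is not a second coordinate over `(1, log e)`, `(2 I p, 2 π I)` unless `p ^ n = e ^ m` -/
theorem log_not {e p : ℝ} (he : 0 < e) (hp : 0 < p)
    (hind : ∀ (n : ℕ) (m : ℤ), 0 < n → p ^ n ≠ e ^ m) :
    ¬ ∃ u, (u, ((Real.log p : ℝ) : ℂ)) ∈ Submodule.span ℚ
      {((1 : ℂ), ((Real.log e : ℝ) : ℂ)), (2 * I * (p : ℂ), 2 * (Real.pi : ℂ) * I)} := by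
  rintro ⟨u, hu⟩
  obtain ⟨x, y, hxy⟩ := Submodule.mem_span_pair.1 hu
  have h2 : x • ((Real.log e : ℝ) : ℂ) + y • (2 * (Real.pi : ℂ) * I) =
      ((Real.log p : ℝ) : ℂ) := congrArg Prod.snd hxy
  have h3 : (x : ℝ) * Real.log e = Real.log p := by
    have := congrArg Complex.re h2
    rw [Algebra.smul_def, Algebra.smul_def] at this
    simpa using this
  have hn : (0 : ℝ) < x.den := by exact_mod_cast x.den_pos
  have h4 : (x.den : ℝ) * Real.log p = (x.num : ℝ) * Real.log e := by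
    rw [← h3, ← mul_assoc]
    congr 1
    have := Rat.mul_den_eq_num x
    rw [mul_comm] at this
    exact_mod_cast this
  apply hind x.den x.num x.den_pos
  have h5 : Real.log (p ^ x.den) = Real.log (e ^ x.num) := by
    rw [Real.log_pow, Real.log_zpow]; exact h4
  exact Real.log_injOn_pos (Set.mem_Ioi.2 (pow_pos hp _)) (Set.mem_Ioi.2 (zpow_pos he _)) h5

/-- `e` transcendental: `r - e` is multiplicatively independent of `e` -/
theorem ind_sub {e : ℝ} (he : e ∉ RA ∅) {r : ℚ} (hr : r ≠ 0) (n : ℕ) (m : ℤ) (hn : 0 < n) :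
    (r - e) ^ n ≠ e ^ m := by
  intro h
  have he' : ¬ IsAlgebraic ℚ (e : ℂ) := fun hh => he (mem_RA.2 (mem_cl_empty.2 hh))
  have he0 : e ≠ 0 := by
    rintro rfl
    exact he (zero_mem _)
  rcases Int.eq_nat_or_neg m with ⟨k, rfl | rfl⟩
  · rw [zpow_natCast] at h
    rcases Nat.eq_zero_or_pos k with rfl | hk
    · rw [pow_zero] at h
      apply he
      have h1 : ((r - e : ℝ) : ℂ) ∈ M.closure ∅ := by
        apply cl_of_pow hn.ne'
        have : ((r - e : ℝ) : ℂ) ^ n = ((1 : ℚ) : ℂ) := by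
          rw [← Complex.ofReal_pow, h]; simp
        rw [this]; exact cl_ratCast _ _
      have h2 : e = r - (r - e) := by ring
      rw [h2]
      exact sub_mem (RA_rat r) (mem_RA.2 h1)
    · apply he'
      refine ⟨(Polynomial.C r - Polynomial.X) ^ n - Polynomial.X ^ k, ?_, ?_⟩
      · intro h0
        have h1 := congrArg (Polynomial.eval 0) h0
        simp [hk.ne'] at h1
        exact hr h1.1
      · have h1 : ((r : ℂ) - e) ^ n = (e : ℂ) ^ k := by exact_mod_cast congrArg Complex.ofReal h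
        simp only [map_sub, map_pow, Polynomial.aeval_C, Polynomial.aeval_X, eq_ratCast]
        rw [h1, sub_self]
  · rw [zpow_neg, zpow_natCast] at h
    rcases Nat.eq_zero_or_pos k with rfl | hk
    · rw [pow_zero, inv_one] at h
      apply he
      have h1 : ((r - e : ℝ) : ℂ) ∈ M.closure ∅ := by
        apply cl_of_pow hn.ne'
        have : ((r - e : ℝ) : ℂ) ^ n = ((1 : ℚ) : ℂ) := by
          rw [← Complex.ofReal_pow, h]; simp
        rw [this]; exact cl_ratCast _ _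
      have h2 : e = r - (r - e) := by ring
      rw [h2]
      exact sub_mem (RA_rat r) (mem_RA.2 h1)
    · have h' : (r - e) ^ n * e ^ k = 1 := by
        rw [h, inv_mul_cancel₀ (pow_ne_zero _ he0)]
      apply he'
      refine ⟨(Polynomial.C r - Polynomial.X) ^ n * Polynomial.X ^ k - 1, ?_, ?_⟩
      · intro h0
        have h1 := congrArg (Polynomial.eval 0) h0
        simp [hk.ne'] at h1
      · have h1 : ((r : ℂ) - e) ^ n * (e : ℂ) ^ k = 1 := by
          exact_mod_cast congrArg Complex.ofReal h'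
        simp only [map_sub, map_mul, map_pow, Polynomial.aeval_C, Polynomial.aeval_X, eq_ratCast,
          map_one]
        rw [h1, sub_self]

theorem ind_div {e : ℝ} (he : e ∉ RA ∅) (hep : 0 < e) {r : ℚ} (hr : 0 < r) (hr1 : r ≠ 1) (n : ℕ)
    (m : ℤ) (hn : 0 < n) : (r / e) ^ n ≠ e ^ m := by
  intro h
  have he0 : e ≠ 0 := hep.ne'
  have h1 : (r : ℝ) ^ n = e ^ (m + n) := by
    rw [zpow_add₀ he0, zpow_natCast, ← h, div_pow, div_mul_cancel₀ _ (pow_ne_zero _ he0)]
  by_cases hmn : m + n = 0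
  · rw [hmn, zpow_zero] at h1
    have h2 : (r : ℚ) ^ n = 1 := by exact_mod_cast h1
    exact hr1 ((pow_eq_one_iff_of_nonneg hr.le hn.ne').1 h2)
  · apply he
    have h3 : (e : ℂ) ^ (m + n).natAbs ∈ M.closure ∅ := by
      have h4 : e ^ (m + n) ∈ RA ∅ := by
        rw [← h1]; exact pow_mem (RA_rat r) n
      have h5 : e ^ (m + n).natAbs ∈ RA ∅ := by
        rcases Int.natAbs_eq (m + n) with h6 | h6
        · rw [h6, zpow_natCast] at h4; exact h4
        · rw [h6, zpow_neg, zpow_natCast] at h4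
          have := inv_mem h4
          rwa [inv_inv] at this
      have := mem_RA.1 h5
      rwa [Complex.ofReal_pow] at this
    exact mem_RA.2 (cl_of_pow (by omega) h3)

end Pool.Agent.Helper35.EM
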