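import Pool.Agent.Helper35.EM.Five

/-! The five controlled models, continued. -/

namespace Pool.Agent.Helper35.EM

open Complex Module ComplexConjugate

theorem tr_log {F : Set ℂ} {x : ℝ} (hx : 0 < x) (h : x ∉ RA F) :
    exp ((Real.log x : ℝ) : ℂ) ∉ M.closure F := by
  rw [exp_rlog hx]; exact fun hh => h (mem_RA.2 hh)

theorem base_span_le {G : Set (ℂ × ℂ)} {W : Submodule ℚ ℝ} (h : ∀ v ∈ G, v.1.re ∈ W) :
    Submodule.span ℚ G ≤ W.comap R1 := by
  rw [Submodule.span_le]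
  intro v hv
  exact h v hv

theorem re_two_I (x : ℝ) : (2 * I * (x : ℂ)).re = 0 := by simp

/-- common part of the models of `pi + e` and `pi e` up to `e l` -/
theorem start01 {t : ℕ → ℝ} (ht : FreeR fun n => (t n : ℂ)) {p : ℝ} (hp0 : 0 < p)
    (hpe : p ∈ RA (FF t 1)) (hp : p ∉ RA ∅)
    (hind : ∀ (n : ℕ) (m : ℤ), 0 < n → p ^ n ≠ t 0 ^ m) :
    ∃ P : Submodule ℚ (ℂ × ℂ),
      BC t P (Submodule.span ℚ {((1 : ℂ), ((Real.log (t 0) : ℝ) : ℂ)),
        (2 * I * (p : ℂ), 2 * (Real.pi : ℂ) * I)}) 4 ∧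
      ((1 : ℂ), ((Real.log (t 0) : ℝ) : ℂ)) ∈ P ∧
      (2 * I * (p : ℂ), 2 * (Real.pi : ℂ) * I) ∈ P ∧
      ((t 1 : ℂ), ((Real.log p : ℝ) : ℂ)) ∈ P ∧
      ((t 0 : ℂ), ((Real.log (t 2) : ℝ) : ℂ)) ∈ P ∧
      (((t 0 * t 1 : ℝ) : ℂ), ((Real.log (t 3) : ℝ) : ℂ)) ∈ P ∧
      P ≤ (Submodule.span ℚ {(1 : ℝ), t 1, t 0, t 0 * t 1}).comap R1 := by
  have ha : t 0 ∉ RA ∅ := FF_not_empty ht 0
  have ha0 := pos_of ht 0
  have hFF1 : FF t 1 = {(t 0 : ℂ)} := by
    rw [FF, show (Set.Iio 1 : Set ℕ) = {0} by ext k; simp]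
    simp
  have hB : Base (Submodule.span ℚ {((1 : ℂ), ((Real.log (t 0) : ℝ) : ℂ)),
      (2 * I * (p : ℂ), 2 * (Real.pi : ℂ) * I)}) (Submodule.span ℚ {((1 : ℂ),
      ((Real.log (t 0) : ℝ) : ℂ)), (2 * I * (p : ℂ), 2 * (Real.pi : ℂ) * I)}) (FF t 1) := by
    rw [hFF1]
    refine b1 (fun h => ha (mem_RA.2 h)) (fun h => hp (mem_RA.2 h)) ?_ (exp_rlog ha0) rfl
    have := mem_RA.1 hpe
    rwa [hFF1] at this
  set Q := Submodule.span ℚ {((1 : ℂ), ((Real.log (t 0) : ℝ) : ℂ)),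
        (2 * I * (p : ℂ), 2 * (Real.pi : ℂ) * I)} with hQ
  have hC : BC t Q Q 1 := by
    refine ⟨hB, ?_⟩
    apply CS_span
    rintro v (rfl | rfl)
    · left
      have := cs_real 1 (Real.log (t 0))
      rwa [ofReal_one] at this
    · right; exact cs_pi _
  have m1 : ((1 : ℂ), ((Real.log (t 0) : ℝ) : ℂ)) ∈ Q := Submodule.subset_span (by simp)
  have m2 : (2 * I * (p : ℂ), 2 * (Real.pi : ℂ) * I) ∈ Q := Submodule.subset_span (by simp)
  have hW0 : Q ≤ (Submodule.span ℚ {(1 : ℝ)}).comap R1 := by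
    apply base_span_le
    rintro v (rfl | rfl)
    · exact Submodule.subset_span (by simp)
    · change (2 * I * (p : ℂ)).re ∈ _
      rw [re_two_I]; exact Submodule.zero_mem _
  -- the logarithm of `p`
  have hC1 := hC.addB ht hp0 (mem_RA.1 hpe) (log_not ha0 hp0 hind)
  have hW1 := sup_le_comap (W' := Submodule.span ℚ {(1 : ℝ), t 1}) (x := t 1)
    (w := ((Real.log p : ℝ) : ℂ)) hW0 (Submodule.span_mono (by simp))
    (Submodule.subset_span (by simp))
  have hl2 : t 1 ∉ RA (FF t 1) := FF_not ht le_rfl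
  have he1 : t 0 ∈ RA (FF t 1) := FF_mem one_pos
  -- `e ^ e`
  have hC2 := hC1.addF ht (x := t 0) (mem_RA.1 (FF_mem (by norm_num))) (not_mem_of_re hW1 (by
    intro h
    obtain ⟨α, β, h⟩ := mem_span2 h
    have hβ := lin_RA hl2 (RA_rat β) (sub_mem he1 (RA_rat α)) (d := t 0 - α) (by
      rw [h]; ring)
    rw [hβ] at h
    exact not_rat ha α (by rw [h]; ring)))
  have hW2 := sup_le_comap (W' := Submodule.span ℚ {(1 : ℝ), t 1, t 0}) (x := t 0)
    (w := ((Real.log (t 2) : ℝ) : ℂ)) hW1 (Submodule.span_mono (by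
      rintro x (rfl | rfl) <;> simp)) (Submodule.subset_span (by simp))
  -- `pi ^ e`
  have hC3 := hC2.addF ht (x := t 0 * t 1)
    (mem_RA.1 (mul_mem (FF_mem (by norm_num)) (FF_mem (by norm_num)))) (not_mem_of_re hW2 (by
    intro h
    obtain ⟨α, β, γ, h⟩ := mem_span3 h
    have hβ := lin_RA hl2 (sub_mem he1 (RA_rat β))
      (add_mem (RA_rat α) (mul_mem (RA_rat γ) he1)) (d := α + γ * t 0) (by
        linear_combination h)
    exact not_rat ha β (by linarith)))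
  have hW3 := sup_le_comap (W' := Submodule.span ℚ {(1 : ℝ), t 1, t 0, t 0 * t 1})
    (x := t 0 * t 1) (w := ((Real.log (t 3) : ℝ) : ℂ)) hW2 (Submodule.span_mono (by
      rintro x (rfl | rfl | rfl) <;> simp)) (Submodule.subset_span (by simp))
  refine ⟨_, hC3, ?_, ?_, ?_, ?_, ?_, hW3⟩
  · exact Submodule.mem_sup_left (Submodule.mem_sup_left (Submodule.mem_sup_left m1))
  · exact Submodule.mem_sup_left (Submodule.mem_sup_left (Submodule.mem_sup_left m2))
  · exact Submodule.mem_sup_left (Submodule.mem_sup_left (Submodule.mem_sup_right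
      (Submodule.mem_span_singleton_self _)))
  · exact Submodule.mem_sup_left (Submodule.mem_sup_right
      (Submodule.mem_span_singleton_self _))
  · exact Submodule.mem_sup_right (Submodule.mem_span_singleton_self _)

/-- model of `pi + e` -/
theorem has0 {t : ℕ → ℝ} (ht : FreeR fun n => (t n : ℂ)) {r : ℚ} (hr : t 0 < r) :
    HasModel (t 0) (r - t 0) (t 1) (t 2) (t 3)
      (Real.exp (r * Real.log (r - t 0) - Real.log (t 3))) 0 := by
  have ha : t 0 ∉ RA ∅ := FF_not_empty ht 0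
  have hp0 : 0 < r - t 0 := by linarith
  have hr0 : r ≠ 0 := by
    rintro rfl
    have := pos_of ht 0
    simp at hr
    linarith
  have hp : (r - t 0 : ℝ) ∉ RA ∅ := fun h => ha (by
    have := sub_mem (RA_rat (F := ∅) r) h
    rwa [sub_sub_cancel] at this)
  obtain ⟨P, hC, m1, m6, m2, m3, m4, -⟩ := start01 ht hp0 (sub_mem (RA_rat r) (FF_mem one_pos)) hp
    (ind_sub ha hr0)
  refine toModel ht hC (pos_of ht 0) hp0 (pos_of ht 2) (pos_of ht 3) (Real.exp_pos _) m1 m2 m3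
    (by rwa [ofReal_mul] at m4) ?_ m6 ?_ ?_ 0 ?_
  · have h1 := P.sub_mem (P.smul_mem r m2) m4
    have e1 : r • ((t 1 : ℂ), ((Real.log (r - t 0) : ℝ) : ℂ)) -
        (((t 0 * t 1 : ℝ) : ℂ), ((Real.log (t 3) : ℝ) : ℂ)) =
        (((r - t 0 : ℝ) : ℂ) * (t 1 : ℂ),
          ((Real.log (Real.exp (r * Real.log (r - t 0) - Real.log (t 3))) : ℝ) : ℂ)) := by
      rw [Real.log_exp]
      ext1
      · change r • (t 1 : ℂ) - ((t 0 * t 1 : ℝ) : ℂ) = _
        rw [Rat.smul_def]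
        push_cast
        ring
      · change r • ((Real.log (r - t 0) : ℝ) : ℂ) - ((Real.log (t 3) : ℝ) : ℂ) = _
        rw [Rat.smul_def]
        push_cast
        ring
    rwa [e1] at h1
  · exact ⟨_, Submodule.subset_span (Set.mem_insert_of_mem _ rfl),
      tr_two_I_mul (a := ((r - t 0 : ℝ) : ℂ)) (fun h => hp (mem_RA.2 h))⟩
  · exact ⟨_, Submodule.subset_span (Set.mem_insert _ _), tr_log (pos_of ht 0) ha⟩
  · rintro x (rfl | rfl)
    · exact ⟨_, Submodule.subset_span (Set.mem_insert _ _), rfl⟩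
    · exact half_mem (Submodule.subset_span (Set.mem_insert_of_mem _ rfl))

/-- model of `pi e` -/
theorem has1 {t : ℕ → ℝ} (ht : FreeR fun n => (t n : ℂ)) {r : ℚ} (hr : 0 < r) (hr1 : r ≠ 1) :
    HasModel (t 0) (r / t 0) (t 1) (t 2) (t 3) (t 4) 1 := by
  have ha : t 0 ∉ RA ∅ := FF_not_empty ht 0
  have ha0 := pos_of ht 0
  have hrR : (0 : ℝ) < r := by exact_mod_cast hr
  have hp0 : 0 < r / t 0 := div_pos hrR ha0
  have hp : (r / t 0 : ℝ) ∉ RA ∅ := fun h => ha (by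
    have := div_mem (RA_rat (F := ∅) r) h
    rwa [div_div_cancel₀ hrR.ne'] at this)
  obtain ⟨P, hC, m1, m6, m2, m3, m4, hW⟩ := start01 ht hp0
    (div_mem (RA_rat r) (FF_mem one_pos)) hp (ind_div ha ha0 hr hr1)
  have hl2 : t 1 ∉ RA (FF t 1) := FF_not ht le_rfl
  have he1 : t 0 ∈ RA (FF t 1) := FF_mem one_pos
  have hC4 := hC.addF ht (x := r / t 0 * t 1)
    (mem_RA.1 (mul_mem (div_mem (RA_rat r) (FF_mem (by norm_num))) (FF_mem (by norm_num))))
    (not_mem_of_re hW (by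
      intro h
      obtain ⟨α, β, γ, δ, h⟩ := mem_span4 h
      have hβ := lin_RA hl2 (c := r / t 0 - β - δ * t 0) (d := α + γ * t 0)
        (sub_mem (sub_mem (div_mem (RA_rat r) he1) (RA_rat β)) (mul_mem (RA_rat δ) he1))
        (add_mem (RA_rat α) (mul_mem (RA_rat γ) he1)) (by linear_combination h)
      -- `e` is algebraic
      have h2 : (r : ℝ) = β * t 0 + δ * t 0 ^ 2 := by
        have h3 : (r : ℝ) / t 0 = β + δ * t 0 := by linarith
        rw [div_eq_iff ha0.ne'] at h3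
        rw [h3]; ring
      have hIA : ¬ IsAlgebraic ℚ (t 0 : ℂ) := fun hh => ha (mem_RA.2 (mem_cl_empty.2 hh))
      apply hIA
      refine ⟨Polynomial.C β * Polynomial.X + Polynomial.C δ * Polynomial.X ^ 2 -
        Polynomial.C r, ?_, ?_⟩
      · intro h0
        have h1 := congrArg (Polynomial.eval 0) h0
        simp at h1
        exact hr.ne' h1
      · have h3 : (r : ℂ) = β * (t 0 : ℂ) + δ * (t 0 : ℂ) ^ 2 := by
          exact_mod_cast congrArg Complex.ofReal h2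
        simp only [map_sub, map_add, map_mul, map_pow, Polynomial.aeval_C, Polynomial.aeval_X,
          eq_ratCast]
        rw [h3, sub_self]))
  refine toModel ht hC4 ha0 hp0 (pos_of ht 2) (pos_of ht 3) (pos_of ht 4)
    (Submodule.mem_sup_left m1) (Submodule.mem_sup_left m2) (Submodule.mem_sup_left m3)
    (Submodule.mem_sup_left (by rwa [ofReal_mul] at m4))
    (Submodule.mem_sup_right ?_) (Submodule.mem_sup_left m6) ?_ ?_ 1 ?_
  · rw [ofReal_mul]; exact Submodule.mem_span_singleton_self _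
  · exact ⟨_, Submodule.subset_span (Set.mem_insert_of_mem _ rfl),
      tr_two_I_mul (a := ((r / t 0 : ℝ) : ℂ)) (fun h => hp (mem_RA.2 h))⟩
  · exact ⟨_, Submodule.subset_span (Set.mem_insert _ _), tr_log (pos_of ht 0) ha⟩
  · rintro x (rfl | rfl)
    · exact ⟨_, Submodule.subset_span (Set.mem_insert _ _), rfl⟩
    · exact half_mem (Submodule.subset_span (Set.mem_insert_of_mem _ rfl))

theorem FF_two (t : ℕ → ℝ) : FF t 2 = {(t 0 : ℂ), (t 1 : ℂ)} := by
  rw [FF, show (Set.Iio 2 : Set ℕ) = {0, 1} by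
    ext k
    simp only [Set.mem_Iio, Set.mem_insert_iff, Set.mem_singleton_iff]
    omega]
  rw [Set.image_pair]

theorem FF_three (t : ℕ → ℝ) : FF t 3 = {(t 0 : ℂ), (t 1 : ℂ), (t 2 : ℂ)} := by
  rw [FF, show (Set.Iio 3 : Set ℕ) = {0, 1, 2} by
    ext k
    simp only [Set.mem_Iio, Set.mem_insert_iff, Set.mem_singleton_iff]
    omega]
  rw [Set.image_insert_eq, Set.image_pair]

/-- model of `pi ^ e` -/
theorem has2 (B4 : S_B4) {t : ℕ → ℝ} (ht : FreeR fun n => (t n : ℂ)) {B : ℚ} (h0 : 0 < B)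
    (h1 : B ≠ 1) : HasModel (t 0) (t 1) (t 2) (t 3) B (t 4) 2 := by
  have ha : (t 0 : ℂ) ∉ M.closure ∅ := free_zero ht.free
  have hc : (t 1 : ℂ) ∉ M.closure {(t 0 : ℂ)} := free_one ht.free
  have hd : (t 2 : ℂ) ∉ M.closure {(t 0 : ℂ), (t 1 : ℂ)} := free_two ht.free
  have hB0' : (0 : ℝ) < (B : ℝ) := by exact_mod_cast h0
  have hLB : exp ((Real.log (B : ℝ) : ℝ) : ℂ) = (B : ℂ) := by
    rw [exp_rlog hB0']; simp
  have hB := B4 (t 0) (t 1) (t 2) _ _ _ B ha hc hd (exp_rlog (pos_of ht 0))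
    (exp_rlog (pos_of ht 1)) hLB h0.ne' h1 (by linarith [h0] : B ≠ -1) _ rfl
  rw [← FF_three] at hB
  set Q := Submodule.span ℚ {((1 : ℂ), ((Real.log (t 0) : ℝ) : ℂ)),
    ((t 2 : ℂ), ((Real.log (t 1) : ℝ) : ℂ)),
    ((t 0 : ℂ) * t 2, ((Real.log (B : ℝ) : ℝ) : ℂ)),
    (2 * I * (t 1 : ℂ), 2 * (Real.pi : ℂ) * I)} with hQ
  have m1 : ((1 : ℂ), ((Real.log (t 0) : ℝ) : ℂ)) ∈ Q := Submodule.subset_span (by simp)
  have m2 : ((t 2 : ℂ), ((Real.log (t 1) : ℝ) : ℂ)) ∈ Q := Submodule.subset_span (by simp)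
  have m3 : ((t 0 : ℂ) * t 2, ((Real.log (B : ℝ) : ℝ) : ℂ)) ∈ Q :=
    Submodule.subset_span (by simp)
  have m4 : ((2 * I * (t 1 : ℂ) : ℂ), 2 * (Real.pi : ℂ) * I) ∈ Q :=
    Submodule.subset_span (by simp)
  have hC : BC t Q Q 3 := by
    refine ⟨hB, ?_⟩
    apply CS_span
    rintro v (rfl | rfl | rfl | rfl)
    · left
      have := cs_real 1 (Real.log (t 0))
      rwa [ofReal_one] at this
    · left; exact cs_real _ _
    · left
      have := cs_real (t 0 * t 2) (Real.log (B : ℝ))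
      rwa [ofReal_mul] at this
    · right; exact cs_pi _
  have hW0 : Q ≤ (Submodule.span ℚ {(1 : ℝ), t 2, t 0 * t 2}).comap R1 := by
    apply base_span_le
    rintro v (rfl | rfl | rfl | rfl)
    · exact Submodule.subset_span (by simp)
    · exact Submodule.subset_span (by simp)
    · have e : ((t 0 : ℂ) * t 2).re = t 0 * t 2 := by
        rw [← ofReal_mul, ofReal_re]
      change ((t 0 : ℂ) * t 2).re ∈ _
      rw [e]; exact Submodule.subset_span (by simp)
    · change (2 * I * (t 1 : ℂ)).re ∈ _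
      rw [re_two_I]; exact Submodule.zero_mem _
  have ha' : t 0 ∉ RA ∅ := FF_not_empty ht 0
  have hl2 : t 2 ∉ RA (FF t 2) := FF_not ht le_rfl
  have he1 : t 0 ∈ RA (FF t 2) := FF_mem (by norm_num)
  have hp1 : t 1 ∈ RA (FF t 2) := FF_mem (by norm_num)
  have hp1' : t 1 ∉ RA (FF t 1) := FF_not ht le_rfl
  have he0 : t 0 ∈ RA (FF t 1) := FF_mem (by norm_num)
  -- `e ^ e`
  have hC1 := hC.addF ht (x := t 0) (mem_RA.1 (FF_mem (by norm_num))) (not_mem_of_re hW0 (by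
    intro h
    obtain ⟨α, β, γ, h⟩ := mem_span3 h
    have hβ := lin_RA hl2 (c := β + γ * t 0) (d := t 0 - α)
      (add_mem (RA_rat β) (mul_mem (RA_rat γ) he1)) (sub_mem he1 (RA_rat α))
      (by linear_combination -h)
    apply not_rat ha' α
    have : t 0 = α + (β + γ * t 0) * t 2 := by linear_combination h
    rw [this, hβ]; ring))
  have hW1 := sup_le_comap (W' := Submodule.span ℚ {(1 : ℝ), t 2, t 0 * t 2, t 0}) (x := t 0)
    (w := ((Real.log (t 3) : ℝ) : ℂ)) hW0 (Submodule.span_mono (by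
      rintro x (rfl | rfl | rfl) <;> simp)) (Submodule.subset_span (by simp))
  -- `pi ^ pi`
  have hC2 := hC1.addF ht (x := t 1 * t 2)
    (mem_RA.1 (mul_mem (FF_mem (by norm_num)) (FF_mem (by norm_num)))) (not_mem_of_re hW1 (by
    intro h
    obtain ⟨α, β, γ, δ, h⟩ := mem_span4 h
    have hβ := lin_RA hl2 (c := t 1 - β - γ * t 0) (d := α + δ * t 0)
      (sub_mem (sub_mem hp1 (RA_rat β)) (mul_mem (RA_rat γ) he1))
      (add_mem (RA_rat α) (mul_mem (RA_rat δ) he1)) (by linear_combination h)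
    apply hp1'
    have : t 1 = β + γ * t 0 := by linarith
    rw [this]
    exact add_mem (RA_rat β) (mul_mem (RA_rat γ) he0)))
  refine toModel ht hC2 (pos_of ht 0) (pos_of ht 1) (pos_of ht 3) hB0' (pos_of ht 4)
    (Submodule.mem_sup_left (Submodule.mem_sup_left m1))
    (Submodule.mem_sup_left (Submodule.mem_sup_left m2))
    (Submodule.mem_sup_left (Submodule.mem_sup_right (Submodule.mem_span_singleton_self _)))
    (Submodule.mem_sup_left (Submodule.mem_sup_left m3))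
    (Submodule.mem_sup_right ?_)
    (Submodule.mem_sup_left (Submodule.mem_sup_left m4)) ?_ ?_ 2 ?_
  · rw [ofReal_mul]; exact Submodule.mem_span_singleton_self _
  · exact ⟨_, m4, tr_two_I_mul (fun h => hc (cl_mono (Set.empty_subset _) h))⟩
  · exact ⟨_, m1, tr_log (pos_of ht 0) ha'⟩
  · rintro x (rfl | rfl | rfl | rfl)
    · exact ⟨_, m1, rfl⟩
    · exact ⟨_, m2, rfl⟩
    · exact ⟨_, m3, rfl⟩
    · exact half_mem m4

/-- model of `e ^ e` -/
theorem has3 {t : ℕ → ℝ} (ht : FreeR fun n => (t n : ℂ)) {A : ℚ} (h0 : 0 < A) (h1 : A ≠ 1) :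
    HasModel (t 0) (t 1) (t 2) A (t 3) (t 4) 3 := by
  have ha : (t 0 : ℂ) ∉ M.closure ∅ := free_zero ht.free
  have hc : (t 1 : ℂ) ∉ M.closure {(t 0 : ℂ)} := free_one ht.free
  have hA0 : (0 : ℝ) < (A : ℝ) := by exact_mod_cast h0
  have hLA : exp ((Real.log (A : ℝ) : ℝ) : ℂ) = (A : ℂ) := by
    rw [exp_rlog hA0]; simp
  have hB := b2 ha hc (exp_rlog (pos_of ht 0)) hLA h0.ne' h1 (by linarith [h0] : A ≠ -1) rfl rfl
  rw [← FF_two] at hB
  set P := Submodule.span ℚ {((1 : ℂ), ((Real.log (t 0) : ℝ) : ℂ)),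
    ((t 0 : ℂ), ((Real.log (A : ℝ) : ℝ) : ℂ)), (2 * I * (t 1 : ℂ), 2 * (Real.pi : ℂ) * I)}
    with hP
  set Q := Submodule.span ℚ {((1 : ℂ), ((Real.log (t 0) : ℝ) : ℂ)),
    ((t 0 : ℂ), ((Real.log (A : ℝ) : ℝ) : ℂ))} with hQ
  have m1 : ((1 : ℂ), ((Real.log (t 0) : ℝ) : ℂ)) ∈ Q := Submodule.subset_span (by simp)
  have m3 : ((t 0 : ℂ), ((Real.log (A : ℝ) : ℝ) : ℂ)) ∈ Q := Submodule.subset_span (by simp)
  have m6 : ((2 * I * (t 1 : ℂ) : ℂ), 2 * (Real.pi : ℂ) * I) ∈ P :=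
    Submodule.subset_span (by simp)
  have m1' : ((1 : ℂ), ((Real.log (t 0) : ℝ) : ℂ)) ∈ P := Submodule.subset_span (by simp)
  have m3' : ((t 0 : ℂ), ((Real.log (A : ℝ) : ℝ) : ℂ)) ∈ P := Submodule.subset_span (by simp)
  have hC : BC t P Q 2 := by
    refine ⟨hB, ?_⟩
    apply CS_span
    rintro v (rfl | rfl | rfl)
    · left
      have := cs_real 1 (Real.log (t 0))
      rwa [ofReal_one] at this
    · left; exact cs_real _ _
    · right; exact cs_pi _
  have hW0 : P ≤ (Submodule.span ℚ {(1 : ℝ), t 0}).comap R1 := by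
    apply base_span_le
    rintro v (rfl | rfl | rfl)
    · exact Submodule.subset_span (by simp)
    · exact Submodule.subset_span (by simp)
    · change (2 * I * (t 1 : ℂ)).re ∈ _
      rw [re_two_I]; exact Submodule.zero_mem _
  have ha' : t 0 ∉ RA ∅ := FF_not_empty ht 0
  have hl2 : t 2 ∉ RA (FF t 2) := FF_not ht le_rfl
  have he1 : t 0 ∈ RA (FF t 2) := FF_mem (by norm_num)
  have hp1 : t 1 ∈ RA (FF t 2) := FF_mem (by norm_num)
  have hp1' : t 1 ∉ RA (FF t 1) := FF_not ht le_rfl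
  have he0 : t 0 ∈ RA (FF t 1) := FF_mem (by norm_num)
  -- the logarithm of `pi`
  have hlog : ¬ ∃ u, (u, ((Real.log (t 1) : ℝ) : ℂ)) ∈ P := by
    rintro ⟨u, hu⟩
    obtain ⟨x, y, z, hxyz⟩ := Submodule.mem_span_triple.1 hu
    have h2 : x • ((Real.log (t 0) : ℝ) : ℂ) + y • ((Real.log (A : ℝ) : ℝ) : ℂ) +
        z • (2 * (Real.pi : ℂ) * I) = ((Real.log (t 1) : ℝ) : ℂ) := congrArg Prod.snd hxyz
    apply hc
    rw [← exp_rlog (pos_of ht 1), ← h2]
    refine cl_exp_add (cl_exp_add (cl_exp_smul x ?_) (cl_exp_smul y ?_))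
      (cl_exp_smul z (cl_exp_two_pi_I _))
    · rw [exp_rlog (pos_of ht 0)]; exact cl_self rfl
    · rw [hLA]; exact cl_ratCast _ A
  have hC1 := hC.addB ht (pos_of ht 1) (mem_RA.1 hp1) hlog
  have hW1 := sup_le_comap (W' := Submodule.span ℚ {(1 : ℝ), t 0, t 2}) (x := t 2)
    (w := ((Real.log (t 1) : ℝ) : ℂ)) hW0 (Submodule.span_mono (by
      rintro x (rfl | rfl) <;> simp)) (Submodule.subset_span (by simp))
  -- `pi ^ e`
  have hC2 := hC1.addF ht (x := t 0 * t 2)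
    (mem_RA.1 (mul_mem (FF_mem (by norm_num)) (FF_mem (by norm_num)))) (not_mem_of_re hW1 (by
    intro h
    obtain ⟨α, β, γ, h⟩ := mem_span3 h
    have hβ := lin_RA hl2 (c := t 0 - γ) (d := α + β * t 0) (sub_mem he1 (RA_rat γ))
      (add_mem (RA_rat α) (mul_mem (RA_rat β) he1)) (by linear_combination h)
    exact not_rat ha' γ (by linarith)))
  have hW2 := sup_le_comap (W' := Submodule.span ℚ {(1 : ℝ), t 0, t 2, t 0 * t 2})
    (x := t 0 * t 2) (w := ((Real.log (t 3) : ℝ) : ℂ)) hW1 (Submodule.span_mono (by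
      rintro x (rfl | rfl | rfl) <;> simp)) (Submodule.subset_span (by simp))
  -- `pi ^ pi`
  have hC3 := hC2.addF ht (x := t 1 * t 2)
    (mem_RA.1 (mul_mem (FF_mem (by norm_num)) (FF_mem (by norm_num)))) (not_mem_of_re hW2 (by
    intro h
    obtain ⟨α, β, γ, δ, h⟩ := mem_span4 h
    have hβ := lin_RA hl2 (c := t 1 - γ - δ * t 0) (d := α + β * t 0)
      (sub_mem (sub_mem hp1 (RA_rat γ)) (mul_mem (RA_rat δ) he1))
      (add_mem (RA_rat α) (mul_mem (RA_rat β) he1)) (by linear_combination h)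
    apply hp1'
    have : t 1 = γ + δ * t 0 := by linarith
    rw [this]
    exact add_mem (RA_rat γ) (mul_mem (RA_rat δ) he0)))
  refine toModel ht hC3 (pos_of ht 0) (pos_of ht 1) hA0 (pos_of ht 3) (pos_of ht 4)
    (Submodule.mem_sup_left (Submodule.mem_sup_left (Submodule.mem_sup_left m1')))
    (Submodule.mem_sup_left (Submodule.mem_sup_left (Submodule.mem_sup_right
      (Submodule.mem_span_singleton_self _))))
    (Submodule.mem_sup_left (Submodule.mem_sup_left (Submodule.mem_sup_left m3')))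
    (Submodule.mem_sup_left (Submodule.mem_sup_right ?_))
    (Submodule.mem_sup_right ?_)
    (Submodule.mem_sup_left (Submodule.mem_sup_left (Submodule.mem_sup_left m6))) ?_ ?_ 3 ?_
  · rw [ofReal_mul]; exact Submodule.mem_span_singleton_self _
  · rw [ofReal_mul]; exact Submodule.mem_span_singleton_self _
  · exact ⟨_, m3, ha⟩
  · exact ⟨_, m1, tr_log (pos_of ht 0) ha'⟩
  · rintro x (rfl | rfl)
    · exact ⟨_, m1, rfl⟩
    · exact ⟨_, m3, rfl⟩

/-- model of `pi ^ pi` -/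
theorem has4 (B3 : S_B3) {t : ℕ → ℝ} (ht : FreeR fun n => (t n : ℂ)) {C : ℚ} (h0 : 0 < C)
    (h1 : C ≠ 1) : HasModel (t 2) (t 0) (t 1) (t 3) (t 4) C 4 := by
  have ha : (t 0 : ℂ) ∉ M.closure ∅ := free_zero ht.free
  have hc : (t 1 : ℂ) ∉ M.closure {(t 0 : ℂ)} := free_one ht.free
  have hC0 : (0 : ℝ) < (C : ℝ) := by exact_mod_cast h0
  have hLC : exp ((Real.log (C : ℝ) : ℝ) : ℂ) = (C : ℂ) := by
    rw [exp_rlog hC0]; simp
  have hB := B3 (t 0) (t 1) _ _ C ha hc (exp_rlog (pos_of ht 0)) hLC h0.ne' h1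
    (by linarith [h0] : C ≠ -1) _ rfl
  rw [← FF_two] at hB
  set Q := Submodule.span ℚ {((t 1 : ℂ), ((Real.log (t 0) : ℝ) : ℂ)),
    ((t 0 : ℂ) * t 1, ((Real.log (C : ℝ) : ℝ) : ℂ)),
    (2 * I * (t 0 : ℂ), 2 * (Real.pi : ℂ) * I)} with hQ
  have m2 : ((t 1 : ℂ), ((Real.log (t 0) : ℝ) : ℂ)) ∈ Q := Submodule.subset_span (by simp)
  have m5 : ((t 0 : ℂ) * t 1, ((Real.log (C : ℝ) : ℝ) : ℂ)) ∈ Q :=
    Submodule.subset_span (by simp)
  have m6 : ((2 * I * (t 0 : ℂ) : ℂ), 2 * (Real.pi : ℂ) * I) ∈ Q :=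
    Submodule.subset_span (by simp)
  have hC : BC t Q Q 2 := by
    refine ⟨hB, ?_⟩
    apply CS_span
    rintro v (rfl | rfl | rfl)
    · left; exact cs_real _ _
    · left
      have := cs_real (t 0 * t 1) (Real.log (C : ℝ))
      rwa [ofReal_mul] at this
    · right; exact cs_pi _
  have hW0 : Q ≤ (Submodule.span ℚ {t 1, t 0 * t 1}).comap R1 := by
    apply base_span_le
    rintro v (rfl | rfl | rfl)
    · exact Submodule.subset_span (by simp)
    · have e : ((t 0 : ℂ) * t 1).re = t 0 * t 1 := by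
        rw [← ofReal_mul, ofReal_re]
      change ((t 0 : ℂ) * t 1).re ∈ _
      rw [e]; exact Submodule.subset_span (by simp)
    · change (2 * I * (t 0 : ℂ)).re ∈ _
      rw [re_two_I]; exact Submodule.zero_mem _
  have ha' : t 0 ∉ RA ∅ := FF_not_empty ht 0
  have hl1 : t 1 ∉ RA (FF t 1) := FF_not ht le_rfl
  have hp1 : t 0 ∈ RA (FF t 1) := FF_mem (by norm_num)
  have he2 : t 2 ∉ RA (FF t 2) := FF_not ht le_rfl
  have hp2 : t 0 ∈ RA (FF t 2) := FF_mem (by norm_num)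
  have hl2 : t 1 ∈ RA (FF t 2) := FF_mem (by norm_num)
  -- `e`
  have hC1 := hC.addF ht (x := (1 : ℝ)) (mem_RA.1 (one_mem _)) (not_mem_of_re hW0 (by
    intro h
    obtain ⟨α, β, h⟩ := mem_span2 h
    have hβ := lin_RA hl1 (c := α + β * t 0) (d := 1)
      (add_mem (RA_rat α) (mul_mem (RA_rat β) hp1)) (one_mem _) (by linear_combination -h)
    have h2 : (1 : ℝ) = (α + β * t 0) * t 1 := by linear_combination h
    rw [hβ, zero_mul] at h2
    exact one_ne_zero h2))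
  have hW1 := sup_le_comap (W' := Submodule.span ℚ {(1 : ℝ), t 1, t 0 * t 1}) (x := (1 : ℝ))
    (w := ((Real.log (t 2) : ℝ) : ℂ)) hW0 (Submodule.span_mono (by
      rintro x (rfl | rfl) <;> simp)) (Submodule.subset_span (by simp))
  -- `e ^ e`
  have hC2 := hC1.addF ht (x := t 2) (mem_RA.1 (FF_mem (by norm_num))) (not_mem_of_re hW1 (by
    intro h
    obtain ⟨α, β, γ, h⟩ := mem_span3 h
    apply he2
    rw [h]
    exact add_mem (add_mem (mul_mem (RA_rat α) (one_mem _)) (mul_mem (RA_rat β) hl2))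
      (mul_mem (RA_rat γ) (mul_mem hp2 hl2))))
  have hW2 := sup_le_comap (W' := Submodule.span ℚ {(1 : ℝ), t 1, t 0 * t 1, t 2})
    (x := t 2) (w := ((Real.log (t 3) : ℝ) : ℂ)) hW1 (Submodule.span_mono (by
      rintro x (rfl | rfl | rfl) <;> simp)) (Submodule.subset_span (by simp))
  -- `pi ^ e`
  have hC3 := hC2.addF ht (x := t 2 * t 1)
    (mem_RA.1 (mul_mem (FF_mem (by norm_num)) (FF_mem (by norm_num)))) (not_mem_of_re hW2 (by
    intro h
    obtain ⟨α, β, γ, δ, h⟩ := mem_span4 h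
    have hβ := lin_RA he2 (c := t 1 - δ) (d := α + β * t 1 + γ * (t 0 * t 1))
      (sub_mem hl2 (RA_rat δ))
      (add_mem (add_mem (RA_rat α) (mul_mem (RA_rat β) hl2)) (mul_mem (RA_rat γ)
        (mul_mem hp2 hl2))) (by linear_combination h)
    exact not_rat hl1 δ (by linarith)))
  refine toModel ht hC3 (pos_of ht 2) (pos_of ht 0) (pos_of ht 3) (pos_of ht 4) hC0
    (Submodule.mem_sup_left (Submodule.mem_sup_left (Submodule.mem_sup_right ?_)))
    (Submodule.mem_sup_left (Submodule.mem_sup_left (Submodule.mem_sup_left m2)))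
    (Submodule.mem_sup_left (Submodule.mem_sup_right (Submodule.mem_span_singleton_self _)))
    (Submodule.mem_sup_right ?_)
    (Submodule.mem_sup_left (Submodule.mem_sup_left (Submodule.mem_sup_left m5)))
    (Submodule.mem_sup_left (Submodule.mem_sup_left (Submodule.mem_sup_left m6))) ?_ ?_ 4 ?_
  · rw [← ofReal_one]; exact Submodule.mem_span_singleton_self _
  · rw [ofReal_mul]; exact Submodule.mem_span_singleton_self _
  · exact ⟨_, m6, tr_two_I_mul ha⟩
  · exact ⟨_, m2, tr_log (pos_of ht 0) ha'⟩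
  · rintro x (rfl | rfl | rfl)
    · exact ⟨_, m2, rfl⟩
    · exact ⟨_, m5, rfl⟩
    · exact half_mem m6

end Pool.Agent.Helper35.EM
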