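import Pool.Agent.Helper35.EM.ConjCases

/-! Models in which all constants are controlled. -/

namespace Pool.Agent.Helper35.EM

open Complex Module ComplexConjugate

/-- A conjugation stable base with coordinates algebraic over `t 0, …, t (N - 1)`. -/
structure BC (t : ℕ → ℝ) (P Q : Submodule ℚ (ℂ × ℂ)) (N : ℕ) : Prop where
  base : Base P Q ((fun n => (t n : ℂ)) '' Set.Iio N)
  cs : CS P

theorem Base.of_cl {P Q : Submodule ℚ (ℂ × ℂ)} {s F : Set ℂ} (hB : Base P Q s)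
    (h : s ⊆ M.closure F) : Base P Q F :=
  ⟨hB.fin, hB.le, fun p hp => cl_le h (hB.fst_mem p hp), fun p hp => cl_le h (hB.exp_mem p hp),
    hB.inj1, hB.inj2, hB.rk⟩

theorem Base.toSt' {P Q : Submodule ℚ (ℂ × ℂ)} {s : Set ℂ} (hB : Base P Q s) : St P s :=
  ⟨hB.fin, hB.fst_mem, hB.exp_mem, hB.inj1, hB.inj2⟩

theorem BC.addF {t : ℕ → ℝ} (ht : FreeR fun n => (t n : ℂ)) {P Q : Submodule ℚ (ℂ × ℂ)} {N : ℕ}
    (h : BC t P Q N) {x : ℝ} (hx : (x : ℂ) ∈ M.closure ((fun n => (t n : ℂ)) '' Set.Iio N))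
    (hxP : ¬ ∃ z, ((x : ℂ), z) ∈ P) :
    BC t (P ⊔ Submodule.span ℚ {((x : ℂ), ((Real.log (t N) : ℝ) : ℂ))}) Q (N + 1) := by
  have hsub := image_mono (fun n => (t n : ℂ)) (Nat.le_succ N)
  have hpos := pos_of ht N
  obtain ⟨k1, k2⟩ := forthG hsub h.base.toSt' (cl_mono hsub hx) hxP
    (w := ((Real.log (t N) : ℝ) : ℂ))
    (by rw [exp_rlog hpos]; exact cl_self ⟨N, Nat.lt_succ_self N, rfl⟩)
    (by rw [exp_rlog hpos]; exact ht.free N)
  refine ⟨h.base.extend ((Set.finite_Iio (N + 1)).image _) k1 le_sup_left k2, h.cs.sup ?_⟩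
  left; exact cs_real _ _

theorem BC.addB {t : ℕ → ℝ} (ht : FreeR fun n => (t n : ℂ)) {P Q : Submodule ℚ (ℂ × ℂ)} {N : ℕ}
    (h : BC t P Q N) {y : ℝ} (hy0 : 0 < y)
    (hy : (y : ℂ) ∈ M.closure ((fun n => (t n : ℂ)) '' Set.Iio N))
    (hyP : ¬ ∃ u, (u, ((Real.log y : ℝ) : ℂ)) ∈ P) :
    BC t (P ⊔ Submodule.span ℚ {((t N : ℂ), ((Real.log y : ℝ) : ℂ))}) Q (N + 1) := by
  have hsub := image_mono (fun n => (t n : ℂ)) (Nat.le_succ N)
  obtain ⟨k1, k2⟩ := backG hsub h.base.toSt' (g := (t N : ℂ)) (w := ((Real.log y : ℝ) : ℂ))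
    (cl_self ⟨N, Nat.lt_succ_self N, rfl⟩) (ht.free N) hyP
    (by rw [exp_rlog hy0]; exact cl_mono hsub hy)
  refine ⟨h.base.extend ((Set.finite_Iio (N + 1)).image _) k1 le_sup_left k2, h.cs.sup ?_⟩
  left; exact cs_real _ _

/-- real parts of the first coordinates -/
noncomputable def R1 : (ℂ × ℂ) →ₗ[ℚ] ℝ where
  toFun p := p.1.re
  map_add' p q := by simp
  map_smul' c p := by
    change (c • p.1).re = c • p.1.re
    rw [Algebra.smul_def, Algebra.smul_def]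
    simp

theorem not_mem_of_re {P : Submodule ℚ (ℂ × ℂ)} {W : Submodule ℚ ℝ} (hP : P ≤ W.comap R1) {x : ℝ}
    (hx : x ∉ W) : ¬ ∃ z, ((x : ℂ), z) ∈ P := by
  rintro ⟨z, hz⟩
  apply hx
  have := hP hz
  simpa [R1] using this

theorem sup_le_comap {P : Submodule ℚ (ℂ × ℂ)} {W W' : Submodule ℚ ℝ} (hP : P ≤ W.comap R1)
    (hW : W ≤ W') {x : ℝ} {w : ℂ} (hx : x ∈ W') :
    P ⊔ Submodule.span ℚ {((x : ℂ), w)} ≤ W'.comap R1 := by
  apply sup_le
  · exact hP.trans (Submodule.comap_mono hW)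
  · rw [Submodule.span_le]
    rintro _ rfl
    simpa [R1] using hx

/-- All constants controlled. -/
structure HasModel (e p l u v w : ℝ) (k : Fin 5) : Prop where
  ex : ∃ (L : IntermediateField ℚ ℂ) (_ : IsAlgClosed L) (_ : Countable L) (D : ExpField L)
    (l' : L), (D.i : ℂ) = I ∧ (∀ x, (D.cj x : ℂ) = conj (x : ℂ)) ∧ (D.pi : ℂ) = p ∧
      (D.E 1 : ℂ) = e ∧ (l' : ℂ) = l ∧ D.E l' = D.pi ∧ (D.E (D.E 1) : ℂ) = u ∧
      (D.E (D.E 1 * l') : ℂ) = v ∧ (D.E (D.pi * l') : ℂ) = w ∧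
      OneCritical D.toExpData (crit D.toExpData l' k)

theorem toModel {t : ℕ → ℝ} (ht : FreeR fun n => (t n : ℂ)) {P Q : Submodule ℚ (ℂ × ℂ)} {N : ℕ}
    (h : BC t P Q N) {e p l u v w : ℝ} (he : 0 < e) (hp : 0 < p) (hu : 0 < u) (hv : 0 < v)
    (hw : 0 < w)
    (m1 : ((1 : ℂ), ((Real.log e : ℝ) : ℂ)) ∈ P)
    (m2 : ((l : ℂ), ((Real.log p : ℝ) : ℂ)) ∈ P)
    (m3 : ((e : ℂ), ((Real.log u : ℝ) : ℂ)) ∈ P)
    (m4 : ((e : ℂ) * l, ((Real.log v : ℝ) : ℂ)) ∈ P)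
    (m5 : ((p : ℂ) * l, ((Real.log w : ℝ) : ℂ)) ∈ P)
    (m6 : (2 * I * (p : ℂ), 2 * (Real.pi : ℂ) * I) ∈ P)
    (hQ1 : ∃ q ∈ Q, q.1 ∉ M.closure ∅) (hQ2 : ∃ q ∈ Q, Complex.exp q.2 ∉ M.closure ∅)
    (k : Fin 5)
    (hcrit : ∀ x ∈ (![{1, I * p}, {1, I * p}, {1, (l : ℂ), (e : ℂ) * l, I * p}, {1, (e : ℂ)},
      {(l : ℂ), (p : ℂ) * l, I * p}] : Fin 5 → Set ℂ) k, ∃ q ∈ Q, q.1 = x) :
    HasModel e p l u v w k := by
  obtain ⟨L, g1, g2, D, hi, hcj, hpi, hE, hS⟩ := modelC ht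
    (s := (fun n => (t n : ℂ)) '' Set.Iio N) (N := N) (fun x hx => cl_self hx) h.base h.cs p
    ⟨p, hp, rfl⟩ m6 hQ1 hQ2
  have hE1 : (D.E 1 : ℂ) = e := by
    obtain ⟨x, hx1, hx2⟩ := hE _ m1
    have : x = 1 := Subtype.ext hx1
    rw [← this, hx2]; exact exp_rlog he
  obtain ⟨l', hl1, hl2⟩ := hE _ m2
  have hEl : D.E l' = D.pi := by
    apply Subtype.ext
    rw [hl2, hpi]; exact exp_rlog hp
  have hE2 : (D.E (D.E 1) : ℂ) = u := by
    obtain ⟨x, hx1, hx2⟩ := hE _ m3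
    have : x = D.E 1 := Subtype.ext (hx1.trans hE1.symm)
    rw [← this, hx2]; exact exp_rlog hu
  have hE3 : (D.E (D.E 1 * l') : ℂ) = v := by
    obtain ⟨x, hx1, hx2⟩ := hE _ m4
    have : x = D.E 1 * l' := by
      apply Subtype.ext
      rw [hx1]
      change _ = (D.E 1 : ℂ) * (l' : ℂ)
      rw [hE1, hl1]
    rw [← this, hx2]; exact exp_rlog hv
  have hE4 : (D.E (D.pi * l') : ℂ) = w := by
    obtain ⟨x, hx1, hx2⟩ := hE _ m5
    have : x = D.pi * l' := by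
      apply Subtype.ext
      rw [hx1]
      change _ = (D.pi : ℂ) * (l' : ℂ)
      rw [hpi, hl1]
    rw [← this, hx2]; exact exp_rlog hw
  have c1 : ((1 : L) : ℂ) = 1 := rfl
  have c2 : ((D.i * D.pi : L) : ℂ) = I * p := by
    change (D.i : ℂ) * (D.pi : ℂ) = _
    rw [hi, hpi]
  have c3 : ((D.E 1 * l' : L) : ℂ) = e * l := by
    change (D.E 1 : ℂ) * (l' : ℂ) = _
    rw [hE1, hl1]
  have c4 : ((D.pi * l' : L) : ℂ) = p * l := by
    change (D.pi : ℂ) * (l' : ℂ) = _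
    rw [hpi, hl1]
  refine ⟨L, g1, g2, D, l', hi, hcj, hpi, hE1, hl1, hEl, hE2, hE3, hE4, hS _ ?_⟩
  intro x hx
  apply hcrit
  fin_cases k
  · rcases hx with rfl | rfl
    · left; exact c1
    · right; exact c2
  · rcases hx with rfl | rfl
    · left; exact c1
    · right; exact c2
  · rcases hx with rfl | rfl | rfl | rfl
    · left; exact c1
    · right; left; exact hl1
    · right; right; left; exact c3
    · right; right; right; exact c2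
  · rcases hx with rfl | rfl
    · left; exact c1
    · right; exact hE1
  · rcases hx with rfl | rfl | rfl
    · left; exact hl1
    · right; left; exact c4
    · right; right; exact c2

end Pool.Agent.Helper35.EM
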