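import Pool.Agent.Helper35.EM.Final

/-! The five existence statements. -/

namespace Pool.Agent.Helper35.EM

open Complex Module ComplexConjugate

theorem RA_sq {F : Set ℂ} {x : ℝ} (h : x ^ 2 ∈ RA F) : x ∈ RA F := by
  apply mem_RA.2
  apply cl_of_pow (n := 2) two_ne_zero
  have := mem_RA.1 h
  rwa [ofReal_pow] at this

/-- roots of quadratic equations -/
theorem RA_quad {F : Set ℂ} {x c d : ℝ} (hc : c ∈ RA F) (hd : d ∈ RA F)
    (h : x ^ 2 = c * x + d) : x ∈ RA F := by
  have h2 : (x - c * (1 / 2 : ℚ)) ^ 2 ∈ RA F := by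
    have : (x - c * (1 / 2 : ℚ)) ^ 2 = d + c ^ 2 * (1 / 4 : ℚ) := by
      push_cast
      linear_combination h
    rw [this]
    exact add_mem hd (mul_mem (pow_mem hc 2) (RA_rat _))
  have h3 := RA_sq h2
  have h4 : x = (x - c * (1 / 2 : ℚ)) + c * (1 / 2 : ℚ) := by ring
  rw [h4]
  exact add_mem h3 (mul_mem hc (RA_rat _))

theorem RA_add_not {F : Set ℂ} {a b : ℝ} (hb : b ∉ RA F) (ha : a ∈ RA F) : b + a ∉ RA ∅ := by
  intro h
  apply hb
  have h1 := sub_mem (RA_mono (Set.empty_subset F) h) ha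
  rwa [add_sub_cancel_right] at h1

theorem RA_mul_not {F : Set ℂ} {a b : ℝ} (hb : b ∉ RA F) (ha : a ∈ RA F) (ha0 : a ≠ 0) :
    b * a ∉ RA ∅ := by
  intro h
  apply hb
  have h1 := div_mem (RA_mono (Set.empty_subset F) h) ha
  rwa [mul_div_cancel_right₀ _ ha0] at h1

theorem e_gt : 2 < Real.exp 1 := lt_trans (by norm_num) Real.exp_one_gt_d9

theorem pow_gt {x y : ℝ} (hx : 2 < x) (hy : 1 ≤ y) : 2 < x ^ y :=
  lt_of_lt_of_le hx (Real.self_le_rpow_of_one_le (by linarith) hy)

theorem val_gt (k : Fin 5) : 2 < val k := by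
  have h1 := e_gt
  have h2 := Real.pi_gt_three
  fin_cases k
  · change 2 < Real.pi + Real.exp 1
    linarith
  · change 2 < Real.pi * Real.exp 1
    nlinarith
  · exact pow_gt (by linarith) (by linarith)
  · exact pow_gt h1 (by linarith)
  · exact pow_gt (by linarith) (by linarith)

theorem rat_gt {k : Fin 5} {r : ℚ} (h : |(r : ℝ) - val k| < 1) : 1 < r := by
  have h1 := val_gt k
  rw [abs_lt] at h
  have : (1 : ℝ) < r := by linarith [h.1]
  exact_mod_cast this

/-- `π ^ e`, `e ^ e`, `π ^ π` -/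
theorem last2 {ε : ℝ} (hε : 0 < ε) (hε1 : ε ≤ 1) {r : ℚ} (hr : |(r : ℝ) - val 2| < ε / 8) :
    ∃ (L : IntermediateField ℚ ℂ) (_ : IsAlgClosed L) (_ : Countable L) (D : ExpField L) (l : L),
      Good ε 2 r D l := by
  have hr1 : 1 < r := rat_gt (k := 2) (lt_of_lt_of_le hr (by linarith))
  have hlog : 0 < Real.log Real.pi := Real.log_pos (by linarith [Real.pi_gt_three])
  obtain ⟨t, ht, hn⟩ := exists_freeR (fun n => if n = 0 then Real.exp 1 else if n = 1 then Real.pi
    else if n = 2 then Real.log Real.pi else if n = 3 then Real.exp 1 ^ Real.exp 1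
    else Real.pi ^ Real.pi) (by
      intro n
      split_ifs
      · exact Real.exp_pos 1
      · exact Real.pi_pos
      · exact hlog
      · exact Real.rpow_pos_of_pos (Real.exp_pos 1) _
      · exact Real.rpow_pos_of_pos Real.pi_pos _) (ε / 8) (by linarith)
  have n0 : |t 0 - Real.exp 1| < ε / 8 := hn 0
  have n1 : |t 1 - Real.pi| < ε / 8 := hn 1
  have n2 : |t 2 - Real.log Real.pi| < ε / 8 := hn 2
  have n3 : |t 3 - Real.exp 1 ^ Real.exp 1| < ε / 8 := hn 3
  have n4 : |t 4 - Real.pi ^ Real.pi| < ε / 8 := hn 4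
  have hp : t 1 ∉ RA (FF t 1) := FF_not ht le_rfl
  have he : t 0 ∈ RA (FF t 1) := FF_mem one_pos
  refine finish (has2 Pool.Agent.Helper56.EM.b4 ht (by linarith) hr1.ne') (by linarith)
    (by linarith) (by linarith) (close_all hε hε1 n0 n1 hr n3 n4) rfl ?_
  intro j hj
  fin_cases j
  · exact RA_add_not hp he
  · exact RA_mul_not hp he (pos_of ht 0).ne'
  · exact absurd rfl hj
  · exact FF_not_empty ht 3
  · exact FF_not_empty ht 4

theorem last3 {ε : ℝ} (hε : 0 < ε) (hε1 : ε ≤ 1) {r : ℚ} (hr : |(r : ℝ) - val 3| < ε / 8) :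
    ∃ (L : IntermediateField ℚ ℂ) (_ : IsAlgClosed L) (_ : Countable L) (D : ExpField L) (l : L),
      Good ε 3 r D l := by
  have hr1 : 1 < r := rat_gt (k := 3) (lt_of_lt_of_le hr (by linarith))
  have hlog : 0 < Real.log Real.pi := Real.log_pos (by linarith [Real.pi_gt_three])
  obtain ⟨t, ht, hn⟩ := exists_freeR (fun n => if n = 0 then Real.exp 1 else if n = 1 then Real.pi
    else if n = 2 then Real.log Real.pi else if n = 3 then Real.pi ^ Real.exp 1
    else Real.pi ^ Real.pi) (by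
      intro n
      split_ifs
      · exact Real.exp_pos 1
      · exact Real.pi_pos
      · exact hlog
      · exact Real.rpow_pos_of_pos Real.pi_pos _
      · exact Real.rpow_pos_of_pos Real.pi_pos _) (ε / 8) (by linarith)
  have n0 : |t 0 - Real.exp 1| < ε / 8 := hn 0
  have n1 : |t 1 - Real.pi| < ε / 8 := hn 1
  have n2 : |t 2 - Real.log Real.pi| < ε / 8 := hn 2
  have n3 : |t 3 - Real.pi ^ Real.exp 1| < ε / 8 := hn 3
  have n4 : |t 4 - Real.pi ^ Real.pi| < ε / 8 := hn 4
  have hp : t 1 ∉ RA (FF t 1) := FF_not ht le_rfl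
  have he : t 0 ∈ RA (FF t 1) := FF_mem one_pos
  refine finish (has3 ht (by linarith) hr1.ne') (by linarith)
    (by linarith) (by linarith) (close_all hε hε1 n0 n1 n3 hr n4) rfl ?_
  intro j hj
  fin_cases j
  · exact RA_add_not hp he
  · exact RA_mul_not hp he (pos_of ht 0).ne'
  · exact FF_not_empty ht 3
  · exact absurd rfl hj
  · exact FF_not_empty ht 4

theorem last4 {ε : ℝ} (hε : 0 < ε) (hε1 : ε ≤ 1) {r : ℚ} (hr : |(r : ℝ) - val 4| < ε / 8) :
    ∃ (L : IntermediateField ℚ ℂ) (_ : IsAlgClosed L) (_ : Countable L) (D : ExpField L) (l : L),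
      Good ε 4 r D l := by
  have hr1 : 1 < r := rat_gt (k := 4) (lt_of_lt_of_le hr (by linarith))
  have hlog : 0 < Real.log Real.pi := Real.log_pos (by linarith [Real.pi_gt_three])
  obtain ⟨t, ht, hn⟩ := exists_freeR (fun n => if n = 0 then Real.pi else if n = 1 then
    Real.log Real.pi else if n = 2 then Real.exp 1 else if n = 3 then Real.exp 1 ^ Real.exp 1
    else Real.pi ^ Real.exp 1) (by
      intro n
      split_ifs
      · exact Real.pi_pos
      · exact hlog
      · exact Real.exp_pos 1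
      · exact Real.rpow_pos_of_pos (Real.exp_pos 1) _
      · exact Real.rpow_pos_of_pos Real.pi_pos _) (ε / 8) (by linarith)
  have n0 : |t 0 - Real.pi| < ε / 8 := hn 0
  have n1 : |t 1 - Real.log Real.pi| < ε / 8 := hn 1
  have n2 : |t 2 - Real.exp 1| < ε / 8 := hn 2
  have n3 : |t 3 - Real.exp 1 ^ Real.exp 1| < ε / 8 := hn 3
  have n4 : |t 4 - Real.pi ^ Real.exp 1| < ε / 8 := hn 4
  have he : t 2 ∉ RA (FF t 2) := FF_not ht le_rfl
  have hp : t 0 ∈ RA (FF t 2) := FF_mem (by norm_num)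
  refine finish (has4 Pool.Agent.Helper56.EM.b3 ht (by linarith) hr1.ne') (by linarith)
    (by linarith) (by linarith) (close_all hε hε1 n2 n0 n4 n3 hr) rfl ?_
  intro j hj
  fin_cases j
  · change t 0 + t 2 ∉ RA ∅
    rw [add_comm]; exact RA_add_not he hp
  · change t 0 * t 2 ∉ RA ∅
    rw [mul_comm]; exact RA_mul_not he hp (pos_of ht 0).ne'
  · exact FF_not_empty ht 4
  · exact FF_not_empty ht 3
  · exact absurd rfl hj

theorem last1 {ε : ℝ} (hε : 0 < ε) (hε1 : ε ≤ 1) : ∃ δ > 0, ∀ r : ℚ, |(r : ℝ) - val 1| < δ →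
    ∃ (L : IntermediateField ℚ ℂ) (_ : IsAlgClosed L) (_ : Countable L) (D : ExpField L) (l : L),
      Good ε 1 r D l := by
  have he0 : (0 : ℝ) < Real.exp 1 := Real.exp_pos 1
  have hcont : ContinuousAt (fun q : ℝ × ℝ => q.1 / q.2) (val 1, Real.exp 1) :=
    ContinuousAt.div continuousAt_fst continuousAt_snd he0.ne'
  have hval : val 1 / Real.exp 1 = Real.pi := by
    change Real.pi * Real.exp 1 / Real.exp 1 = Real.pi
    rw [mul_div_cancel_right₀ _ he0.ne']
  obtain ⟨δ, hδ, hd⟩ := Metric.continuousAt_iff.1 hcont (ε / 8) (by linarith)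
  have hη : 0 < min δ (ε / 8) := lt_min hδ (by linarith)
  refine ⟨min δ (ε / 8), hη, ?_⟩
  intro r hr
  have hr1 : 1 < r := rat_gt (k := 1) (lt_of_lt_of_le (lt_of_lt_of_le hr (min_le_right _ _))
    (by linarith))
  have hlog : 0 < Real.log Real.pi := Real.log_pos (by linarith [Real.pi_gt_three])
  obtain ⟨t, ht, hn⟩ := exists_freeR (fun n => if n = 0 then Real.exp 1 else if n = 1 then
    Real.log Real.pi else if n = 2 then Real.exp 1 ^ Real.exp 1 else if n = 3 then
    Real.pi ^ Real.exp 1 else Real.pi ^ Real.pi) (by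
      intro n
      split_ifs
      · exact Real.exp_pos 1
      · exact hlog
      · exact Real.rpow_pos_of_pos (Real.exp_pos 1) _
      · exact Real.rpow_pos_of_pos Real.pi_pos _
      · exact Real.rpow_pos_of_pos Real.pi_pos _) (min δ (ε / 8)) hη
  have n0' : |t 0 - Real.exp 1| < min δ (ε / 8) := hn 0
  have n0 : |t 0 - Real.exp 1| < ε / 8 := lt_of_lt_of_le n0' (min_le_right _ _)
  have n1 : |t 1 - Real.log Real.pi| < ε / 8 := lt_of_lt_of_le (hn 1) (min_le_right _ _)
  have n2 : |t 2 - Real.exp 1 ^ Real.exp 1| < ε / 8 := lt_of_lt_of_le (hn 2) (min_le_right _ _)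
  have n3 : |t 3 - Real.pi ^ Real.exp 1| < ε / 8 := lt_of_lt_of_le (hn 3) (min_le_right _ _)
  have n4 : |t 4 - Real.pi ^ Real.pi| < ε / 8 := lt_of_lt_of_le (hn 4) (min_le_right _ _)
  have np : |r / t 0 - Real.pi| < ε / 8 := by
    have h1 : dist ((r : ℝ), t 0) (val 1, Real.exp 1) < δ := by
      rw [Prod.dist_eq, max_lt_iff, Real.dist_eq, Real.dist_eq]
      exact ⟨lt_of_lt_of_le hr (min_le_left _ _), lt_of_lt_of_le n0' (min_le_left _ _)⟩
    have h2 := hd h1
    rw [Real.dist_eq, hval] at h2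
    exact h2
  have ha : t 0 ∉ RA ∅ := FF_not_empty ht 0
  have ha0 : t 0 ≠ 0 := (pos_of ht 0).ne'
  refine finish (has1 ht (by linarith) hr1.ne') (by linarith)
    (by linarith) (by linarith) (close_all hε hε1 n0 np n3 n2 n4) ?_ ?_
  · change r / t 0 * t 0 = r
    rw [div_mul_cancel₀ _ ha0]
  · intro j hj
    fin_cases j
    · change r / t 0 + t 0 ∉ RA ∅
      intro h
      apply ha
      refine RA_quad (c := r / t 0 + t 0) (d := -r) h (neg_mem (RA_rat r)) ?_
      field_simp
      ring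
    · exact absurd rfl hj
    · exact FF_not_empty ht 3
    · exact FF_not_empty ht 2
    · exact FF_not_empty ht 4

theorem last0 {ε : ℝ} (hε : 0 < ε) (hε1 : ε ≤ 1) : ∃ δ > 0, ∀ r : ℚ, |(r : ℝ) - val 0| < δ →
    ∃ (L : IntermediateField ℚ ℂ) (_ : IsAlgClosed L) (_ : Countable L) (D : ExpField L) (l : L),
      Good ε 0 r D l := by
  have he0 : (0 : ℝ) < Real.exp 1 := Real.exp_pos 1
  have hv0 : (0 : ℝ) < Real.pi ^ Real.exp 1 := Real.rpow_pos_of_pos Real.pi_pos _
  have hsub : val 0 - Real.exp 1 = Real.pi := by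
    change Real.pi + Real.exp 1 - Real.exp 1 = Real.pi
    ring
  have hcont : ContinuousAt (fun q : ℝ × ℝ × ℝ =>
      Real.exp (q.1 * Real.log (q.1 - q.2.1) - Real.log q.2.2))
      (val 0, Real.exp 1, Real.pi ^ Real.exp 1) := by
    refine Real.continuous_exp.continuousAt.comp ?_
    refine ContinuousAt.sub (ContinuousAt.mul continuousAt_fst ?_) ?_
    · refine ContinuousAt.log (continuousAt_fst.sub (continuousAt_fst.comp continuousAt_snd)) ?_
      change val 0 - Real.exp 1 ≠ 0
      rw [hsub]; exact Real.pi_pos.ne'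
    · refine ContinuousAt.log (continuousAt_snd.comp continuousAt_snd) ?_
      exact hv0.ne'
  have hval : Real.exp (val 0 * Real.log (val 0 - Real.exp 1) - Real.log (Real.pi ^ Real.exp 1)) =
      Real.pi ^ Real.pi := by
    rw [hsub, Real.log_rpow Real.pi_pos, Real.rpow_def_of_pos Real.pi_pos]
    congr 1
    change (Real.pi + Real.exp 1) * Real.log Real.pi - Real.exp 1 * Real.log Real.pi = _
    ring
  obtain ⟨δ, hδ, hd⟩ := Metric.continuousAt_iff.1 hcont (ε / 8) (by linarith)
  have hη : 0 < min δ (ε / 16) := lt_min hδ (by linarith)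
  refine ⟨min δ (ε / 16), hη, ?_⟩
  intro r hr
  have hlog : 0 < Real.log Real.pi := Real.log_pos (by linarith [Real.pi_gt_three])
  obtain ⟨t, ht, hn⟩ := exists_freeR (fun n => if n = 0 then Real.exp 1 else if n = 1 then
    Real.log Real.pi else if n = 2 then Real.exp 1 ^ Real.exp 1 else
    Real.pi ^ Real.exp 1) (by
      intro n
      split_ifs
      · exact Real.exp_pos 1
      · exact hlog
      · exact Real.rpow_pos_of_pos (Real.exp_pos 1) _
      · exact Real.rpow_pos_of_pos Real.pi_pos _) (min δ (ε / 16)) hη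
  have hm : min δ (ε / 16) ≤ ε / 8 := (min_le_right _ _).trans (by linarith)
  have n0' : |t 0 - Real.exp 1| < min δ (ε / 16) := hn 0
  have n0 : |t 0 - Real.exp 1| < ε / 8 := lt_of_lt_of_le n0' hm
  have n1 : |t 1 - Real.log Real.pi| < ε / 8 := lt_of_lt_of_le (hn 1) hm
  have n2 : |t 2 - Real.exp 1 ^ Real.exp 1| < ε / 8 := lt_of_lt_of_le (hn 2) hm
  have n3' : |t 3 - Real.pi ^ Real.exp 1| < min δ (ε / 16) := hn 3
  have n3 : |t 3 - Real.pi ^ Real.exp 1| < ε / 8 := lt_of_lt_of_le n3' hm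
  have np : |r - t 0 - Real.pi| < ε / 8 := by
    have h1 := lt_of_lt_of_le hr (min_le_right _ _)
    have h2 := lt_of_lt_of_le n0' (min_le_right _ _)
    rw [abs_lt] at *
    constructor <;> linarith [h1.1, h1.2, h2.1, h2.2, hsub]
  have n4 : |Real.exp (r * Real.log (r - t 0) - Real.log (t 3)) - Real.pi ^ Real.pi| < ε / 8 := by
    have h1 : dist ((r : ℝ), t 0, t 3) (val 0, Real.exp 1, Real.pi ^ Real.exp 1) < δ := by
      rw [Prod.dist_eq, max_lt_iff, Prod.dist_eq, max_lt_iff, Real.dist_eq, Real.dist_eq,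
        Real.dist_eq]
      exact ⟨lt_of_lt_of_le hr (min_le_left _ _), lt_of_lt_of_le n0' (min_le_left _ _),
        lt_of_lt_of_le n3' (min_le_left _ _)⟩
    have h2 := hd h1
    rw [Real.dist_eq, hval] at h2
    exact h2
  have hlt : t 0 < r := by
    have h1 := Real.pi_gt_three
    rw [abs_lt] at np
    linarith [np.1]
  have ha : t 0 ∉ RA ∅ := FF_not_empty ht 0
  have hpRA : (r - t 0 : ℝ) ∈ RA (FF t 1) := sub_mem (RA_rat r) (FF_mem one_pos)
  refine finish (has0 ht hlt) (by linarith)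
    (by linarith) (by linarith) (close_all hε hε1 n0 np n3 n2 n4) ?_ ?_
  · change r - t 0 + t 0 = (r : ℝ)
    ring
  · intro j hj
    fin_cases j
    · exact absurd rfl hj
    · change (r - t 0) * t 0 ∉ RA ∅
      intro h
      apply ha
      refine RA_quad (c := r) (d := -((r - t 0) * t 0)) (RA_rat r) (neg_mem h) ?_
      ring
    · exact FF_not_empty ht 3
    · exact FF_not_empty ht 2
    · change Real.exp (r * Real.log (r - t 0) - Real.log (t 3)) ∉ RA ∅
      intro h
      have h3 : t 3 ∉ RA (FF t 3) := FF_not ht le_rfl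
      apply h3
      have hpos : 0 < r - t 0 := by linarith
      have h4 : Real.exp (r * Real.log (r - t 0)) ∈ RA (FF t 3) := by
        apply mem_RA.2
        have h5 : exp ((Real.log (r - t 0) : ℝ) : ℂ) ∈ M.closure (FF t 3) := by
          rw [exp_rlog hpos]
          exact mem_RA.1 (RA_mono (image_mono (fun n => (t n : ℂ)) (by norm_num)) hpRA)
        have h6 := cl_exp_smul r h5
        rw [Rat.smul_def] at h6
        have e : ((Real.exp (r * Real.log (r - t 0)) : ℝ) : ℂ) =
            exp ((r : ℂ) * ((Real.log (r - t 0) : ℝ) : ℂ)) := by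
          rw [ofReal_exp]; push_cast; rfl
        rw [e]; exact h6
      have h7 : t 3 = Real.exp (r * Real.log (r - t 0)) /
          Real.exp (r * Real.log (r - t 0) - Real.log (t 3)) := by
        rw [← Real.exp_sub, sub_sub_cancel, Real.exp_log (pos_of ht 3)]
      rw [h7]
      exact div_mem h4 (RA_mono (Set.empty_subset _) h)

end Pool.Agent.Helper35.EM
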