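import Pool.Agent.Helper35.EM.Ext

/-! Existence of a free sequence; rank and transcendence degree. -/

namespace Pool.Agent.Helper35.EM

open Set Module

theorem exists_free : ∃ t : ℕ → ℂ, Free t := by
  obtain ⟨s, hs⟩ := exists_isTranscendenceBasis ℚ ℂ
  have hbase : M.IsBase s := AlgebraicIndependent.matroid_isBase_iff.2 hs
  have hinf : s.Infinite := by
    intro hfin
    have h1 : (M.closure s).Countable := countable_closure hfin.countable
    have h2 : M.closure s = univ := hbase.closure_eq
    rw [h2] at h1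
    exact not_countable_complex h1
  have : Infinite s := hinf.to_subtype
  let f := Infinite.natEmbedding s
  refine ⟨fun n => (f n : ℂ), fun n hn => ?_⟩
  have h1 : (f n : ℂ) ∉ M.closure (s \ {(f n : ℂ)}) :=
    hbase.indep.notMem_closure_sdiff_of_mem (f n).2
  apply h1
  refine cl_mono ?_ hn
  rintro _ ⟨k, hk, rfl⟩
  refine ⟨(f k).2, fun he => ?_⟩
  have : f k = f n := Subtype.ext he
  exact absurd (f.injective this) (ne_of_lt hk)

theorem algInd_of_rk {n : ℕ} (g : Fin n → ℂ) (h : (n : ℕ∞) ≤ M.eRk (range g)) :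
    AlgebraicIndependent ℚ g := by
  have h1 : M.eRk (range g) ≤ (range g).encard := M.eRk_le_encard _
  have h2 : (range g).encard ≤ n := by
    rw [← image_univ]
    refine (encard_image_le g univ).trans ?_
    rw [encard_univ]; simp
  have h3 : (range g).encard = n := le_antisymm h2 (h.trans h1)
  have h4 : M.Indep (range g) := by
    rw [Matroid.indep_iff_eRk_eq_encard_of_finite (finite_range g)]
    exact le_antisymm h1 (h3 ▸ h)
  have hinj : Function.Injective g := by
    have : (g '' univ).encard = (univ : Set (Fin n)).encard := by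
      rw [image_univ, h3, encard_univ]; simp
    have := (finite_univ (α := Fin n)).injOn_of_encard_image_eq this
    exact injOn_univ.1 this
  exact (algebraicIndependent_subtype_range hinj).1 h4

theorem algInd_of_rk' {n : ℕ} {L : IntermediateField ℚ ℂ} (g : Fin n → L)
    (h : (n : ℕ∞) ≤ M.eRk (range fun j => (g j : ℂ))) : AlgebraicIndependent ℚ g :=
  (L.val.algebraicIndependent_iff L.val.injective).1 (algInd_of_rk _ h)

theorem trdeg_of_rk {L : IntermediateField ℚ ℂ} (A : Set L) {n : ℕ}
    (h : (n : ℕ∞) ≤ M.eRk ((fun x : L => (x : ℂ)) '' A)) :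
    (n : Cardinal) ≤ Algebra.trdeg ℚ (IntermediateField.adjoin ℚ A) := by
  obtain ⟨I, hIA, hI, hIn⟩ := Matroid.le_eRk_iff.1 h
  have hmem : ∀ i : I, ∃ y : IntermediateField.adjoin ℚ A, ((y : L) : ℂ) = i := by
    rintro ⟨i, hi⟩
    obtain ⟨x, hx, hxi⟩ := hIA hi
    exact ⟨⟨x, IntermediateField.subset_adjoin ℚ A hx⟩, hxi⟩
  choose f hf using hmem
  have h1 : AlgebraicIndependent ℚ f := by
    let φ : IntermediateField.adjoin ℚ A →ₐ[ℚ] ℂ := L.val.comp (IntermediateField.adjoin ℚ A).val
    have hφ : Function.Injective φ := φ.injective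
    rw [← φ.algebraicIndependent_iff hφ]
    have : φ ∘ f = (Subtype.val : I → ℂ) := by
      funext i; exact hf i
    rw [this]
    exact hI
  have h2 := h1.cardinalMk_le_trdeg
  have h3 : Cardinal.mk I = n := by
    have hfin : I.Finite := by
      rw [← encard_lt_top_iff, hIn]; exact ENat.natCast_lt_top n
    have h5 : I.ncard = n := by
      rw [ncard, hIn]; rfl
    have h6 : Cardinal.mk I = (I.ncard : Cardinal) := (Set.cast_ncard hfin).symm
    rw [h6, h5]
  rwa [h3] at h2

end Pool.Agent.Helper35.EM
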