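import Pool.Agent.Helper35.EM.Defs

/-! One step of the extension. -/

namespace Pool.Agent.Helper35.EM

open Set Module

/-- a finite dimensional stage with coordinates in the closure of `F` -/
structure St (P : Submodule ℚ (ℂ × ℂ)) (F : Set ℂ) : Prop where
  fin : FiniteDimensional ℚ P
  fst_mem : ∀ p ∈ P, p.1 ∈ M.closure F
  exp_mem : ∀ p ∈ P, Complex.exp p.2 ∈ M.closure F
  inj1 : ∀ p ∈ P, p.1 = 0 → p = 0
  inj2 : ∀ p ∈ P, p.2 = 0 → p = 0

/-- the relative rank inequality -/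
def Ineq (P P' : Submodule ℚ (ℂ × ℂ)) : Prop := ∀ V ≤ P',
  (finrank ℚ V : ℕ∞) + M.eRk (co (V ⊓ P)) ≤
    M.eRk (co V) + (finrank ℚ (V ⊓ P : Submodule ℚ (ℂ × ℂ)) : ℕ∞)

theorem co_mono {V W : Submodule ℚ (ℂ × ℂ)} (h : V ≤ W) : co V ⊆ co W := by
  rintro a ⟨p, hp, ha⟩; exact ⟨p, h hp, ha⟩

theorem St.co_sub {P : Submodule ℚ (ℂ × ℂ)} {F : Set ℂ} (h : St P F) {V : Submodule ℚ (ℂ × ℂ)}
    (hV : V ≤ P) : co V ⊆ M.closure F := by
  rintro a ⟨p, hp, rfl | rfl⟩
  · exact h.fst_mem p (hV hp)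
  · exact h.exp_mem p (hV hp)

theorem St.rk_le {P : Submodule ℚ (ℂ × ℂ)} {F : Set ℂ} (h : St P F) {V : Submodule ℚ (ℂ × ℂ)}
    (hV : V ≤ P) : M.eRk (co V) ≤ M.eRk F := by
  rw [← M.eRk_closure_eq F]
  exact M.eRk_mono (h.co_sub hV)

theorem St.rk_ne_top {P : Submodule ℚ (ℂ × ℂ)} {F : Set ℂ} (h : St P F) (hF : F.Finite)
    {V : Submodule ℚ (ℂ × ℂ)} (hV : V ≤ P) : M.eRk (co V) ≠ ⊤ := by
  have h1 := h.rk_le hV
  have h2 : M.eRk F ≤ F.encard := M.eRk_le_encard F
  have h3 : F.encard < ⊤ := hF.encard_lt_top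
  exact ((h1.trans h2).trans_lt h3).ne

theorem St.mono {P : Submodule ℚ (ℂ × ℂ)} {F F' : Set ℂ} (h : St P F) (hF : F ⊆ F') : St P F' :=
  ⟨h.fin, fun p hp => cl_mono hF (h.fst_mem p hp), fun p hp => cl_mono hF (h.exp_mem p hp),
    h.inj1, h.inj2⟩

theorem Ineq.refl (P : Submodule ℚ (ℂ × ℂ)) : Ineq P P := by
  intro V hV
  rw [inf_eq_left.2 hV, add_comm]

theorem Ineq.trans {P P' P'' : Submodule ℚ (ℂ × ℂ)} {F : Set ℂ} (hF : F.Finite)
    (hs : St P' F) (h : P ≤ P') (h1 : Ineq P P') (h2 : Ineq P' P'') : Ineq P P'' := by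
  intro V hV
  have a := h2 V hV
  have b := h1 (V ⊓ P') inf_le_right
  have e : V ⊓ P' ⊓ P = V ⊓ P := by rw [inf_assoc, inf_eq_right.2 h]
  rw [e] at b
  have hfin : M.eRk (co (V ⊓ P')) ≠ ⊤ := hs.rk_ne_top hF inf_le_right
  have hf2 : M.eRk (co (V ⊓ P)) ≠ ⊤ := hs.rk_ne_top hF (inf_le_right.trans h)
  obtain ⟨x, hx⟩ := ENat.ne_top_iff_exists.1 hfin
  obtain ⟨y, hy⟩ := ENat.ne_top_iff_exists.1 hf2
  rw [← hx] at a b
  rw [← hy] at b ⊢
  generalize M.eRk (co V) = w at a ⊢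
  induction w using ENat.recTopCoe with
  | top => simp
  | coe w =>
    norm_cast at a b ⊢
    omega

theorem step {P : Submodule ℚ (ℂ × ℂ)} {F F' : Set ℂ} (hF : F ⊆ F') (h : St P F) (v : ℂ × ℂ)
    (hv1 : v.1 ∈ M.closure F') (hv2 : Complex.exp v.2 ∈ M.closure F')
    (hi1 : ∀ p ∈ P, ∀ q : ℚ, q ≠ 0 → p.1 + q • v.1 ≠ 0)
    (hi2 : ∀ p ∈ P, ∀ q : ℚ, q ≠ 0 → p.2 + q • v.2 ≠ 0)
    (hg : ∀ p ∈ P, ∀ q : ℚ, q ≠ 0 → p.1 + q • v.1 ∉ M.closure F ∨
      Complex.exp (p.2 + q • v.2) ∉ M.closure F) :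
    St (P ⊔ Submodule.span ℚ {v}) F' ∧ Ineq P (P ⊔ Submodule.span ℚ {v}) := by
  have hfinP : FiniteDimensional ℚ P := h.fin
  have hmem : ∀ p ∈ P ⊔ Submodule.span ℚ {v}, ∃ p' ∈ P, ∃ q : ℚ, p = p' + q • v := by
    intro p hp
    obtain ⟨p', hp', w, hw, rfl⟩ := Submodule.mem_sup.1 hp
    obtain ⟨q, rfl⟩ := Submodule.mem_span_singleton.1 hw
    exact ⟨p', hp', q, rfl⟩
  have hfinP' : FiniteDimensional ℚ (P ⊔ Submodule.span ℚ {v} : Submodule ℚ (ℂ × ℂ)) :=
    inferInstance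
  refine ⟨⟨hfinP', ?_, ?_, ?_, ?_⟩, ?_⟩
  · intro p hp
    obtain ⟨p', hp', q, rfl⟩ := hmem p hp
    simp only [Prod.fst_add, Prod.smul_fst]
    exact cl_add (cl_mono hF (h.fst_mem p' hp')) (cl_smul q hv1)
  · intro p hp
    obtain ⟨p', hp', q, rfl⟩ := hmem p hp
    simp only [Prod.snd_add, Prod.smul_snd]
    exact cl_exp_add (cl_mono hF (h.exp_mem p' hp')) (cl_exp_smul q hv2)
  · intro p hp h0
    obtain ⟨p', hp', q, rfl⟩ := hmem p hp
    by_cases hq : q = 0
    · subst hq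
      simp only [zero_smul, add_zero] at h0 ⊢
      exact h.inj1 p' hp' h0
    · exact absurd h0 (hi1 p' hp' q hq)
  · intro p hp h0
    obtain ⟨p', hp', q, rfl⟩ := hmem p hp
    by_cases hq : q = 0
    · subst hq
      simp only [zero_smul, add_zero] at h0 ⊢
      exact h.inj2 p' hp' h0
    · exact absurd h0 (hi2 p' hp' q hq)
  · intro V hV
    have hfinV : FiniteDimensional ℚ V := Submodule.finiteDimensional_of_le hV
    by_cases hVP : V ≤ P
    · rw [inf_eq_left.2 hVP, add_comm]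
    · obtain ⟨w, hw, hwP⟩ := SetLike.not_le_iff_exists.1 hVP
      -- dimension
      have hd : finrank ℚ V ≤ finrank ℚ (V ⊓ P : Submodule ℚ (ℂ × ℂ)) + 1 := by
        have e1 := Submodule.finrank_sup_add_finrank_inf_eq V P
        have e2 : finrank ℚ (V ⊔ P : Submodule ℚ (ℂ × ℂ)) ≤
            finrank ℚ (P ⊔ Submodule.span ℚ {v} : Submodule ℚ (ℂ × ℂ)) :=
          Submodule.finrank_mono (sup_le hV le_sup_left)
        have e3 : finrank ℚ (P ⊔ Submodule.span ℚ {v} : Submodule ℚ (ℂ × ℂ)) ≤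
            finrank ℚ P + finrank ℚ (Submodule.span ℚ {v} : Submodule ℚ (ℂ × ℂ)) :=
          Submodule.finrank_add_le_finrank_add_finrank _ _
        have e4 : finrank ℚ (Submodule.span ℚ {v} : Submodule ℚ (ℂ × ℂ)) ≤ 1 := by
          have := finrank_span_le_card (R := ℚ) ({v} : Set (ℂ × ℂ))
          simpa using this
        omega
      -- a new coordinate
      have hc : ∃ c ∈ co V, c ∉ M.closure F := by
        obtain ⟨p', hp', q, rfl⟩ := hmem w (hV hw)
        have hq : q ≠ 0 := by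
          rintro rfl
          apply hwP
          simpa using hp'
        rcases hg p' hp' q hq with hh | hh
        · exact ⟨_, ⟨_, hw, Or.inl rfl⟩, by simpa using hh⟩
        · exact ⟨_, ⟨_, hw, Or.inr rfl⟩, by simpa using hh⟩
      obtain ⟨c, hcV, hcF⟩ := hc
      have hcn : c ∉ M.closure (co (V ⊓ P)) := by
        intro hcc
        apply hcF
        have : M.closure (co (V ⊓ P)) ⊆ M.closure F :=
          cl_le fun x hx => h.co_sub inf_le_right hx
        exact this hcc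
      have h1 : M.eRk (insert c (co (V ⊓ P))) = M.eRk (co (V ⊓ P)) + 1 :=
        Matroid.eRk_insert_eq_add_one ⟨mem_univ _, hcn⟩
      have h2 : M.eRk (insert c (co (V ⊓ P))) ≤ M.eRk (co V) := by
        apply M.eRk_mono
        intro x hx
        rcases hx with rfl | hx
        · exact hcV
        · exact co_mono inf_le_left hx
      rw [h1] at h2
      have hd' : (finrank ℚ V : ℕ∞) ≤ (finrank ℚ (V ⊓ P : Submodule ℚ (ℂ × ℂ)) : ℕ∞) + 1 := by
        exact_mod_cast hd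
      calc (finrank ℚ V : ℕ∞) + M.eRk (co (V ⊓ P))
          ≤ ((finrank ℚ (V ⊓ P : Submodule ℚ (ℂ × ℂ)) : ℕ∞) + 1) + M.eRk (co (V ⊓ P)) := by
            gcongr
        _ = (M.eRk (co (V ⊓ P)) + 1) + (finrank ℚ (V ⊓ P : Submodule ℚ (ℂ × ℂ)) : ℕ∞) := by
            ring
        _ ≤ _ := by gcongr

/-- an algebraically independent sequence -/
def Free (t : ℕ → ℂ) : Prop := ∀ n, t n ∉ M.closure (t '' Iio n)

theorem image_mono (t : ℕ → ℂ) {m n : ℕ} (h : m ≤ n) : t '' Iio m ⊆ t '' Iio n :=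
  image_mono_aux t h
where
  image_mono_aux (t : ℕ → ℂ) {m n : ℕ} (h : m ≤ n) : t '' Iio m ⊆ t '' Iio n := by
    rintro _ ⟨k, hk, rfl⟩
    exact ⟨k, lt_of_lt_of_le hk h, rfl⟩

theorem forth {t : ℕ → ℂ} (ht : Free t) {P : Submodule ℚ (ℂ × ℂ)} {N : ℕ}
    (h : St P (t '' Iio N)) {x : ℂ} {N' : ℕ} (hx : x ∈ M.closure (t '' Iio N')) :
    ∃ (P' : Submodule ℚ (ℂ × ℂ)) (N1 : ℕ), P ≤ P' ∧ St P' (t '' Iio N1) ∧ Ineq P P' ∧
      ∃ z, (x, z) ∈ P' := by
  by_cases hxP : ∃ z, (x, z) ∈ P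
  · exact ⟨P, N, le_rfl, h, Ineq.refl P, hxP⟩
  · have h' := h.mono (image_mono t (le_max_left N N'))
    have hx' := cl_mono (image_mono t (le_max_right N N')) hx
    set L := max N N' with hL
    have ht0 : t L ≠ 0 := by
      intro h0
      apply ht L
      rw [h0]
      simpa using cl_ratCast (t '' Iio L) 0
    have hlog : Complex.exp (Complex.log (t L)) = t L := Complex.exp_log ht0
    have key : ∀ p ∈ P, ∀ q : ℚ, q ≠ 0 →
        Complex.exp (p.2 + q • Complex.log (t L)) ∉ M.closure (t '' Iio L) := by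
      intro p hp q hq hh
      rw [add_comm] at hh
      have := cl_exp_of_smul_add hq hh (h'.exp_mem p hp)
      rw [hlog] at this
      exact ht L this
    have hs := step (image_mono t (Nat.le_succ L)) h' (x, Complex.log (t L))
      (cl_mono (image_mono t (Nat.le_succ L)) hx')
      (by rw [hlog]; exact cl_self ⟨L, Nat.lt_succ_self L, rfl⟩)
      (by
        intro p hp q hq h0
        apply hxP
        refine ⟨-(q⁻¹ • p.2), ?_⟩
        have hm : -(q⁻¹ • p) ∈ P := P.neg_mem (P.smul_mem _ hp)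
        have hxe : x = -(q⁻¹ • p.1) := by
          have : q • x = -p.1 := by
            have := h0
            simp only at this
            exact eq_neg_of_add_eq_zero_right this
          calc x = q⁻¹ • (q • x) := by rw [smul_smul, inv_mul_cancel₀ hq, one_smul]
            _ = -(q⁻¹ • p.1) := by rw [this, smul_neg]
        have : (x, -(q⁻¹ • p.2)) = -(q⁻¹ • p) := by
          ext1
          · exact hxe
          · rfl
        rw [this]; exact hm)
      (by
        intro p hp q hq h0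
        apply key p hp q hq
        have h0' : p.2 + q • Complex.log (t L) = 0 := h0
        rw [h0', Complex.exp_zero]
        simpa using cl_ratCast (t '' Iio L) 1)
      (by
        intro p hp q hq
        exact Or.inr (key p hp q hq))
    refine ⟨_, L + 1, le_sup_left, hs.1, hs.2, Complex.log (t L), ?_⟩
    exact Submodule.mem_sup_right (Submodule.mem_span_singleton_self _)

theorem back {t : ℕ → ℂ} (ht : Free t) {P : Submodule ℚ (ℂ × ℂ)} {N : ℕ}
    (h : St P (t '' Iio N)) {w : ℂ} {N' : ℕ} (hx : Complex.exp w ∈ M.closure (t '' Iio N')) :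
    ∃ (P' : Submodule ℚ (ℂ × ℂ)) (N1 : ℕ), P ≤ P' ∧ St P' (t '' Iio N1) ∧ Ineq P P' ∧
      ∃ u, (u, w) ∈ P' := by
  by_cases hxP : ∃ u, (u, w) ∈ P
  · exact ⟨P, N, le_rfl, h, Ineq.refl P, hxP⟩
  · have h' := h.mono (image_mono t (le_max_left N N'))
    have hx' := cl_mono (image_mono t (le_max_right N N')) hx
    set L := max N N' with hL
    have key : ∀ p ∈ P, ∀ q : ℚ, q ≠ 0 → p.1 + q • t L ∉ M.closure (t '' Iio L) := by
      intro p hp q hq hh
      have h1 : q • t L ∈ M.closure (t '' Iio L) := (cl_add_iff (h'.fst_mem p hp)).1 hh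
      have h2 := cl_smul q⁻¹ h1
      rw [smul_smul, inv_mul_cancel₀ hq, one_smul] at h2
      exact ht L h2
    have hs := step (image_mono t (Nat.le_succ L)) h' (t L, w)
      (cl_self ⟨L, Nat.lt_succ_self L, rfl⟩)
      (cl_mono (image_mono t (Nat.le_succ L)) hx')
      (by
        intro p hp q hq h0
        apply key p hp q hq
        have h0' : p.1 + q • t L = 0 := h0
        rw [h0']
        simpa using cl_ratCast (t '' Iio L) 0)
      (by
        intro p hp q hq h0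
        apply hxP
        refine ⟨-(q⁻¹ • p.1), ?_⟩
        have hm : -(q⁻¹ • p) ∈ P := P.neg_mem (P.smul_mem _ hp)
        have hxe : w = -(q⁻¹ • p.2) := by
          have : q • w = -p.2 := by
            have := h0
            simp only at this
            exact eq_neg_of_add_eq_zero_right this
          calc w = q⁻¹ • (q • w) := by rw [smul_smul, inv_mul_cancel₀ hq, one_smul]
            _ = -(q⁻¹ • p.2) := by rw [this, smul_neg]
        have : (-(q⁻¹ • p.1), w) = -(q⁻¹ • p) := by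
          ext1
          · rfl
          · exact hxe
        rw [this]; exact hm)
      (by
        intro p hp q hq
        exact Or.inl (key p hp q hq))
    refine ⟨_, L + 1, le_sup_left, hs.1, hs.2, t L, ?_⟩
    exact Submodule.mem_sup_right (Submodule.mem_span_singleton_self _)

theorem both {t : ℕ → ℂ} (ht : Free t) {P : Submodule ℚ (ℂ × ℂ)} {N : ℕ}
    (h : St P (t '' Iio N)) {x : ℂ} {N' : ℕ} (hx : x ∈ M.closure (t '' Iio N')) :
    ∃ (P' : Submodule ℚ (ℂ × ℂ)) (N1 : ℕ), P ≤ P' ∧ St P' (t '' Iio N1) ∧ Ineq P P' ∧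
      (∃ z, (x, z) ∈ P') ∧ (x ≠ 0 → ∃ u, (u, Complex.log x) ∈ P') := by
  obtain ⟨P1, N1, h1, hs1, hi1, z, hz⟩ := forth ht h hx
  by_cases hx0 : x = 0
  · exact ⟨P1, N1, h1, hs1, hi1, ⟨z, hz⟩, fun hh => absurd hx0 hh⟩
  · have hx2 : Complex.exp (Complex.log x) ∈ M.closure (t '' Iio N') := by
      rwa [Complex.exp_log hx0]
    obtain ⟨P2, N2, h2, hs2, hi2, u, hu⟩ := back ht hs1 hx2
    refine ⟨P2, N2, h1.trans h2, hs2, ?_, ⟨z, h2 hz⟩, fun _ => ⟨u, hu⟩⟩
    exact Ineq.trans ((finite_Iio N1).image t) hs1 h1 hi1 hi2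

end Pool.Agent.Helper35.EM
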