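import Pool.Agent.Helper35.EM.Defs

/-! Statements of the packages. -/

namespace Pool.Agent.Helper35.EM

open Complex

/-- Base for `pi ^ pi`: `a` plays `pi`, `b` a logarithm of it, `C` the value. -/
def S_B3 : Prop := ∀ (a b La LC : ℂ) (C : ℚ), a ∉ M.closure ∅ → b ∉ M.closure {a} →
  exp La = a → exp LC = C → C ≠ 0 → C ≠ 1 → C ≠ -1 →
  ∀ P : Submodule ℚ (ℂ × ℂ),
  P = Submodule.span ℚ {(b, La), (a * b, LC), (2 * I * a, 2 * Real.pi * I)} →
  Base P P {a, b}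

/-- Base for `pi ^ e`: `a` plays `e`, `b` plays `pi`, `l` a logarithm of `b`, `B` the value. -/
def S_B4 : Prop := ∀ (a b l La Lb LB : ℂ) (B : ℚ), a ∉ M.closure ∅ → b ∉ M.closure {a} →
  l ∉ M.closure {a, b} →
  exp La = a → exp Lb = b → exp LB = B → B ≠ 0 → B ≠ 1 → B ≠ -1 →
  ∀ P : Submodule ℚ (ℂ × ℂ),
  P = Submodule.span ℚ {(1, La), (l, Lb), (a * l, LB), (2 * I * b, 2 * Real.pi * I)} →
  Base P P {a, b, l}

end Pool.Agent.Helper35.EM
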